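import Mathlib

/-!
The gauge `r (1 + log⁺ (1 / r))` (helper305).
-/

set_option autoImplicit false

open MeasureTheory Set Metric Filter Topology
open scoped ENNReal NNReal

namespace Pool.Agent.TH305.LW

/-- The gauge `r (1 + log⁺ (1 / r))`. -/
noncomputable def lg (d : ℝ≥0∞) : ℝ≥0∞ := d * ENNReal.ofReal (1 + Real.posLog d.toReal⁻¹)

lemma lg_real {x y : ℝ} (hx : 0 < x) (hxy : x ≤ y) :
    x * (1 + Real.posLog x⁻¹) ≤ y * (1 + Real.posLog y⁻¹) := by
  have hy : 0 < y := hx.trans_le hxy
  rcases le_or_gt 1 y with h1 | h1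
  · have e1 : Real.posLog y⁻¹ = 0 := by
      rw [Real.posLog_eq_zero_iff, abs_of_pos (by positivity)]
      exact inv_le_one_of_one_le₀ h1
    rw [e1]
    rcases le_or_gt 1 x with h2 | h2
    · have e2 : Real.posLog x⁻¹ = 0 := by
        rw [Real.posLog_eq_zero_iff, abs_of_pos (by positivity)]
        exact inv_le_one_of_one_le₀ h2
      rw [e2]
      linarith
    · have e2 : Real.posLog x⁻¹ = Real.log x⁻¹ := by
        apply Real.posLog_eq_log
        rw [abs_of_pos (by positivity)]
        exact (one_le_inv₀ hx).2 h2.le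
      have h3 := Real.log_le_sub_one_of_pos (inv_pos.2 hx)
      rw [e2]
      have h4 : x * (1 + Real.log x⁻¹) ≤ x * x⁻¹ := by
        apply mul_le_mul_of_nonneg_left _ hx.le
        linarith
      rw [mul_inv_cancel₀ hx.ne'] at h4
      linarith
  · have h2 : x < 1 := hxy.trans_lt h1
    have e1 : Real.posLog y⁻¹ = -Real.log y := by
      rw [← Real.log_inv]
      apply Real.posLog_eq_log
      rw [abs_of_pos (by positivity)]
      exact (one_le_inv₀ hy).2 h1.le
    have e2 : Real.posLog x⁻¹ = -Real.log x := by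
      rw [← Real.log_inv]
      apply Real.posLog_eq_log
      rw [abs_of_pos (by positivity)]
      exact (one_le_inv₀ hx).2 h2.le
    rw [e1, e2]
    have h3 := Real.log_le_sub_one_of_pos (show 0 < y / x by positivity)
    rw [Real.log_div hy.ne' hx.ne'] at h3
    have h4 : x * (Real.log y - Real.log x) ≤ y - x := by
      calc x * (Real.log y - Real.log x) ≤ x * (y / x - 1) :=
            mul_le_mul_of_nonneg_left h3 hx.le
        _ = y - x := by field_simp
    have h5 : Real.log y ≤ 0 := Real.log_nonpos hy.le h1.le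
    nlinarith

lemma lg_mono : Monotone lg := by
  intro a b hab
  unfold lg
  rcases eq_or_ne b ⊤ with rfl | hb
  · simp
  have ha : a ≠ ⊤ := ne_top_of_le_ne_top hb hab
  rcases eq_or_ne a 0 with rfl | ha0
  · simp
  have hx : 0 < a.toReal := ENNReal.toReal_pos ha0 ha
  have hxy : a.toReal ≤ b.toReal := ENNReal.toReal_mono hb hab
  have h1 := lg_real hx hxy
  have e1 : a * ENNReal.ofReal (1 + Real.posLog a.toReal⁻¹)
      = ENNReal.ofReal (a.toReal * (1 + Real.posLog a.toReal⁻¹)) := by
    rw [ENNReal.ofReal_mul hx.le, ENNReal.ofReal_toReal ha]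
  have e2 : b * ENNReal.ofReal (1 + Real.posLog b.toReal⁻¹)
      = ENNReal.ofReal (b.toReal * (1 + Real.posLog b.toReal⁻¹)) := by
    rw [ENNReal.ofReal_mul (hx.le.trans hxy), ENNReal.ofReal_toReal hb]
  rw [e1, e2]
  exact ENNReal.ofReal_le_ofReal h1

lemma lg_div : ∫⁻ r in Ioo (0 : ℝ) 1, (lg (ENNReal.ofReal r))⁻¹ = ⊤ := by
  have hpt : ∀ r ∈ Ioo (0 : ℝ) 1, (lg (ENNReal.ofReal r))⁻¹
      = ENNReal.ofReal ((r * (1 - Real.log r))⁻¹) := by
    intro r hr
    have hr0 : 0 < r := hr.1
    have hl : Real.log r < 0 := Real.log_neg hr.1 hr.2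
    have e1 : Real.posLog r⁻¹ = -Real.log r := by
      rw [← Real.log_inv]
      apply Real.posLog_eq_log
      rw [abs_of_pos (by positivity)]
      exact (one_le_inv₀ hr0).2 hr.2.le
    unfold lg
    rw [ENNReal.toReal_ofReal hr0.le, e1, ← ENNReal.ofReal_mul hr0.le,
      ENNReal.ofReal_inv_of_pos (mul_pos hr0 (by linarith))]
    rfl
  have hlow : ∀ n : ℕ, (n : ℝ≥0∞) ≤ ∫⁻ r in Ioo (0 : ℝ) 1, (lg (ENNReal.ofReal r))⁻¹ := by
    intro n
    obtain ⟨a, ha⟩ : ∃ a, a = Real.exp (1 - Real.exp n) := ⟨_, rfl⟩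
    have ha0 : 0 < a := by rw [ha]; exact Real.exp_pos _
    have hla : Real.log a = 1 - Real.exp n := by rw [ha, Real.log_exp]
    have hn : (1 : ℝ) ≤ Real.exp n := Real.one_le_exp (Nat.cast_nonneg n)
    have ha1 : a ≤ 1 := by
      rw [ha, Real.exp_le_one_iff]
      linarith
    have hd : ∀ x ∈ uIcc a 1, HasDerivAt (fun x : ℝ => -Real.log (1 - Real.log x))
        ((x * (1 - Real.log x))⁻¹) x := by
      intro x hx
      rw [uIcc_of_le ha1] at hx
      have hx0 : 0 < x := ha0.trans_le hx.1
      have hl : Real.log x ≤ 0 := Real.log_nonpos hx0.le hx.2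
      have h1 : 1 - Real.log x ≠ 0 := by
        have : 0 < 1 - Real.log x := by linarith
        exact this.ne'
      have h2 := (((Real.hasDerivAt_log hx0.ne').const_sub 1).log h1).neg
      refine h2.congr_deriv ?_
      field_simp
    have hc : ContinuousOn (fun x : ℝ => (x * (1 - Real.log x))⁻¹) (Icc a 1) := by
      intro x hx
      have hx0 : 0 < x := ha0.trans_le hx.1
      have hl : Real.log x ≤ 0 := Real.log_nonpos hx0.le hx.2
      have h1 : x * (1 - Real.log x) ≠ 0 := by
        have : 0 < x * (1 - Real.log x) := mul_pos hx0 (by linarith)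
        exact this.ne'
      apply ContinuousAt.continuousWithinAt
      have h2 : ContinuousAt (fun x : ℝ => x * (1 - Real.log x)) x :=
        continuousAt_id.mul (continuousAt_const.sub (Real.continuousAt_log hx0.ne'))
      exact h2.inv₀ h1
    have h3 : ∫ x in a..1, (x * (1 - Real.log x))⁻¹ = n := by
      rw [intervalIntegral.integral_eq_sub_of_hasDerivAt hd]
      · rw [Real.log_one, hla]
        simp
      · apply ContinuousOn.intervalIntegrable
        rw [uIcc_of_le ha1]
        exact hc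
    have hI : IntegrableOn (fun x : ℝ => (x * (1 - Real.log x))⁻¹) (Ioo a 1) :=
      (hc.integrableOn_compact isCompact_Icc).mono_set Ioo_subset_Icc_self
    have h4 : (n : ℝ≥0∞) = ∫⁻ r in Ioo a 1, ENNReal.ofReal ((r * (1 - Real.log r))⁻¹) := by
      rw [← ofReal_integral_eq_lintegral_ofReal hI]
      · rw [← integral_Ioc_eq_integral_Ioo, ← intervalIntegral.integral_of_le ha1, h3,
          ENNReal.ofReal_natCast]
      · filter_upwards [ae_restrict_mem measurableSet_Ioo] with x hx
        have hx0 : 0 < x := ha0.trans hx.1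
        have hl : Real.log x ≤ 0 := Real.log_nonpos hx0.le hx.2.le
        show (0 : ℝ) ≤ (x * (1 - Real.log x))⁻¹
        have : 0 < x * (1 - Real.log x) := mul_pos hx0 (by linarith)
        positivity
    rw [h4]
    calc ∫⁻ r in Ioo a 1, ENNReal.ofReal ((r * (1 - Real.log r))⁻¹)
        ≤ ∫⁻ r in Ioo (0 : ℝ) 1, ENNReal.ofReal ((r * (1 - Real.log r))⁻¹) :=
          lintegral_mono_set (Ioo_subset_Ioo_left ha0.le)
      _ = _ := (setLIntegral_congr_fun measurableSet_Ioo fun r hr => hpt r hr).symm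
  by_contra hne
  obtain ⟨n, hn⟩ := ENNReal.exists_nat_gt hne
  exact absurd (hlow n) (not_le.2 hn)

end Pool.Agent.TH305.LW
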