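import Pool.Agent.TH305.LW.Gauge
import Pool.Agent.W221.NS.Fin3

/-!
From the weighted count to the integral of the packing number (helper305).
-/

set_option autoImplicit false

open MeasureTheory Set Metric Filter Topology
open scoped ENNReal NNReal

namespace Pool.Agent.TH305.LW

/-- The weighted count at one scale. -/
def WC (Z : Set (Fin 3 → ℝ)) (D : ℝ → ℝ≥0∞) (ν C T r : ℝ) : Prop :=
  ∫⁻ t in Ioo (T - 256 * r ^ 2 / ν) T, D t ≠ ⊤ → ∀ S : Finset (Fin 3 → ℝ), (∀ x ∈ S, x ∈ Z) →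
    (∀ x ∈ S, ∀ y ∈ S, x ≠ y → r ≤ ‖x - y‖) →
      ENNReal.ofReal (S.card * r) ≤ ENNReal.ofReal (C / ν) *
        ∫⁻ t in Ioo (T - 256 * r ^ 2 / ν) T,
          ENNReal.ofReal ((ν * (T - t) / r ^ 2) ^ (1 / 1152 : ℝ)) * D t

lemma two56 : (256 : ℝ) ^ (1 / 1152 : ℝ) ≤ 2 := by
  have h1 : ((2 : ℝ) ^ (1152 : ℕ)) ^ (1 / 1152 : ℝ) = 2 := by
    have h2 := Real.pow_rpow_inv_natCast (show (0 : ℝ) ≤ 2 by norm_num)
      (show (1152 : ℕ) ≠ 0 by norm_num)
    rw [one_div]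
    exact_mod_cast h2
  calc (256 : ℝ) ^ (1 / 1152 : ℝ) ≤ ((2 : ℝ) ^ (1152 : ℕ)) ^ (1 / 1152 : ℝ) := by
        apply Real.rpow_le_rpow (by norm_num) _ (by norm_num)
        calc (256 : ℝ) = 2 ^ 8 := by norm_num
          _ ≤ 2 ^ 1152 := pow_le_pow_right₀ (by norm_num) (by norm_num)
    _ = 2 := h1

lemma wt_int {a : ℝ} (ha : 0 < a) :
    ∫⁻ r in Ioi a, ENNReal.ofReal (r⁻¹ * (256 * a ^ 2 / r ^ 2) ^ (1 / 1152 : ℝ)) ≤ 1152 := by
  have h1 : ∀ r ∈ Ioi a, r⁻¹ * (256 * a ^ 2 / r ^ 2) ^ (1 / 1152 : ℝ)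
      = (256 : ℝ) ^ (1 / 1152 : ℝ) * a ^ (1 / 576 : ℝ) * r ^ (-577 / 576 : ℝ) := by
    intro r hr
    have hr0 : 0 < r := ha.trans hr
    have e1 : (a ^ 2) ^ (1 / 1152 : ℝ) = a ^ (1 / 576 : ℝ) := by
      rw [← Real.rpow_natCast a 2, ← Real.rpow_mul ha.le]
      norm_num
    have e2 : (r ^ 2) ^ (1 / 1152 : ℝ) = r ^ (1 / 576 : ℝ) := by
      rw [← Real.rpow_natCast r 2, ← Real.rpow_mul hr0.le]
      norm_num
    have e3 : r ^ (-577 / 576 : ℝ) = r⁻¹ * (r ^ (1 / 576 : ℝ))⁻¹ := by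
      rw [← Real.rpow_neg_one r, ← Real.rpow_neg hr0.le, ← Real.rpow_add hr0]
      norm_num
    rw [Real.div_rpow (by positivity) (by positivity), Real.mul_rpow (by norm_num) (by positivity),
      e1, e2, e3]
    field_simp
  have h2 := integral_Ioi_rpow_of_lt (a := -577 / 576) (by norm_num) ha
  have h3 := integrableOn_Ioi_rpow_of_lt (a := -577 / 576) (by norm_num) ha
  have e0 : (-577 / 576 : ℝ) + 1 = -(1 / 576) := by norm_num
  rw [e0] at h2
  have h4 : ∫⁻ r in Ioi a, ENNReal.ofReal (r⁻¹ * (256 * a ^ 2 / r ^ 2) ^ (1 / 1152 : ℝ))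
      = ENNReal.ofReal (∫ r in Ioi a, (256 : ℝ) ^ (1 / 1152 : ℝ) * a ^ (1 / 576 : ℝ) *
        r ^ (-577 / 576 : ℝ)) := by
    rw [ofReal_integral_eq_lintegral_ofReal (h3.const_mul _)]
    · apply setLIntegral_congr_fun measurableSet_Ioi
      intro r hr
      simp only [h1 r hr]
    · filter_upwards [ae_restrict_mem measurableSet_Ioi] with r hr
      have : 0 < r := ha.trans hr
      show (0 : ℝ) ≤ (256 : ℝ) ^ (1 / 1152 : ℝ) * a ^ (1 / 576 : ℝ) * r ^ (-577 / 576 : ℝ)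
      positivity
  rw [h4, integral_const_mul, h2]
  have h5 : (256 : ℝ) ^ (1 / 1152 : ℝ) * a ^ (1 / 576 : ℝ) *
      (-a ^ (-(1 / 576) : ℝ) / -(1 / 576)) = 576 * (256 : ℝ) ^ (1 / 1152 : ℝ) := by
    have h6 : a ^ (1 / 576 : ℝ) * a ^ (-(1 / 576) : ℝ) = 1 := by
      rw [← Real.rpow_add ha]
      norm_num
    calc (256 : ℝ) ^ (1 / 1152 : ℝ) * a ^ (1 / 576 : ℝ) * (-a ^ (-(1 / 576) : ℝ) / -(1 / 576))
        = 576 * (256 : ℝ) ^ (1 / 1152 : ℝ) * (a ^ (1 / 576 : ℝ) * a ^ (-(1 / 576) : ℝ)) := by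
          ring
      _ = _ := by rw [h6, mul_one]
  rw [h5]
  calc ENNReal.ofReal (576 * (256 : ℝ) ^ (1 / 1152 : ℝ)) ≤ ENNReal.ofReal 1152 := by
        apply ENNReal.ofReal_le_ofReal
        linarith [two56]
    _ = 1152 := by norm_num

/-- The integral of the packing number is bounded by the dissipation. -/
theorem NN_total {Z : Set (Fin 3 → ℝ)} {D : ℝ → ℝ≥0∞} {ν C T r₀ : ℝ} (hν : 0 < ν) (hC : 0 < C)
    (hD : AEMeasurable D (volume.restrict (Ioo (T - 256 * r₀ ^ 2 / ν) T)))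
    (H : ∀ r : ℝ, 0 < r → r < r₀ → WC Z D ν C T r) :
    ∫⁻ ρ in Ioo 0 r₀, NN Z ρ ≤ ENNReal.ofReal (1152 * C / ν) *
      ∫⁻ t in Ioo (T - 256 * r₀ ^ 2 / ν) T, D t := by
  rcases eq_or_ne (∫⁻ t in Ioo (T - 256 * r₀ ^ 2 / ν) T, D t) ⊤ with htop | hfin
  · rw [htop, ENNReal.mul_top (by rw [ENNReal.ofReal_ne_zero_iff]; positivity)]
    exact le_top
  obtain ⟨W, hW⟩ : ∃ W, W = Ioo (T - 256 * r₀ ^ 2 / ν) T := ⟨_, rfl⟩
  rw [← hW] at hD hfin ⊢
  obtain ⟨D0, hD0m, hD0⟩ := hD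
  have hWr : ∀ r, 0 < r → r < r₀ → Ioo (T - 256 * r ^ 2 / ν) T ⊆ W := by
    intro r hr hrr
    rw [hW]
    apply Ioo_subset_Ioo_left
    have h1 : r ^ 2 ≤ r₀ ^ 2 := pow_le_pow_left₀ hr.le hrr.le 2
    have h2 : 256 * r ^ 2 / ν ≤ 256 * r₀ ^ 2 / ν := by gcongr
    linarith
  -- the integrand
  obtain ⟨G, hG⟩ : ∃ G : ℝ → ℝ → ℝ≥0∞, G = fun r t =>
      {w : ℝ × ℝ | T - 256 * w.1 ^ 2 / ν < w.2}.indicator
        (fun w => ENNReal.ofReal (w.1⁻¹ * (ν * (T - w.2) / w.1 ^ 2) ^ (1 / 1152 : ℝ))) (r, t)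
        * D0 t := ⟨_, rfl⟩
  have hGm : Measurable (Function.uncurry G) := by
    rw [hG]
    show Measurable fun w : ℝ × ℝ => {w : ℝ × ℝ | T - 256 * w.1 ^ 2 / ν < w.2}.indicator
        (fun w => ENNReal.ofReal (w.1⁻¹ * (ν * (T - w.2) / w.1 ^ 2) ^ (1 / 1152 : ℝ))) w
        * D0 w.2
    apply Measurable.mul
    · apply Measurable.indicator
      · fun_prop
      · apply IsOpen.measurableSet
        apply isOpen_lt <;> fun_prop
    · exact hD0m.comp measurable_snd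
  have h1 : ∀ r ∈ Ioo 0 r₀, NN Z r ≤ ENNReal.ofReal (C / ν) * ∫⁻ t in W, G r t := by
    intro r hr
    have hr0 : 0 < r := hr.1
    have hsub := hWr r hr.1 hr.2
    have hf : ∫⁻ t in Ioo (T - 256 * r ^ 2 / ν) T, D t ≠ ⊤ :=
      ne_top_of_le_ne_top hfin (lintegral_mono_set hsub)
    have h2 : ∫⁻ t in Ioo (T - 256 * r ^ 2 / ν) T,
        ENNReal.ofReal r⁻¹ * (ENNReal.ofReal ((ν * (T - t) / r ^ 2) ^ (1 / 1152 : ℝ)) * D t)
        ≤ ∫⁻ t in W, G r t := by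
      calc ∫⁻ t in Ioo (T - 256 * r ^ 2 / ν) T,
            ENNReal.ofReal r⁻¹ * (ENNReal.ofReal ((ν * (T - t) / r ^ 2) ^ (1 / 1152 : ℝ)) * D t)
          = ∫⁻ t in Ioo (T - 256 * r ^ 2 / ν) T,
            ENNReal.ofReal r⁻¹ * (ENNReal.ofReal ((ν * (T - t) / r ^ 2) ^ (1 / 1152 : ℝ)) *
              D0 t) := by
            apply lintegral_congr_ae
            have h3 := ae_restrict_of_ae_restrict_of_subset hsub hD0
            filter_upwards [h3] with t ht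
            rw [ht]
        _ = ∫⁻ t in Ioo (T - 256 * r ^ 2 / ν) T, G r t := by
            apply setLIntegral_congr_fun measurableSet_Ioo
            intro t ht
            have hm : (r, t) ∈ {w : ℝ × ℝ | T - 256 * w.1 ^ 2 / ν < w.2} := ht.1
            simp only [hG]
            rw [indicator_of_mem hm, ← mul_assoc, ← ENNReal.ofReal_mul (by positivity)]
        _ ≤ _ := lintegral_mono_set hsub
    apply NN_le
    intro S hS hsep
    have key := H r hr.1 hr.2 hf S hS hsep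
    calc (S.card : ℝ≥0∞) = ENNReal.ofReal r⁻¹ * ENNReal.ofReal (S.card * r) := by
          rw [← ENNReal.ofReal_mul (by positivity), ← ENNReal.ofReal_natCast]
          congr 1
          field_simp
      _ ≤ ENNReal.ofReal r⁻¹ * (ENNReal.ofReal (C / ν) *
          ∫⁻ t in Ioo (T - 256 * r ^ 2 / ν) T,
            ENNReal.ofReal ((ν * (T - t) / r ^ 2) ^ (1 / 1152 : ℝ)) * D t) := by gcongr
      _ = ENNReal.ofReal (C / ν) * ∫⁻ t in Ioo (T - 256 * r ^ 2 / ν) T,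
          ENNReal.ofReal r⁻¹ * (ENNReal.ofReal ((ν * (T - t) / r ^ 2) ^ (1 / 1152 : ℝ)) *
            D t) := by
          rw [lintegral_const_mul' _ _ ENNReal.ofReal_ne_top, mul_left_comm]
      _ ≤ _ := by gcongr
  have h3 : ∀ t ∈ W, ∫⁻ r in Ioo 0 r₀, G r t ≤ 1152 * D0 t := by
    intro t ht
    rw [hW] at ht
    have hTt : 0 < T - t := by linarith [ht.2]
    obtain ⟨a, ha⟩ : ∃ a, a = √(ν * (T - t) / 256) := ⟨_, rfl⟩
    have ha0 : 0 < a := by rw [ha]; exact Real.sqrt_pos.2 (by positivity)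
    have ha2 : 256 * a ^ 2 = ν * (T - t) := by
      rw [ha, Real.sq_sqrt (by positivity)]
      ring
    have h4 : ∫⁻ r in Ioo 0 r₀, {w : ℝ × ℝ | T - 256 * w.1 ^ 2 / ν < w.2}.indicator
        (fun w => ENNReal.ofReal (w.1⁻¹ * (ν * (T - w.2) / w.1 ^ 2) ^ (1 / 1152 : ℝ))) (r, t)
        ≤ ∫⁻ r, (Ioi a).indicator
          (fun r => ENNReal.ofReal (r⁻¹ * (256 * a ^ 2 / r ^ 2) ^ (1 / 1152 : ℝ))) r := by
      refine le_trans ?_ (setLIntegral_le_lintegral (Ioo 0 r₀) _)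
      apply setLIntegral_mono' measurableSet_Ioo
      intro r hr
      by_cases hm : T - 256 * r ^ 2 / ν < t
      · have har : a < r := by
          have h5 : ν * (T - t) < 256 * r ^ 2 := by
            have h6 : T - t < 256 * r ^ 2 / ν := by linarith
            rw [lt_div_iff₀ hν] at h6
            linarith
          have h7 : a ^ 2 < r ^ 2 := by linarith
          exact lt_of_pow_lt_pow_left₀ 2 hr.1.le h7
        rw [indicator_of_mem (show (r, t) ∈ {w : ℝ × ℝ | T - 256 * w.1 ^ 2 / ν < w.2} from hm),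
          indicator_of_mem (show r ∈ Ioi a from har), ha2]
      · rw [indicator_of_notMem
          (show (r, t) ∉ {w : ℝ × ℝ | T - 256 * w.1 ^ 2 / ν < w.2} from hm)]
        exact bot_le
    rw [lintegral_indicator measurableSet_Ioi] at h4
    have h5 := h4.trans (wt_int ha0)
    have h6 : Measurable fun r : ℝ => {w : ℝ × ℝ | T - 256 * w.1 ^ 2 / ν < w.2}.indicator
        (fun w => ENNReal.ofReal (w.1⁻¹ * (ν * (T - w.2) / w.1 ^ 2) ^ (1 / 1152 : ℝ))) (r, t) := by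
      have : Measurable ({w : ℝ × ℝ | T - 256 * w.1 ^ 2 / ν < w.2}.indicator
        (fun w : ℝ × ℝ => ENNReal.ofReal
          (w.1⁻¹ * (ν * (T - w.2) / w.1 ^ 2) ^ (1 / 1152 : ℝ)))) := by
        apply Measurable.indicator
        · fun_prop
        · apply IsOpen.measurableSet
          apply isOpen_lt <;> fun_prop
      exact this.comp (by fun_prop : Measurable fun r : ℝ => (r, t))
    simp only [hG]
    rw [lintegral_mul_const _ h6]
    gcongr
  calc ∫⁻ ρ in Ioo 0 r₀, NN Z ρ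
      ≤ ∫⁻ r in Ioo 0 r₀, ENNReal.ofReal (C / ν) * ∫⁻ t in W, G r t :=
        setLIntegral_mono' measurableSet_Ioo h1
    _ = ENNReal.ofReal (C / ν) * ∫⁻ r in Ioo 0 r₀, ∫⁻ t in W, G r t :=
        lintegral_const_mul' _ _ ENNReal.ofReal_ne_top
    _ = ENNReal.ofReal (C / ν) * ∫⁻ t in W, ∫⁻ r in Ioo 0 r₀, G r t := by
        rw [lintegral_lintegral_swap hGm.aemeasurable]
    _ ≤ ENNReal.ofReal (C / ν) * ∫⁻ t in W, 1152 * D0 t := by
        have hWm : MeasurableSet W := by rw [hW]; exact measurableSet_Ioo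
        exact mul_le_mul_right (setLIntegral_mono' hWm h3) _
    _ = ENNReal.ofReal (C / ν) * (1152 * ∫⁻ t in W, D t) := by
        rw [lintegral_const_mul _ hD0m, lintegral_congr_ae hD0]
    _ = _ := by
        rw [← mul_assoc]
        congr 1
        have : (1152 : ℝ≥0∞) = ENNReal.ofReal 1152 := by norm_num
        rw [this, ← ENNReal.ofReal_mul (by positivity)]
        congr 1
        ring

/-- Passing to the number of singular points. -/
theorem number4 {ν C M : ℝ} (hν : 0 < ν) (hC : 0 < C) (hM0 : 0 ≤ M) (T : ℝ)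
    (Z : Set (Fin 3 → ℝ)) (D : ℝ → ℝ≥0∞) {r₀ : ℝ} (hr₀ : 0 < r₀) (S : Finset (Fin 3 → ℝ))
    (hS : ∀ x ∈ S, x ∈ Z) (H : ∀ r : ℝ, 0 < r → r < r₀ → WC Z D ν C T r)
    (hfin : ∀ᶠ h in 𝓝[>] (0 : ℝ), ∫⁻ τ in Ioo (T - h) T, D τ ≠ ⊤)
    (hfr : ∃ᶠ h in 𝓝[>] (0 : ℝ), ∫⁻ τ in Ioo (T - h) T,
      ENNReal.ofReal (((T - τ) / h) ^ (1 / 1152 : ℝ)) * D τ ≤ ENNReal.ofReal (M * √h)) :
    (S.card : ℝ) ≤ 32 * C * M / (ν * √ν) := by
  obtain ⟨r₁, hr₁, hsep⟩ := W221.NS.fin_sep S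
  have hs : 0 < √ν := Real.sqrt_pos.2 hν
  have hev : ∀ᶠ h in 𝓝[>] (0 : ℝ), 0 < h ∧ √(ν * h / 256) < min r₀ r₁ := by
    have h1 : Tendsto (fun h : ℝ => √(ν * h / 256)) (𝓝[>] 0) (𝓝 0) := by
      have : Tendsto (fun h : ℝ => √(ν * h / 256)) (𝓝 0) (𝓝 (√(ν * 0 / 256))) := by
        apply Continuous.tendsto
        fun_prop
      rw [mul_zero, zero_div, Real.sqrt_zero] at this
      exact this.mono_left nhdsWithin_le_nhds
    filter_upwards [h1.eventually (gt_mem_nhds (lt_min hr₀ hr₁)), self_mem_nhdsWithin] with h h2 h3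
    exact ⟨h3, h2⟩
  obtain ⟨h, hh1, ⟨hh0, hh2⟩, hh3⟩ := (hfr.and_eventually (hev.and hfin)).exists
  obtain ⟨r, hr⟩ : ∃ r, r = √(ν * h / 256) := ⟨_, rfl⟩
  rw [← hr] at hh2
  have hrpos : 0 < r := by rw [hr]; exact Real.sqrt_pos.2 (by positivity)
  have hr2 : r ^ 2 = ν * h / 256 := by rw [hr]; exact Real.sq_sqrt (by positivity)
  have e : 256 * r ^ 2 / ν = h := by
    rw [hr2]
    field_simp
  have key := H r hrpos (hh2.trans_le (min_le_left _ _)) (by rw [e]; exact hh3) S hS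
    fun x hx y hy hxy => (hh2.le.trans (min_le_right _ _)).trans (hsep x hx y hy hxy)
  rw [e] at key
  have h3 : ∫⁻ t in Ioo (T - h) T, ENNReal.ofReal ((ν * (T - t) / r ^ 2) ^ (1 / 1152 : ℝ)) * D t
      ≤ ENNReal.ofReal 2 * ENNReal.ofReal (M * √h) := by
    refine le_trans ?_ (mul_le_mul_right hh1 _)
    rw [← lintegral_const_mul' _ _ ENNReal.ofReal_ne_top]
    apply setLIntegral_mono' measurableSet_Ioo
    intro t ht
    rw [← mul_assoc, ← ENNReal.ofReal_mul (by norm_num)]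
    gcongr
    have e2 : ν * (T - t) / r ^ 2 = 256 * ((T - t) / h) := by
      rw [hr2]
      field_simp
    rw [e2, Real.mul_rpow (by norm_num) (div_nonneg (by linarith [ht.2]) hh0.le)]
    apply mul_le_mul_of_nonneg_right two56
    exact Real.rpow_nonneg (div_nonneg (by linarith [ht.2]) hh0.le) _
  have h2 := key.trans (mul_le_mul_right h3 _)
  rw [← ENNReal.ofReal_mul (by norm_num), ← ENNReal.ofReal_mul (by positivity),
    ENNReal.ofReal_le_ofReal_iff (by positivity)] at h2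
  have h4 : √h = 16 * r / √ν := by
    have h5 : h = (16 * r) ^ 2 / ν := by
      rw [mul_pow, hr2]
      field_simp
      norm_num
    have h6 : √h = √((16 * r) ^ 2 / ν) := by rw [← h5]
    rw [h6, Real.sqrt_div (by positivity), Real.sqrt_sq (by positivity)]
  rw [h4] at h2
  have h6 : C / ν * (2 * (M * (16 * r / √ν))) = 32 * C * M / (ν * √ν) * r := by
    field_simp
    ring
  exact le_of_mul_le_mul_right (h2.trans h6.le) hrpos

end Pool.Agent.TH305.LW
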