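import Pool.Agent.TH305.LW.All4
import Pool.Agent.TH305.LW.Ton

/-!
Late window lemma (helper305): assembly.
-/

set_option autoImplicit false

open MeasureTheory Set Metric Filter Topology
open scoped ContDiff ENNReal NNReal

namespace Pool.Agent.TH305.LW

open H459R3.NS W221.NS W221.NS.B

/-! ### Measurability of the dissipation -/

section
variable {T : ℝ} {Ω : Set V}

lemma pd_eq_on {g : ℝ → V → ℝ} (hΩ : IsOpen Ω)
    (hg : ContDiffOn ℝ ∞ (fun z : ℝ × V => g z.1 z.2) (Ioo 0 T ×ˢ Ω)) (j : Fin 3)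
    {z : ℝ × V} (hz : z ∈ Ioo 0 T ×ˢ Ω) :
    pd j (g z.1) z.2 = fderiv ℝ (fun w : ℝ × V => g w.1 w.2) z (0, Pi.single j 1) := by
  have h1 : DifferentiableAt ℝ (fun w : ℝ × V => g w.1 w.2) z :=
    (hg.differentiableOn (by simp)).differentiableAt ((isOpen_Ioo.prod hΩ).mem_nhds hz)
  have h2 : HasFDerivAt (fun y : V => (z.1, y)) (ContinuousLinearMap.inr ℝ ℝ V) z.2 :=
    hasFDerivAt_prodMk_right z.1 z.2
  have h3 : HasFDerivAt (fun y : V => g z.1 y)
      ((fderiv ℝ (fun w : ℝ × V => g w.1 w.2) z).comp (ContinuousLinearMap.inr ℝ ℝ V)) z.2 :=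
    HasFDerivAt.comp (g := fun w : ℝ × V => g w.1 w.2) z.2 h1.hasFDerivAt h2
  have h4 : fderiv ℝ (g z.1) z.2 =
      (fderiv ℝ (fun w : ℝ × V => g w.1 w.2) z).comp (ContinuousLinearMap.inr ℝ ℝ V) := h3.fderiv
  unfold pd
  rw [h4]
  rfl

lemma gsq_cont_on {v : ℝ → V → V} (hΩ : IsOpen Ω)
    (hv : ContDiffOn ℝ ∞ (fun z : ℝ × V => v z.1 z.2) (Ioo 0 T ×ˢ Ω)) :
    ContinuousOn (fun z : ℝ × V => gsq (v z.1) z.2) (Ioo 0 T ×ˢ Ω) := by
  unfold gsq
  refine continuousOn_finsetSum _ fun i _ => continuousOn_finsetSum _ fun j _ => ?_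
  have hi : ContDiffOn ℝ ∞ (fun z : ℝ × V => v z.1 z.2 i) (Ioo 0 T ×ˢ Ω) :=
    (contDiff_apply (𝕜 := ℝ) (E := ℝ) (n := ∞) i).comp_contDiffOn hv
  have h1 : ContinuousOn
      (fun z : ℝ × V => fderiv ℝ (fun w : ℝ × V => v w.1 w.2 i) z (0, Pi.single j 1))
      (Ioo 0 T ×ˢ Ω) :=
    (hi.continuousOn_fderiv_of_isOpen (isOpen_Ioo.prod hΩ) (by simp)).clm_apply continuousOn_const
  have h2 : ContinuousOn (fun z : ℝ × V => pd j (fun y => v z.1 y i) z.2) (Ioo 0 T ×ˢ Ω) :=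
    h1.congr fun z hz => pd_eq_on (g := fun t y => v t y i) hΩ hi j hz
  exact h2.pow 2

lemma D_meas {v : ℝ → V → V} (hΩ : IsOpen Ω)
    (hv : ContDiffOn ℝ ∞ (fun z : ℝ × V => v z.1 z.2) (Ioo 0 T ×ˢ Ω)) :
    AEMeasurable (fun t => ∫⁻ y in Ω, ENNReal.ofReal (gsq (v t) y))
      (volume.restrict (Ioo 0 T)) := by
  have hS : MeasurableSet (Ioo 0 T ×ˢ Ω) := measurableSet_Ioo.prod hΩ.measurableSet
  have hG := W919.MH.MARK3.measurable_indicator hS (gsq_cont_on hΩ hv)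
  have hPhi : Measurable (fun τ : ℝ => ∫⁻ y, (Ioo 0 T ×ˢ Ω).indicator
      (fun z : ℝ × V => ENNReal.ofReal (gsq (v z.1) z.2)) (τ, y)) :=
    Measurable.lintegral_prod_right' hG
  refine ⟨_, hPhi, ?_⟩
  filter_upwards [ae_restrict_mem measurableSet_Ioo] with τ hτ
  show ∫⁻ y in Ω, ENNReal.ofReal (gsq (v τ) y) = _
  rw [← lintegral_indicator hΩ.measurableSet]
  congr 1
  funext y
  by_cases hy : y ∈ Ω
  · rw [indicator_of_mem hy, indicator_of_mem (show (τ, y) ∈ Ioo 0 T ×ˢ Ω from ⟨hτ, hy⟩)]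
  · rw [indicator_of_notMem hy,
      indicator_of_notMem (show (τ, y) ∉ Ioo 0 T ×ˢ Ω from fun h => hy h.2)]

end

/-! ### Conclusions from the weighted count -/

theorem concl {Z : Set V} {D : ℝ → ℝ≥0∞} {ν C T r₀ : ℝ} (hν : 0 < ν) (hC : 0 < C) (hT : 0 < T)
    (hr₀ : 0 < r₀) (hD : AEMeasurable D (volume.restrict (Ioo 0 T)))
    (hfin : ∫⁻ t in Ioo 0 T, D t ≠ ⊤) (H : ∀ r : ℝ, 0 < r → r < r₀ → WC Z D ν C T r) :
    (∃ r₁ : ℝ, 0 < r₁ ∧ ∀ r : ℝ, 0 < r → r < r₁ → 256 * r ^ 2 / ν < T ∧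
      (∀ S : Finset V, (∀ x ∈ S, x ∈ Z) → (∀ x ∈ S, ∀ y ∈ S, x ≠ y → r ≤ ‖x - y‖) →
        ENNReal.ofReal (S.card * r) ≤ ENNReal.ofReal (C / ν) *
          ∫⁻ t in Ioo (T - 256 * r ^ 2 / ν) T,
            ENNReal.ofReal ((ν * (T - t) / r ^ 2) ^ (1 / 1152 : ℝ)) * D t) ∧
      ∫⁻ x in thickening r Z, (infEDist x Z ^ 2)⁻¹ ≤ ENNReal.ofReal (221184 * C / ν) *
        ∫⁻ t in Ioo (T - 256 * r ^ 2 / ν) T, D t) ∧
    ∀ h : ℝ≥0∞ → ℝ≥0∞, Monotone h → ∫⁻ r in Ioo (0 : ℝ) 1, (h (ENNReal.ofReal r))⁻¹ = ⊤ →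
      Measure.mkMetric h Z = 0 := by
  have c3 : ∀ᶠ r : ℝ in 𝓝 0, 256 * r ^ 2 / ν < T := by
    have : Continuous fun r : ℝ => 256 * r ^ 2 / ν := by fun_prop
    have := this.tendsto 0
    simp only [ne_eq, OfNat.ofNat_ne_zero, not_false_eq_true, zero_pow, mul_zero,
      zero_div] at this
    exact this.eventually (gt_mem_nhds hT)
  obtain ⟨ρ, hρ, h3⟩ := Metric.eventually_nhds_iff.1 c3
  have h3' : ∀ r : ℝ, 0 < r → r < ρ → 256 * r ^ 2 / ν < T := fun r hr hrr =>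
    h3 (show dist r 0 < ρ by rw [Real.dist_eq, sub_zero, abs_of_pos hr]; exact hrr)
  have hsub : ∀ r : ℝ, 0 < r → r < ρ → Ioo (T - 256 * r ^ 2 / ν) T ⊆ Ioo 0 T := fun r hr hrr =>
    Ioo_subset_Ioo_left (by linarith [h3' r hr hrr])
  have htot : ∀ r : ℝ, 0 < r → r < min r₀ ρ → ∫⁻ ρ in Ioo 0 r, NN Z ρ ≤
      ENNReal.ofReal (1152 * C / ν) * ∫⁻ t in Ioo (T - 256 * r ^ 2 / ν) T, D t := by
    intro r hr hrr
    apply NN_total hν hC
      (hD.mono_measure (Measure.restrict_mono (hsub r hr (hrr.trans_le (min_le_right _ _))) le_rfl))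
    intro r' hr' hrr'
    exact H r' hr' (hrr'.trans (hrr.trans_le (min_le_left _ _)))
  refine ⟨⟨min r₀ ρ, lt_min hr₀ hρ, fun r hr hrr => ?_⟩, ?_⟩
  · have hs := hsub r hr (hrr.trans_le (min_le_right _ _))
    refine ⟨h3' r hr (hrr.trans_le (min_le_right _ _)), ?_, ?_⟩
    · exact H r hr (hrr.trans_le (min_le_left _ _))
        (ne_top_of_le_ne_top hfin (lintegral_mono_set hs))
    · refine (dist_sq hr).trans ?_
      refine (mul_le_mul_right (htot r hr hrr) _).trans (le_of_eq ?_)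
      rw [← mul_assoc]
      congr 1
      have : (192 : ℝ≥0∞) = ENNReal.ofReal 192 := by norm_num
      rw [this, ← ENNReal.ofReal_mul (by norm_num)]
      congr 1
      ring
  · intro h hmono hdiv
    obtain ⟨r, hr⟩ : ∃ r, r = min r₀ ρ / 2 := ⟨_, rfl⟩
    have hr0 : 0 < r := by rw [hr]; have := lt_min hr₀ hρ; positivity
    have hrr : r < min r₀ ρ := by rw [hr]; exact half_lt_self (lt_min hr₀ hρ)
    refine gauge_zero hr0 ?_ hmono hdiv
    refine ne_top_of_le_ne_top ?_ (htot r hr0 hrr)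
    exact ENNReal.mul_ne_top ENNReal.ofReal_ne_top (ne_top_of_le_ne_top hfin
      (lintegral_mono_set (hsub r hr0 (hrr.trans_le (min_le_right _ _)))))

/-- Tails are finite. -/
lemma tail_fin {D : ℝ → ℝ≥0∞} {T : ℝ} (hT : 0 < T) (hfin : ∫⁻ t in Ioo 0 T, D t ≠ ⊤) :
    ∀ᶠ h in 𝓝[>] (0 : ℝ), ∫⁻ τ in Ioo (T - h) T, D τ ≠ ⊤ := by
  filter_upwards [Ioo_mem_nhdsGT hT] with h hh
  exact ne_top_of_le_ne_top hfin (lintegral_mono_set (Ioo_subset_Ioo_left (by linarith [hh.2])))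

/-- From windows which stay away from the blow-up time to the weighted hypothesis. -/
theorem windows {D : ℝ → ℝ≥0∞} {T M N A : ℝ} (hT : 0 < T) (hfin : ∫⁻ t in Ioo 0 T, D t ≠ ⊤)
    (hM : 0 ≤ M) (hA : 0 ≤ A)
    (P : ∀ M' : ℝ, 0 ≤ M' → (∃ᶠ h in 𝓝[>] (0 : ℝ), ∫⁻ t in Ioo (T - h) T,
      ENNReal.ofReal (((T - t) / h) ^ (1 / 1152 : ℝ)) * D t ≤ ENNReal.ofReal (M' * √h)) →
        N ≤ A * M')
    (hfr : ∃ᶠ h in 𝓝[>] (0 : ℝ), ∫⁻ t in Ioo (T - h) (T - h ^ 577), D t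
      ≤ ENNReal.ofReal (M * √h)) : N ≤ A * M := by
  apply le_of_forall_pos_le_add
  intro ε hε
  obtain ⟨η, hη⟩ : ∃ η, η = ε / (A + 1) := ⟨_, rfl⟩
  have hη0 : 0 < η := by rw [hη]; positivity
  obtain ⟨r₀, hr₀, htail⟩ := tail_lint (c := 1) hT zero_le_one hfin
    (ε := ENNReal.ofReal η) (ENNReal.ofReal_pos.2 hη0)
  have hev : ∀ᶠ h in 𝓝[>] (0 : ℝ), 0 < h ∧ h < 1 ∧ h < r₀ ^ 2 := by
    filter_upwards [Ioo_mem_nhdsGT one_pos, Ioo_mem_nhdsGT (show 0 < r₀ ^ 2 by positivity)]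
      with h h1 h2
    exact ⟨h1.1, h1.2, h2.2⟩
  have key := P (M + η) (by positivity) ?_
  · have h1 : A * η ≤ ε := by
      rw [hη, mul_div_assoc', div_le_iff₀ (by positivity)]
      nlinarith
    calc N ≤ A * (M + η) := key
      _ = A * M + A * η := by ring
      _ ≤ _ := by linarith
  · refine (hfr.and_eventually hev).mono fun h hh => ?_
    obtain ⟨h1, h0, h2, h3⟩ := hh
    have hs0 : 0 < √h := Real.sqrt_pos.2 h0
    have hs2 : √h ^ 2 = h := Real.sq_sqrt h0.le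
    have hsr : √h < r₀ := by
      rw [Real.sqrt_lt' hr₀]
      exact h3
    have htl := (htail (√h) hs0 hsr).2
    rw [one_mul, hs2] at htl
    have hp : h ^ 577 < h := by
      calc h ^ 577 < h ^ 1 := pow_lt_pow_right_of_lt_one₀ h0 h2 (by norm_num)
        _ = h := pow_one h
    have hp0 : 0 < h ^ 577 := by positivity
    have hs : Ioo (T - h) T ⊆ Ioo (T - h) (T - h ^ 577) ∪ Ico (T - h ^ 577) T := by
      intro x hx
      rcases lt_or_ge x (T - h ^ 577) with h' | h'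
      · exact Or.inl ⟨hx.1, h'⟩
      · exact Or.inr ⟨h', hx.2⟩
    have hA1 : ∫⁻ t in Ioo (T - h) (T - h ^ 577),
        ENNReal.ofReal (((T - t) / h) ^ (1 / 1152 : ℝ)) * D t ≤ ENNReal.ofReal (M * √h) := by
      refine le_trans ?_ h1
      apply setLIntegral_mono' measurableSet_Ioo
      intro t ht
      have e : ((T - t) / h) ^ (1 / 1152 : ℝ) ≤ 1 := by
        apply Real.rpow_le_one (div_nonneg (by linarith [ht.2]) h0.le) _ (by norm_num)
        rw [div_le_one h0]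
        linarith [ht.1]
      calc ENNReal.ofReal (((T - t) / h) ^ (1 / 1152 : ℝ)) * D t
          ≤ ENNReal.ofReal 1 * D t := by gcongr
        _ = D t := by rw [ENNReal.ofReal_one, one_mul]
    have hA2 : ∫⁻ t in Ico (T - h ^ 577) T,
        ENNReal.ofReal (((T - t) / h) ^ (1 / 1152 : ℝ)) * D t
        ≤ ENNReal.ofReal (√h) * ENNReal.ofReal η := by
      calc ∫⁻ t in Ico (T - h ^ 577) T, ENNReal.ofReal (((T - t) / h) ^ (1 / 1152 : ℝ)) * D t
          ≤ ∫⁻ t in Ico (T - h ^ 577) T, ENNReal.ofReal (√h) * D t := by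
            apply setLIntegral_mono' measurableSet_Ico
            intro t ht
            gcongr
            have e1 : (T - t) / h ≤ h ^ (576 : ℕ) := by
              have e0 : h ^ 576 * h = h ^ 577 := by rw [← pow_succ]
              rw [div_le_iff₀ h0, e0]
              linarith [ht.1]
            have e2 : ((T - t) / h) ^ (1 / 1152 : ℝ) ≤ (h ^ (576 : ℕ)) ^ (1 / 1152 : ℝ) :=
              Real.rpow_le_rpow (div_nonneg (by linarith [ht.2]) h0.le) e1 (by norm_num)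
            have e3 : (h ^ (576 : ℕ)) ^ (1 / 1152 : ℝ) = √h := by
              rw [← Real.rpow_natCast h 576, ← Real.rpow_mul h0.le, Real.sqrt_eq_rpow]
              norm_num
            rw [← e3]
            exact e2
        _ = ENNReal.ofReal (√h) * ∫⁻ t in Ico (T - h ^ 577) T, D t :=
            lintegral_const_mul' _ _ ENNReal.ofReal_ne_top
        _ ≤ ENNReal.ofReal (√h) * ∫⁻ t in Ioo (T - h) T, D t := by
            apply mul_le_mul_right
            apply lintegral_mono_set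
            intro x hx
            exact ⟨by linarith [hx.1], hx.2⟩
        _ ≤ _ := mul_le_mul_right htl _
    calc ∫⁻ t in Ioo (T - h) T, ENNReal.ofReal (((T - t) / h) ^ (1 / 1152 : ℝ)) * D t
        ≤ (∫⁻ t in Ioo (T - h) (T - h ^ 577),
            ENNReal.ofReal (((T - t) / h) ^ (1 / 1152 : ℝ)) * D t) +
          ∫⁻ t in Ico (T - h ^ 577) T, ENNReal.ofReal (((T - t) / h) ^ (1 / 1152 : ℝ)) * D t :=
          (lintegral_mono_set hs).trans (lintegral_union_le _ _ _)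
      _ ≤ ENNReal.ofReal (M * √h) + ENNReal.ofReal (√h) * ENNReal.ofReal η :=
          add_le_add hA1 hA2
      _ = ENNReal.ofReal ((M + η) * √h) := by
          rw [← ENNReal.ofReal_mul hs0.le, ← ENNReal.ofReal_add (by positivity) (by positivity)]
          congr 1
          ring

end Pool.Agent.TH305.LW
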