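import Pool.Agent.TH305.LW.Mark

/-!
Late window lemma (helper305): boundedness near a label with small dissipation.
-/

set_option autoImplicit false

open MeasureTheory Set Metric Filter
open scoped ContDiff Topology ENNReal

namespace Pool.Agent.TH305.LW

open H459R3.NS W221.NS W221.NS.B

lemma ms_lint {T : ℝ} {u : ℝ → V → V}
    (hu : ContDiffOn ℝ ∞ (fun z : ℝ × V => u z.1 z.2) (Ioo 0 T ×ˢ univ)) {α β : ℝ}
    (hα : 0 < α) (hβ : β < T) {Y : ℝ → V} (hY : ContinuousOn Y (Icc α β)) {ρ : ℝ} (hρ : 0 < ρ)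
    {a b : ℝ} (ha : α ≤ a) (hab : a ≤ b) (hb : b ≤ β) :
    ENNReal.ofReal (ρ * ms u ρ Y a b)
      = ∫⁻ τ in Ioo a b, ∫⁻ y in ball (Y τ) (8 * ρ), ENNReal.ofReal (gsq (u τ) y) := by
  have h1 : ρ * ms u ρ Y a b = ∫ τ in Ioo a b, B2 (Y τ) (8 * ρ) (u τ) := by
    unfold ms
    rw [← mul_assoc, mul_inv_cancel₀ hρ.ne', one_mul, intervalIntegral.integral_of_le hab,
      integral_Ioc_eq_integral_Ioo]
  have h2 : IntegrableOn (fun τ => B2 (Y τ) (8 * ρ) (u τ)) (Ioo a b) := by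
    have h3 := (B2_ii hu hα hβ hY (8 * ρ) ha hab hb).1
    exact h3.mono_set Ioo_subset_Ioc_self
  rw [h1, ofReal_integral_eq_lintegral_ofReal h2
    (Eventually.of_forall fun τ => W612.MD.B2_nonneg _ _ _)]
  apply setLIntegral_congr_fun measurableSet_Ioo
  intro τ hτ
  have hcd : ContDiff ℝ ∞ (u τ) :=
    W382.ME.cd_slice hu ⟨by linarith [hτ.1], by linarith [hτ.2]⟩
  show ENNReal.ofReal (B2 (Y τ) (8 * ρ) (u τ)) = _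
  unfold B2
  exact ofReal_integral_eq_lintegral_ofReal (W382.ME.int_ball (W382.ME.gsq_cont hcd) _ _)
    (Eventually.of_forall fun y => W382.ME.gsq_nonneg _ y)

/-- A smooth solution is bounded near a label with small dissipation. -/
lemma loc_bd {ε' CL CM : ℝ} (hloc : ∀ (F : ℝ) (v : ℝ → V → V) (q : ℝ → V → ℝ),
    0 ≤ F → Loc3 F v q → IntegrableOn (fun t => B2 0 8 (v t)) (Ioo (-1) 0) →
    F + ∫ t in Ioo (-1) 0, B2 0 8 (v t) ≤ ε' → ∀ t ∈ Ioo (-1 / 16 : ℝ) 0,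
      ∀ z ∈ ball (0 : V) (1 / 4), ∀ i, |v t z i| ≤ CL * (1 + √(A2 0 4 (v t))))
    (hCL : 0 < CL) (hCM : 0 < CM) (hmol : MollP CM) {T κ E F : ℝ} {O : Set V} {u : ℝ → V → V}
    {p : ℝ → V → ℝ} (hκ : 0 ≤ κ) (hE : 0 ≤ E) (hF : 0 ≤ F) (hL : LSol3 T κ E F O u p)
    {ρ s α : ℝ} (hρ : 0 < ρ) (hρ1 : ρ ≤ 1) (hα : 0 < α) (hαs : α ≤ s - ρ ^ 2) (hs : s < T)
    {X : ℝ → V → V} (hX : Flow2 (mol ρ u) α s X) {x : V}
    (hO : ∀ t ∈ Ioo (s - ρ ^ 2) s, ball (X t x) (8 * ρ) ⊆ O)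
    (hm : ρ ^ 3 * F + ms u ρ (fun τ => X τ x) (s - ρ ^ 2) s ≤ ε') {δ : ℝ}
    (hδ1 : δ ≤ ρ ^ 2 / 32) (hδ2 : δ ≤ ρ / 16) (hδ3 : CM * E / √(ρ ^ 3) * δ ≤ ρ / 16) {t : ℝ}
    {y : V} (ht1 : s - δ < t) (ht2 : t < s) (hy : y ∈ ball x δ) :
    ‖u t y‖ ≤ CL * (1 + √(2 * ρ ^ 2 * ((ρ ^ 3)⁻¹ * E ^ 2 + 1536 * (CM * E / √(ρ ^ 3)) ^ 2))) / ρ
      + CM * E / √(ρ ^ 3) := by
  obtain ⟨L, hgood⟩ := hmol T κ E F O u p hκ hE hL ρ hρ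
  obtain ⟨M, hMdef⟩ : ∃ M, M = CM * E / √(ρ ^ 3) := ⟨_, rfl⟩
  rw [← hMdef] at hgood hδ3 ⊢
  have hM0 : 0 ≤ M := by rw [hMdef]; positivity
  obtain ⟨Q, hQ⟩ : ∃ Q, Q = CL * (1 + √(2 * ρ ^ 2 * ((ρ ^ 3)⁻¹ * E ^ 2 + 1536 * M ^ 2))) :=
    ⟨_, rfl⟩
  rw [← hQ]
  have hρ2 : 0 < ρ ^ 2 := by positivity
  have hF0 : 0 ≤ ρ ^ 3 * F := by positivity
  have hX' : Flow2 (mol ρ u) (s - ρ ^ 2) s X :=
    { cont := hX.cont.mono (prod_mono (Icc_subset_Icc_left hαs) le_rfl)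
      fin := hX.fin
      ode := fun x t ht => hX.ode x t ⟨hαs.trans_lt ht.1, ht.2⟩
      smooth := fun x => (hX.smooth x).mono (Ioo_subset_Ioo_left hαs) }
  have hMb : ∀ t ∈ Ioo (s - ρ ^ 2) s, ∀ x, ‖mol ρ u t x‖ ≤ M := fun t ht x =>
    hgood.bd t ⟨by linarith [ht.1], ht.2.trans hs⟩ x
  have hL2 := p_frame3 T κ E F O u p hF hL ρ s hρ hρ1 (by linarith) hs (fun τ => X τ x)
    (hX'.smooth x) (fun t ht => hX'.ode x t ht) hO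
  have hInt := frame_int (r := ρ) (s := s) hL.smooth_u hρ hα hαs le_rfl hs
    (Pth.ofFlow hX x).cont
  have hms := ms_eq (r := ρ) (s := s) hL.smooth_u hρ (by linarith) hs (fun τ => X τ x)
  have hl := hloc _ _ _ hF0 hL2 hInt (by rw [hms]; exact hm)
  have htime : ∀ t ∈ Ioo (-1 : ℝ) 0, s + ρ ^ 2 * t ∈ Ioo (s - ρ ^ 2) s := by
    intro t ht
    have a1 : ρ ^ 2 * (-1) < ρ ^ 2 * t := (mul_lt_mul_iff_right₀ hρ2).2 ht.1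
    have a2 : ρ ^ 2 * t < ρ ^ 2 * 0 := (mul_lt_mul_iff_right₀ hρ2).2 ht.2
    constructor <;> linarith
  have hT' : ∀ t ∈ Ioo (-1 : ℝ) 0, s + ρ ^ 2 * t ∈ Ioo 0 T := fun t ht =>
    ⟨by linarith [(htime t ht).1], (htime t ht).2.trans hs⟩
  have hl' : ∀ t ∈ Ioo (-1 / 16 : ℝ) 0, ∀ w ∈ ball (0 : V) (1 / 4), ∀ i,
      |frv ρ s (fun τ => X τ x) u t w i| ≤ Q := by
    intro t ht w hw i
    refine (hl t ht w hw i).trans ?_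
    have ht' : t ∈ Ioo (-1 : ℝ) 0 := ⟨by linarith [ht.1], ht.2⟩
    have hA2 : A2 0 4 (frv ρ s (fun τ => X τ x) u t)
        ≤ 2 * ρ ^ 2 * ((ρ ^ 3)⁻¹ * E ^ 2 + 1536 * M ^ 2) := by
      refine W382.ME.A2_bd (W382.ME.cd_slice hL.smooth_u (hT' t ht')) (hL.en_int _ (hT' t ht'))
        (hL.en _ (hT' t ht')) hρ
        (X (s + ρ ^ 2 * t) x) (fun i => deriv (fun τ => X τ x i) (s + ρ ^ 2 * t)) ?_
      intro i
      have hd : HasDerivAt (fun τ => X τ x i) (mol ρ u (s + ρ ^ 2 * t) (X (s + ρ ^ 2 * t) x) i)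
          (s + ρ ^ 2 * t) := (hasDerivAt_pi.1 (hX'.ode x _ (htime t ht'))) i
      rw [hd.deriv]
      exact (norm_le_pi_norm (mol ρ u _ (X _ x)) i).trans (hMb _ (htime t ht') _)
    rw [hQ]
    gcongr
  exact W382.ME.point (CL := Q) hρ hM0 hX' hMb hδ1 hδ2 hδ3 ht1 ht2 (mem_ball_self (by positivity))
    hy hl'

end Pool.Agent.TH305.LW
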