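import Pool.Agent.W591.MF.MINK

/-!
Separated sets, the inverse square of the distance and Hausdorff measures (helper305).
-/

set_option autoImplicit false

open MeasureTheory Set Metric Filter Topology
open scoped ENNReal

namespace Pool.Agent.TH305.LW

/-- The largest number of points of `Z` with mutual distances at least `r`. -/
noncomputable def NN (Z : Set (Fin 3 → ℝ)) (r : ℝ) : ℝ≥0∞ :=
  ⨆ (S : Finset (Fin 3 → ℝ)) (_ : (∀ x ∈ S, x ∈ Z) ∧
    ∀ x ∈ S, ∀ y ∈ S, x ≠ y → r ≤ ‖x - y‖), (S.card : ℝ≥0∞)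

section
variable {Z : Set (Fin 3 → ℝ)} {r : ℝ}

lemma NN_le {c : ℝ≥0∞} (h : ∀ S : Finset (Fin 3 → ℝ), (∀ x ∈ S, x ∈ Z) →
    (∀ x ∈ S, ∀ y ∈ S, x ≠ y → r ≤ ‖x - y‖) → (S.card : ℝ≥0∞) ≤ c) : NN Z r ≤ c :=
  iSup_le fun S => iSup_le fun hS => h S hS.1 hS.2

lemma NN_ge {S : Finset (Fin 3 → ℝ)} (h1 : ∀ x ∈ S, x ∈ Z)
    (h2 : ∀ x ∈ S, ∀ y ∈ S, x ≠ y → r ≤ ‖x - y‖) : (S.card : ℝ≥0∞) ≤ NN Z r :=
  le_iSup_of_le S (le_iSup_of_le ⟨h1, h2⟩ le_rfl)

lemma NN_anti (Z : Set (Fin 3 → ℝ)) : Antitone (NN Z) := by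
  intro r s h
  apply NN_le
  intro S h1 h2
  exact NN_ge h1 fun x hx y hy hxy => h.trans (h2 x hx y hy hxy)

lemma NN_meas (Z : Set (Fin 3 → ℝ)) : Measurable (NN Z) := (NN_anti Z).measurable

lemma NN_cover (hr : 0 < r) (h : NN Z r ≠ ⊤) : ∃ F : Finset (Fin 3 → ℝ),
    (F.card : ℝ≥0∞) ≤ NN Z r ∧ ∀ x ∈ Z, ∃ y ∈ F, dist x y < r := by
  obtain ⟨F, hF1, hF2⟩ := Pool.Agent.W591.MF.cover (Z := Z) (N := (NN Z r).toReal) hr
    (fun S h1 h2 => by
      have h3 := NN_ge h1 h2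
      have h4 := ENNReal.toReal_mono h h3
      simpa using h4)
  refine ⟨F, ?_, hF2⟩
  rw [← ENNReal.ofReal_toReal h, ← ENNReal.ofReal_natCast]
  exact ENNReal.ofReal_le_ofReal hF1

lemma vol_thick (hr : 0 < r) :
    volume (thickening r Z) ≤ NN Z r * ENNReal.ofReal (64 * r ^ 3) := by
  rcases eq_or_ne (NN Z r) ⊤ with h | h
  · rw [h, ENNReal.top_mul (by rw [ENNReal.ofReal_ne_zero_iff]; positivity)]
    exact le_top
  obtain ⟨F, hF1, hF2⟩ := NN_cover hr h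
  have hsub : thickening r Z ⊆ ⋃ y ∈ F, ball y (2 * r) := by
    intro x hx
    obtain ⟨z, hz, hxz⟩ := mem_thickening_iff.1 hx
    obtain ⟨y, hy, hzy⟩ := hF2 z hz
    rw [mem_iUnion₂]
    refine ⟨y, hy, ?_⟩
    rw [mem_ball]
    calc dist x y ≤ dist x z + dist z y := dist_triangle _ _ _
      _ < 2 * r := by linarith
  calc volume (thickening r Z) ≤ volume (⋃ y ∈ F, ball y (2 * r)) := measure_mono hsub
    _ ≤ ∑ y ∈ F, volume (ball y (2 * r)) := measure_biUnion_finset_le _ _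
    _ = ∑ _y ∈ F, ENNReal.ofReal (64 * r ^ 3) := by
        refine Finset.sum_congr rfl fun y _ => ?_
        rw [Real.volume_pi_ball y (by positivity), Fintype.card_fin]
        congr 1
        ring
    _ = F.card * ENNReal.ofReal (64 * r ^ 3) := by
        rw [Finset.sum_const, nsmul_eq_mul]
    _ ≤ _ := by gcongr

lemma NN_int (hr : 0 < r) : NN Z r * ENNReal.ofReal r ≤ ∫⁻ ρ in Ioo 0 r, NN Z ρ := by
  calc NN Z r * ENNReal.ofReal r = ∫⁻ _ in Ioo 0 r, NN Z r := by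
        rw [setLIntegral_const, Real.volume_Ioo, sub_zero]
    _ ≤ _ := setLIntegral_mono' measurableSet_Ioo fun ρ hρ => NN_anti Z hρ.2.le

/-- The integral of `2 ρ⁻³`. -/
lemma int_cube {a b : ℝ} (ha : 0 < a) (hab : a ≤ b) :
    ENNReal.ofReal ((a ^ 2)⁻¹ - (b ^ 2)⁻¹) = ∫⁻ ρ in Ioo a b, ENNReal.ofReal (2 * (ρ ^ 3)⁻¹) := by
  have h1 : ∫ ρ in a..b, 2 * (ρ ^ 3)⁻¹ = (a ^ 2)⁻¹ - (b ^ 2)⁻¹ := by
    have hd : ∀ x ∈ uIcc a b, HasDerivAt (fun x : ℝ => -(x ^ 2)⁻¹) (2 * (x ^ 3)⁻¹) x := by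
      intro x hx
      rw [uIcc_of_le hab] at hx
      have hx0 : x ≠ 0 := (ha.trans_le hx.1).ne'
      have h2 := ((hasDerivAt_pow 2 x).inv (pow_ne_zero 2 hx0)).neg
      refine h2.congr_deriv ?_
      simp only [Nat.cast_ofNat, Nat.add_one_sub_one, pow_one]
      field_simp
    rw [intervalIntegral.integral_eq_sub_of_hasDerivAt hd]
    · ring
    · apply ContinuousOn.intervalIntegrable
      intro x hx
      rw [uIcc_of_le hab] at hx
      have hx0 : x ≠ 0 := (ha.trans_le hx.1).ne'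
      apply ContinuousAt.continuousWithinAt
      fun_prop (disch := exact pow_ne_zero 3 hx0)
  have h3 : IntegrableOn (fun ρ : ℝ => 2 * (ρ ^ 3)⁻¹) (Ioo a b) := by
    have : IntegrableOn (fun ρ : ℝ => 2 * (ρ ^ 3)⁻¹) (Icc a b) := by
      refine ContinuousOn.integrableOn_compact isCompact_Icc ?_
      intro x hx
      have hx0 : x ≠ 0 := (ha.trans_le hx.1).ne'
      apply ContinuousAt.continuousWithinAt
      fun_prop (disch := exact pow_ne_zero 3 hx0)
    exact this.mono_set Ioo_subset_Icc_self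
  rw [← h1, intervalIntegral.integral_of_le hab, integral_Ioc_eq_integral_Ioo]
  apply ofReal_integral_eq_lintegral_ofReal h3
  filter_upwards [ae_restrict_mem measurableSet_Ioo] with x hx
  have : 0 < x := ha.trans hx.1
  show (0 : ℝ) ≤ 2 * (x ^ 3)⁻¹
  positivity

/-- Layer cake, at one point. -/
lemma layer_pt {d : ℝ≥0∞} (hr : 0 < r) (hd : d < ENNReal.ofReal r) :
    (d ^ 2)⁻¹ ≤ ENNReal.ofReal ((r ^ 2)⁻¹) + ∫⁻ ρ in Ioo 0 r,
      {ρ | d < ENNReal.ofReal ρ}.indicator (fun ρ => ENNReal.ofReal (2 * (ρ ^ 3)⁻¹)) ρ := by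
  have hne : (𝓝[>] d).NeBot := nhdsGT_neBot_of_exists_gt ⟨_, hd⟩
  have hlim : Tendsto (fun a : ℝ≥0∞ => (a ^ 2)⁻¹) (𝓝[>] d) (𝓝 ((d ^ 2)⁻¹)) := by
    have : Continuous (fun a : ℝ≥0∞ => (a ^ 2)⁻¹) := by fun_prop
    exact (this.tendsto d).mono_left nhdsWithin_le_nhds
  refine le_of_tendsto hlim ?_
  filter_upwards [Ioo_mem_nhdsGT hd] with a ha
  have hat : a ≠ ⊤ := (ha.2.trans ENNReal.ofReal_lt_top).ne
  have ha0 : 0 < a := bot_le.trans_lt ha.1
  obtain ⟨b, hb⟩ : ∃ b, b = a.toReal := ⟨_, rfl⟩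
  have hab : a = ENNReal.ofReal b := by rw [hb, ENNReal.ofReal_toReal hat]
  have hb0 : 0 < b := by rw [hb]; exact ENNReal.toReal_pos ha0.ne' hat
  have hbr : b < r := by
    have := ha.2
    rw [hab] at this
    exact (ENNReal.ofReal_lt_ofReal_iff hr).1 this
  have h1 := int_cube hb0 hbr.le
  have h2 : ∫⁻ ρ in Ioo b r, ENNReal.ofReal (2 * (ρ ^ 3)⁻¹) ≤ ∫⁻ ρ in Ioo 0 r,
      {ρ | d < ENNReal.ofReal ρ}.indicator (fun ρ => ENNReal.ofReal (2 * (ρ ^ 3)⁻¹)) ρ := by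
    calc ∫⁻ ρ in Ioo b r, ENNReal.ofReal (2 * (ρ ^ 3)⁻¹)
        = ∫⁻ ρ in Ioo b r,
          {ρ | d < ENNReal.ofReal ρ}.indicator (fun ρ => ENNReal.ofReal (2 * (ρ ^ 3)⁻¹)) ρ := by
          apply setLIntegral_congr_fun measurableSet_Ioo
          intro ρ hρ
          have hm : ρ ∈ {ρ : ℝ | d < ENNReal.ofReal ρ} := by
            show d < ENNReal.ofReal ρ
            refine ha.1.trans ?_
            rw [hab]
            exact (ENNReal.ofReal_lt_ofReal_iff (hb0.trans hρ.1)).2 hρ.1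
          exact (indicator_of_mem hm (fun ρ => ENNReal.ofReal (2 * (ρ ^ 3)⁻¹))).symm
      _ ≤ _ := lintegral_mono_set (Ioo_subset_Ioo_left hb0.le)
  have h3 : (a ^ 2)⁻¹ = ENNReal.ofReal ((b ^ 2)⁻¹) := by
    rw [hab, ← ENNReal.ofReal_pow hb0.le, ENNReal.ofReal_inv_of_pos (by positivity)]
  rw [h3]
  calc ENNReal.ofReal ((b ^ 2)⁻¹)
      = ENNReal.ofReal ((r ^ 2)⁻¹) + ENNReal.ofReal ((b ^ 2)⁻¹ - (r ^ 2)⁻¹) := by
        rw [← ENNReal.ofReal_add (by positivity)]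
        · congr 1
          ring
        · rw [sub_nonneg]
          apply inv_anti₀ (by positivity)
          exact pow_le_pow_left₀ hb0.le hbr.le 2
    _ ≤ _ := by
        gcongr
        rw [h1]
        exact h2

/-- The inverse square of the distance. -/
theorem dist_sq (hr : 0 < r) :
    ∫⁻ x in thickening r Z, (infEDist x Z ^ 2)⁻¹ ≤ 192 * ∫⁻ ρ in Ioo 0 r, NN Z ρ := by
  have hm : Measurable (Function.uncurry fun (x : Fin 3 → ℝ) (ρ : ℝ) =>
      {ρ : ℝ | infEDist x Z < ENNReal.ofReal ρ}.indicator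
        (fun ρ => ENNReal.ofReal (2 * (ρ ^ 3)⁻¹)) ρ) := by
    have h1 : MeasurableSet {w : (Fin 3 → ℝ) × ℝ | infEDist w.1 Z < ENNReal.ofReal w.2} := by
      apply IsOpen.measurableSet
      apply isOpen_lt
      · exact continuous_infEDist.comp continuous_fst
      · exact ENNReal.continuous_ofReal.comp continuous_snd
    have h2 : (Function.uncurry fun (x : Fin 3 → ℝ) (ρ : ℝ) =>
      {ρ : ℝ | infEDist x Z < ENNReal.ofReal ρ}.indicator
        (fun ρ => ENNReal.ofReal (2 * (ρ ^ 3)⁻¹)) ρ)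
        = {w : (Fin 3 → ℝ) × ℝ | infEDist w.1 Z < ENNReal.ofReal w.2}.indicator
          (fun w => ENNReal.ofReal (2 * (w.2 ^ 3)⁻¹)) := by
      funext w
      by_cases hx : infEDist w.1 Z < ENNReal.ofReal w.2
      · rw [indicator_of_mem (show w ∈ {w : (Fin 3 → ℝ) × ℝ |
          infEDist w.1 Z < ENNReal.ofReal w.2} from hx)]
        exact indicator_of_mem (show w.2 ∈ {ρ : ℝ | infEDist w.1 Z < ENNReal.ofReal ρ} from hx)
          (fun ρ : ℝ => ENNReal.ofReal (2 * (ρ ^ 3)⁻¹))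
      · rw [indicator_of_notMem (show w ∉ {w : (Fin 3 → ℝ) × ℝ |
          infEDist w.1 Z < ENNReal.ofReal w.2} from hx)]
        exact indicator_of_notMem
          (show w.2 ∉ {ρ : ℝ | infEDist w.1 Z < ENNReal.ofReal ρ} from hx)
          (fun ρ : ℝ => ENNReal.ofReal (2 * (ρ ^ 3)⁻¹))
    rw [h2]
    apply Measurable.indicator _ h1
    fun_prop
  have hvol : ∀ ρ, 0 < ρ → ∫⁻ x in thickening r Z, {ρ : ℝ | infEDist x Z < ENNReal.ofReal ρ}.indicator
      (fun ρ => ENNReal.ofReal (2 * (ρ ^ 3)⁻¹)) ρ ≤ 128 * NN Z ρ := by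
    intro ρ hρ
    have e1 : ∀ x, {ρ : ℝ | infEDist x Z < ENNReal.ofReal ρ}.indicator
        (fun ρ => ENNReal.ofReal (2 * (ρ ^ 3)⁻¹)) ρ
        = (thickening ρ Z).indicator (fun _ => ENNReal.ofReal (2 * (ρ ^ 3)⁻¹)) x := by
      intro x
      by_cases hx : infEDist x Z < ENNReal.ofReal ρ
      · rw [indicator_of_mem (show ρ ∈ {ρ : ℝ | infEDist x Z < ENNReal.ofReal ρ} from hx),
          indicator_of_mem (show x ∈ thickening ρ Z from hx)]
      · rw [indicator_of_notMem (show ρ ∉ {ρ : ℝ | infEDist x Z < ENNReal.ofReal ρ} from hx),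
          indicator_of_notMem (show x ∉ thickening ρ Z from hx)]
    calc ∫⁻ x in thickening r Z, {ρ : ℝ | infEDist x Z < ENNReal.ofReal ρ}.indicator
          (fun ρ => ENNReal.ofReal (2 * (ρ ^ 3)⁻¹)) ρ
        = ∫⁻ x in thickening r Z,
          (thickening ρ Z).indicator (fun _ => ENNReal.ofReal (2 * (ρ ^ 3)⁻¹)) x := by
          simp only [e1]
      _ ≤ ∫⁻ x, (thickening ρ Z).indicator (fun _ => ENNReal.ofReal (2 * (ρ ^ 3)⁻¹)) x :=
          setLIntegral_le_lintegral _ _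
      _ = ENNReal.ofReal (2 * (ρ ^ 3)⁻¹) * volume (thickening ρ Z) := by
          rw [lintegral_indicator isOpen_thickening.measurableSet, setLIntegral_const]
      _ ≤ ENNReal.ofReal (2 * (ρ ^ 3)⁻¹) * (NN Z ρ * ENNReal.ofReal (64 * ρ ^ 3)) := by
          gcongr
          exact vol_thick hρ
      _ = 128 * NN Z ρ := by
          rw [mul_left_comm, mul_comm, ← ENNReal.ofReal_mul (by positivity)]
          congr 1
          have : 2 * (ρ ^ 3)⁻¹ * (64 * ρ ^ 3) = 128 := by field_simp; norm_num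
          rw [this]
          norm_num
  calc ∫⁻ x in thickening r Z, (infEDist x Z ^ 2)⁻¹
      ≤ ∫⁻ x in thickening r Z, (ENNReal.ofReal ((r ^ 2)⁻¹) + ∫⁻ ρ in Ioo 0 r,
        {ρ : ℝ | infEDist x Z < ENNReal.ofReal ρ}.indicator
          (fun ρ => ENNReal.ofReal (2 * (ρ ^ 3)⁻¹)) ρ) := by
        apply setLIntegral_mono' isOpen_thickening.measurableSet
        intro x hx
        exact layer_pt hr hx
    _ = ENNReal.ofReal ((r ^ 2)⁻¹) * volume (thickening r Z) +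
        ∫⁻ x in thickening r Z, ∫⁻ ρ in Ioo 0 r,
          {ρ : ℝ | infEDist x Z < ENNReal.ofReal ρ}.indicator
            (fun ρ => ENNReal.ofReal (2 * (ρ ^ 3)⁻¹)) ρ := by
        rw [lintegral_add_left measurable_const, setLIntegral_const]
    _ = ENNReal.ofReal ((r ^ 2)⁻¹) * volume (thickening r Z) +
        ∫⁻ ρ in Ioo 0 r, ∫⁻ x in thickening r Z,
          {ρ : ℝ | infEDist x Z < ENNReal.ofReal ρ}.indicator
            (fun ρ => ENNReal.ofReal (2 * (ρ ^ 3)⁻¹)) ρ := by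
        rw [lintegral_lintegral_swap hm.aemeasurable]
    _ ≤ ENNReal.ofReal ((r ^ 2)⁻¹) * (NN Z r * ENNReal.ofReal (64 * r ^ 3)) +
        ∫⁻ ρ in Ioo 0 r, 128 * NN Z ρ := by
        gcongr ?_ + ?_
        · gcongr
          exact vol_thick hr
        · exact setLIntegral_mono' measurableSet_Ioo fun ρ hρ => hvol ρ hρ.1
    _ ≤ 64 * (∫⁻ ρ in Ioo 0 r, NN Z ρ) + 128 * ∫⁻ ρ in Ioo 0 r, NN Z ρ := by
        gcongr ?_ + ?_
        · calc ENNReal.ofReal ((r ^ 2)⁻¹) * (NN Z r * ENNReal.ofReal (64 * r ^ 3))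
              = 64 * (NN Z r * ENNReal.ofReal r) := by
                rw [mul_left_comm, ← ENNReal.ofReal_mul (by positivity)]
                have : (r ^ 2)⁻¹ * (64 * r ^ 3) = 64 * r := by field_simp
                rw [this, ENNReal.ofReal_mul (by norm_num), mul_left_comm]
                norm_num
            _ ≤ _ := by
                gcongr
                exact NN_int hr
        · rw [lintegral_const_mul _ (NN_meas Z)]
    _ = 192 * ∫⁻ ρ in Ioo 0 r, NN Z ρ := by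
        rw [← add_mul]
        norm_num

end

end Pool.Agent.TH305.LW
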