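import Pool.Agent.TH305.LW.Trans
import Pool.Agent.W221.NS.Asm3

/-!
Late window lemma (helper305): all viscosities.
-/

set_option autoImplicit false

open MeasureTheory Set Metric Filter Topology
open scoped ContDiff ENNReal

namespace Pool.Agent.TH305.LW

open H459R3.NS W221.NS W221.NS.B

/-- Scaling of the dissipation. -/
lemma diss_scale4 {ν : ℝ} (hν : 0 < ν) (Ω : Set V) (u : ℝ → V → V) (T r : ℝ) :
    ∫⁻ τ in Ioo (ν * T - 256 * r ^ 2) (ν * T),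
        ∫⁻ y in Ω, ENNReal.ofReal (gsq (fun x => ν⁻¹ • u (τ / ν) x) y)
      = ENNReal.ofReal ν⁻¹ *
        ∫⁻ τ in Ioo (T - 256 * r ^ 2 / ν) T, ∫⁻ y in Ω, ENNReal.ofReal (gsq (u τ) y) := by
  have e1 : ∀ τ, ∫⁻ y in Ω, ENNReal.ofReal (gsq (fun x => ν⁻¹ • u (τ / ν) x) y)
      = ENNReal.ofReal (ν⁻¹ ^ 2) * ∫⁻ y in Ω, ENNReal.ofReal (gsq (u (τ / ν)) y) := by
    intro τ
    rw [← lintegral_const_mul' _ _ ENNReal.ofReal_ne_top]
    refine lintegral_congr fun y => ?_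
    rw [gsq_smul, ENNReal.ofReal_mul (by positivity)]
  simp only [e1]
  rw [lintegral_const_mul' _ _ ENNReal.ofReal_ne_top]
  have ea : ν * T - 256 * r ^ 2 = ν * (T - 256 * r ^ 2 / ν) := by field_simp
  rw [ea, lint_scale hν (fun τ => ∫⁻ y in Ω, ENNReal.ofReal (gsq (u τ) y)), ← mul_assoc,
    ← ENNReal.ofReal_mul (by positivity)]
  congr 2
  field_simp

/-- Scaling of the weighted dissipation. -/
lemma diss_scale5 {ν : ℝ} (hν : 0 < ν) (Ω : Set V) (u : ℝ → V → V) (T r : ℝ) :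
    ∫⁻ τ in Ioo (ν * T - 256 * r ^ 2) (ν * T),
        ENNReal.ofReal (((ν * T - τ) / r ^ 2) ^ (1 / 1152 : ℝ)) *
          ∫⁻ y in Ω, ENNReal.ofReal (gsq (fun x => ν⁻¹ • u (τ / ν) x) y)
      = ENNReal.ofReal ν⁻¹ *
        ∫⁻ τ in Ioo (T - 256 * r ^ 2 / ν) T,
          ENNReal.ofReal ((ν * (T - τ) / r ^ 2) ^ (1 / 1152 : ℝ)) *
            ∫⁻ y in Ω, ENNReal.ofReal (gsq (u τ) y) := by
  have e1 : ∀ τ, ENNReal.ofReal (((ν * T - τ) / r ^ 2) ^ (1 / 1152 : ℝ)) *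
      ∫⁻ y in Ω, ENNReal.ofReal (gsq (fun x => ν⁻¹ • u (τ / ν) x) y)
      = ENNReal.ofReal (ν⁻¹ ^ 2) * (ENNReal.ofReal ((ν * (T - τ / ν) / r ^ 2) ^ (1 / 1152 : ℝ)) *
        ∫⁻ y in Ω, ENNReal.ofReal (gsq (u (τ / ν)) y)) := by
    intro τ
    have e0 : ν * (T - τ / ν) = ν * T - τ := by field_simp
    rw [e0, mul_left_comm]
    congr 1
    rw [← lintegral_const_mul' _ _ ENNReal.ofReal_ne_top]
    refine lintegral_congr fun y => ?_
    rw [gsq_smul, ENNReal.ofReal_mul (by positivity)]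
  simp only [e1]
  rw [lintegral_const_mul' _ _ ENNReal.ofReal_ne_top]
  have ea : ν * T - 256 * r ^ 2 = ν * (T - 256 * r ^ 2 / ν) := by field_simp
  rw [ea, lint_scale hν (fun τ => ENNReal.ofReal ((ν * (T - τ) / r ^ 2) ^ (1 / 1152 : ℝ)) *
    ∫⁻ y in Ω, ENNReal.ofReal (gsq (u τ) y)), ← mul_assoc,
    ← ENNReal.ofReal_mul (by positivity)]
  congr 2
  field_simp

/-- Whole space, all viscosities. -/
theorem whole_all4 : ∃ C : ℝ, 0 < C ∧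
    ∀ (ν T E F : ℝ) (u : ℝ → V → V) (p : ℝ → V → ℝ) (f : ℝ → V → V), 0 < ν → 0 < T →
      OSolF ν T E F univ u p f → ∃ r₀ : ℝ, 0 < r₀ ∧ ∀ r : ℝ, 0 < r → r < r₀ →
      ∫⁻ τ in Ioo (T - 256 * r ^ 2 / ν) T, ∫⁻ y, ENNReal.ofReal (gsq (u τ) y) ≠ ⊤ →
      ∀ S : Finset V, (∀ x ∈ S, Sing T u x) → (∀ x ∈ S, ∀ y ∈ S, x ≠ y → r ≤ ‖x - y‖) →
          ENNReal.ofReal (S.card * r) ≤ ENNReal.ofReal (C / ν) *
            ∫⁻ τ in Ioo (T - 256 * r ^ 2 / ν) T,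
              ENNReal.ofReal ((ν * (T - τ) / r ^ 2) ^ (1 / 1152 : ℝ)) *
                ∫⁻ y, ENNReal.ofReal (gsq (u τ) y) := by
  obtain ⟨C, hC, H⟩ := whole4 count4
  refine ⟨C, hC, ?_⟩
  intro ν T E F u p f hν hT hu
  have c1 : ∀ᶠ r : ℝ in 𝓝 0, C * r < 1 := by
    have : Continuous fun r : ℝ => C * r := by fun_prop
    have := this.tendsto 0
    rw [mul_zero] at this
    exact this.eventually (gt_mem_nhds one_pos)
  have c2 : ∀ᶠ r : ℝ in 𝓝 0, C * (|F| / ν ^ 2) * r ^ 3 < 1 := by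
    have : Continuous fun r : ℝ => C * (|F| / ν ^ 2) * r ^ 3 := by fun_prop
    have := this.tendsto 0
    simp only [ne_eq, OfNat.ofNat_ne_zero, not_false_eq_true, zero_pow, mul_zero] at this
    exact this.eventually (gt_mem_nhds one_pos)
  have c3 : ∀ᶠ r : ℝ in 𝓝 0, 256 * r ^ 2 < ν * T := by
    have : Continuous fun r : ℝ => 256 * r ^ 2 := by fun_prop
    have := this.tendsto 0
    simp only [ne_eq, OfNat.ofNat_ne_zero, not_false_eq_true, zero_pow, mul_zero] at this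
    exact this.eventually (gt_mem_nhds (mul_pos hν hT))
  obtain ⟨ρ, hρ, h⟩ := Metric.eventually_nhds_iff.1 (c1.and (c2.and c3))
  refine ⟨ρ, hρ, fun r hr hrr hfin S hS hsep => ?_⟩
  obtain ⟨a1, a2, a3⟩ := h (show dist r 0 < ρ by
    rw [Real.dist_eq, sub_zero, abs_of_pos hr]; exact hrr)
  have e4 := diss_scale4 hν univ u T r
  have e5 := diss_scale5 hν univ u T r
  simp only [Measure.restrict_univ] at e4 e5
  have key := H (ν * T) (|E| / ν) (|F| / ν ^ 2) _ _ _ (mul_pos hν hT)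
    (div_nonneg (abs_nonneg E) hν.le) (by positivity)
    (p_osc3 ν T |E| |F| univ u p f hν (osolF_abs hu)) r hr a1.le a2.le a3
    (by rw [e4]; exact ENNReal.mul_ne_top ENNReal.ofReal_ne_top hfin) S
    (fun x hx => sing_scale hν (hS x hx)) hsep
  rw [e5, ← mul_assoc, ← ENNReal.ofReal_mul hC.le, ← div_eq_mul_inv] at key
  exact key

/-- Domains, all viscosities. -/
theorem omega_all4 : ∃ C : ℝ, 0 < C ∧
    ∀ (ν T E F : ℝ) (Ω : Set V) (u : ℝ → V → V) (p : ℝ → V → ℝ) (f : ℝ → V → V), 0 < ν → 0 < T →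
      OSolF ν T E F Ω u p f → ∀ K : Set V, IsCompact K → K ⊆ Ω → ∃ r₀ : ℝ, 0 < r₀ ∧
        ∀ r : ℝ, 0 < r → r < r₀ →
        ∫⁻ τ in Ioo (T - 256 * r ^ 2 / ν) T, ∫⁻ y in Ω, ENNReal.ofReal (gsq (u τ) y) ≠ ⊤ →
        ∀ S : Finset V,
        (∀ x ∈ S, x ∈ K ∧ Sing T u x) → (∀ x ∈ S, ∀ y ∈ S, x ≠ y → r ≤ ‖x - y‖) →
          ENNReal.ofReal (S.card * r) ≤ ENNReal.ofReal (C / ν) *
            ∫⁻ τ in Ioo (T - 256 * r ^ 2 / ν) T,
              ENNReal.ofReal ((ν * (T - τ) / r ^ 2) ^ (1 / 1152 : ℝ)) *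
                ∫⁻ y in Ω, ENNReal.ofReal (gsq (u τ) y) := by
  obtain ⟨C, hC, H⟩ := omega4 count4
  refine ⟨C, hC, ?_⟩
  intro ν T E F Ω u p f hν hT hu K hK hKΩ
  obtain ⟨r₀, hr₀, H'⟩ := H (ν * T) (|E| / ν) (|F| / ν ^ 2) Ω _ _ _ (mul_pos hν hT)
    (div_nonneg (abs_nonneg E) hν.le) (by positivity)
    (p_osc3 ν T |E| |F| Ω u p f hν (osolF_abs hu)) K hK hKΩ
  refine ⟨r₀, hr₀, ?_⟩
  intro r hr hrr hfin S hS hsep
  have key := H' r hr hrr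
    (by rw [diss_scale4 hν Ω u T r]; exact ENNReal.mul_ne_top ENNReal.ofReal_ne_top hfin) S
    (fun x hx => ⟨(hS x hx).1, sing_scale hν (hS x hx).2⟩) hsep
  rw [diss_scale5 hν Ω u T r, ← mul_assoc, ← ENNReal.ofReal_mul hC.le, ← div_eq_mul_inv] at key
  exact key

end Pool.Agent.TH305.LW
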