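import Pool.Agent.TH305.LW.Disp2

/-!
Late window lemma (helper305): change of the frame.
-/

set_option autoImplicit false

open MeasureTheory Set Metric Filter Topology
open scoped ContDiff

namespace Pool.Agent.TH305.LW

open H459R3.NS W221.NS W221.NS.B Pool.Agent.W12.MD

section
variable {T : ℝ} {u : ℝ → V → V}

lemma time_abs {r s τ : ℝ} (hr : 0 < r) : s + r ^ 2 * ((τ - s) / r ^ 2) = τ := by
  field_simp
  ring

lemma time_mem {r s τ c : ℝ} (hr : 0 < r) (h : τ ∈ Ioo (s - c * r ^ 2) s) :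
    (τ - s) / r ^ 2 ∈ Ioo (-c) 0 := by
  have hr2 : 0 < r ^ 2 := by positivity
  constructor
  · rw [lt_div_iff₀ hr2]
    linarith [h.1]
  · exact div_neg_of_neg_of_pos (by linarith [h.2]) hr2

lemma frv_abs {r s τ α β : ℝ} {X : ℝ → V} (hr : 0 < r) (hX : Pth r u α β X) (hτ : τ ∈ Ioo α β) :
    frv r s X u ((τ - s) / r ^ 2) = fr r X u τ := by
  have e := time_abs (s := s) (τ := τ) hr
  rw [frv_eq_fr (by rw [e]; exact hX.ode τ hτ), e]

lemma frv_abs' {r s t α β : ℝ} {X : ℝ → V} (hX : Pth r u α β X)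
    (ht : s + r ^ 2 * t ∈ Ioo α β) : frv r s X u t = fr r X u (s + r ^ 2 * t) :=
  frv_eq_fr (hX.ode _ ht)

/-- The information at one time, in absolute time. -/
lemma slice_abs (hu : ContDiffOn ℝ ∞ (fun z : ℝ × V => u z.1 z.2) (Ioo 0 T ×ˢ univ))
    {g : V → ℝ} {C' F r s α β ε : ℝ} {X : ℝ → V} (hr : 0 < r) (hα : 0 < α) (hs : α ≤ s - r ^ 2)
    (hsβ : s ≤ β) (hβ : β < T) (hX : Pth r u α β X)
    (hh : Hyp2 (frv r s X u) (fun t => TT g (frv r s X u t))
      (fun t => C' * (r ^ 3 * F + B2 0 8 (frv r s X u t))) ε) {τ : ℝ} (hτ : τ ∈ Ioo (s - r ^ 2) s) :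
    ∃ (N : V → V) (P : V → ℝ), Slice2 (fr r X u τ) (TT g (fr r X u τ)) N P
      (C' * (r ^ 3 * F + r * B2 (X τ) (8 * r) (u τ))) := by
  have hτα : τ ∈ Ioo α β := ⟨hs.trans_lt hτ.1, hτ.2.trans_le hsβ⟩
  have hτT : τ ∈ Ioo 0 T := ⟨hα.trans hτα.1, hτα.2.trans hβ⟩
  have ht : (τ - s) / r ^ 2 ∈ Ioo (-1 : ℝ) 0 := time_mem hr (by rw [one_mul]; exact hτ)
  obtain ⟨P, hP⟩ := hh.2.2.1 _ ht
  have e := frv_abs (s := s) hr hX hτα
  simp only [e] at hP
  rw [B2_fr hr (W382.ME.cd_slice hu hτT), mul_comm r 8] at hP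
  exact ⟨_, P, hP⟩

/-- Displacement at early times. -/
lemma early_disp (hu : ContDiffOn ℝ ∞ (fun z : ℝ × V => u z.1 z.2) (Ioo 0 T ×ˢ univ))
    {α β r ρ : ℝ} (hα : 0 < α) (hβ : β < T) (hr : 0 < r) (hρ : 0 < ρ) (hρ1 : 40 * ρ ≤ 1)
    {X Y : ℝ → V} (hX : Pth r u α β X) (hY : Pth (ρ * r) u α β Y) {p q B ε : ℝ} {G : ℝ → ℝ}
    (hp : α ≤ p) (hpq : p ≤ q) (hq : q ≤ β) (hB0 : 0 ≤ B) (hG0 : ∀ τ, 0 ≤ G τ)
    (hGi : IntervalIntegrable G volume p q) (hGe : ∫ τ in p..q, G τ ≤ r ^ 2 * ε)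
    (hqp : q - p ≤ ρ ^ 2 * r ^ 2) (hBρ : B * ρ + 2 * ε ≤ 1 / 2)
    (hW : ∀ τ ∈ Ioo p q, ∀ z ∈ ball (0 : V) (1 / 4), ∀ i, |fr r X u τ z i| ≤ B + √(G τ))
    (h1 : ‖(Y q - X q) - (Y β - X β)‖ ≤ r * ρ) (h0 : ‖Y β - X β‖ < r / 8) :
    ∀ τ ∈ Icc p q, ‖(Y τ - X τ) - (Y β - X β)‖ ≤ 2 * (r * ρ) := by
  have hrρ : 0 < r * ρ := by positivity
  have hcont : ContinuousOn (fun τ => ‖(Y τ - X τ) - (Y β - X β)‖) (Icc p q) := by
    have h1 := hY.cont.mono (Icc_subset_Icc hp hq)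
    have h2 := hX.cont.mono (Icc_subset_Icc hp hq)
    exact ((h1.sub h2).sub continuousOn_const).norm
  apply cont_arg (B := 4 * (r * ρ)) hcont (by linarith)
  · intro τ hτ hB
    have hατ : α ≤ τ := hp.trans hτ.1
    have hsubi : Icc τ q ⊆ Icc p q := Icc_subset_Icc_left hτ.1
    have hGi' : IntervalIntegrable G volume τ q := by
      apply hGi.mono_set
      rw [uIcc_of_le hτ.2, uIcc_of_le hpq]
      exact hsubi
    obtain ⟨g, hg⟩ : ∃ g : ℝ → ℝ, g = fun x => B + ((2 * ρ) * G x + 1 / (2 * ρ)) := ⟨_, rfl⟩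
    have hgi : IntervalIntegrable g volume τ q := by
      rw [hg]
      exact intervalIntegrable_const.add ((hGi'.const_mul _).add intervalIntegrable_const)
    have h2 := disp_i hu hα hβ hr hX hY hατ hτ.2 hq (g := g)
      ((intervalIntegrable_iff_integrableOn_Icc_of_le hτ.2).1 hgi) (by
        intro x hx i
        have hxT : x ∈ Ioo 0 T := ⟨by linarith [hx.1], by linarith [hx.2]⟩
        have hux := W382.ME.cd_slice hu hxT
        have hζ : ball (r⁻¹ • (Y x - X x)) ρ ⊆ ball (0 : V) (1 / 4) := by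
          apply ball_subset_ball'
          rw [dist_zero_right, norm_smul, norm_inv, Real.norm_of_nonneg hr.le]
          have h2 := hB x ⟨hx.1.le, hx.2.le⟩
          have h3 : ‖Y x - X x‖ ≤ ‖(Y x - X x) - (Y β - X β)‖ + ‖Y β - X β‖ := by
            calc ‖Y x - X x‖ = ‖((Y x - X x) - (Y β - X β)) + (Y β - X β)‖ := by
                  rw [sub_add_cancel]
              _ ≤ _ := norm_add_le _ _
          have h4 : ‖Y x - X x‖ ≤ r * (4 * ρ + 1 / 8) := by nlinarith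
          have h5 : r⁻¹ * ‖Y x - X x‖ ≤ 4 * ρ + 1 / 8 := by
            rw [inv_mul_le_iff₀ hr]
            exact h4
          linarith
        have h4 := mv_early (fr_smooth hux (r := r) (X := X)) hρ (ζ := r⁻¹ • (Y x - X x)) (i := i)
          (S := B + √(G x)) (fun z hz => hW x ⟨hτ.1.trans_lt hx.1, hx.2⟩ z (hζ hz) i)
        refine h4.trans ?_
        rw [hg]
        have := sqrt_le_half (hG0 x) (show 0 < 2 * ρ by positivity)
        simp only
        linarith)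
    have h3 : ∫ x in τ..q, g x = (B + 1 / (2 * ρ)) * (q - τ) + (2 * ρ) * ∫ x in τ..q, G x := by
      rw [hg, intervalIntegral.integral_add intervalIntegrable_const
          ((hGi'.const_mul _).add intervalIntegrable_const),
        intervalIntegral.integral_add (hGi'.const_mul _) intervalIntegrable_const,
        intervalIntegral.integral_const_mul,
        intervalIntegral.integral_const, intervalIntegral.integral_const, smul_eq_mul, smul_eq_mul]
      ring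
    have h4 : ∫ x in τ..q, G x ≤ r ^ 2 * ε := by
      refine le_trans ?_ hGe
      apply intervalIntegral.integral_mono_interval hτ.1 hτ.2 le_rfl
        (Eventually.of_forall hG0) hGi
    have h5 : q - τ ≤ ρ ^ 2 * r ^ 2 := by linarith [hτ.1]
    have h6 : r⁻¹ * ∫ x in τ..q, g x ≤ r * ρ := by
      rw [h3, inv_mul_le_iff₀ hr]
      have h7 : (B + 1 / (2 * ρ)) * (q - τ) ≤ (B + 1 / (2 * ρ)) * (ρ ^ 2 * r ^ 2) :=
        mul_le_mul_of_nonneg_left h5 (by positivity)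
      have h8 : (2 * ρ) * (∫ x in τ..q, G x) ≤ (2 * ρ) * (r ^ 2 * ε) :=
        mul_le_mul_of_nonneg_left h4 (by positivity)
      have h9 : (B + 1 / (2 * ρ)) * (ρ ^ 2 * r ^ 2) + (2 * ρ) * (r ^ 2 * ε)
          = r ^ 2 * ρ * (B * ρ + 1 / 2 + 2 * ε) := by
        field_simp
      have h10 : r ^ 2 * ρ * (B * ρ + 1 / 2 + 2 * ε) ≤ r ^ 2 * ρ * 1 :=
        mul_le_mul_of_nonneg_left (by linarith) (by positivity)
      nlinarith
    have h11 : ‖(Y τ - X τ) - (Y q - X q)‖ ≤ r * ρ := by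
      rw [norm_sub_rev]
      exact h2.trans h6
    calc ‖(Y τ - X τ) - (Y β - X β)‖
        = ‖((Y τ - X τ) - (Y q - X q)) + ((Y q - X q) - (Y β - X β))‖ := by
          congr 1; abel
      _ ≤ ‖(Y τ - X τ) - (Y q - X q)‖ + ‖(Y q - X q) - (Y β - X β)‖ := norm_add_le _ _
      _ ≤ _ := by linarith
  · linarith

end

end Pool.Agent.TH305.LW
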