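import Pool.Agent.TH305.LW.Chg

/-!
Late window lemma (helper305): change of the frame, main statement.
-/

set_option autoImplicit false

open MeasureTheory Set Metric Filter Topology
open scoped ContDiff

namespace Pool.Agent.TH305.LW

open H459R3.NS W221.NS W221.NS.B Pool.Agent.W12.MD

lemma pw_late (n k1 : ℕ) : ((rr (4 * n + 2 * k1 + 5)) ^ 3)⁻¹ * (1 / 2 : ℝ) ^ (30 * n + 14 * k1)
    = rr (4 * n + 2 * k1 + 5) * (2 ^ 20 * (1 / 2) ^ (14 * n + 6 * k1)) := by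
  unfold rr
  obtain ⟨K, hK⟩ : ∃ K, K = 4 * n + 2 * k1 + 5 := ⟨_, rfl⟩
  rw [← hK]
  have e1 : (1 / 2 : ℝ) ^ 20 * (1 / 2) ^ (30 * n + 14 * k1)
      = (((1 / 2) ^ K) ^ 3 * (1 / 2) ^ K) * (1 / 2) ^ (14 * n + 6 * k1) := by
    rw [← pow_mul, ← pow_add, ← pow_add, ← pow_add]
    congr 1
    omega
  have e2 : (2 : ℝ) ^ 20 * (1 / 2) ^ 20 = 1 := by norm_num
  have hK0 : ((1 / 2 : ℝ) ^ K) ^ 3 ≠ 0 := by positivity
  calc (((1 / 2 : ℝ) ^ K) ^ 3)⁻¹ * (1 / 2) ^ (30 * n + 14 * k1)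
      = (((1 / 2 : ℝ) ^ K) ^ 3)⁻¹ * ((2 : ℝ) ^ 20 * ((1 / 2) ^ 20 * (1 / 2) ^ (30 * n + 14 * k1))) := by
        rw [← mul_assoc ((2 : ℝ) ^ 20), e2, one_mul]
    _ = (((1 / 2 : ℝ) ^ K) ^ 3)⁻¹ * ((1 / 2) ^ K) ^ 3 * ((1 / 2 : ℝ) ^ K *
        (2 ^ 20 * (1 / 2) ^ (14 * n + 6 * k1))) := by rw [e1]; ring
    _ = _ := by rw [inv_mul_cancel₀ hK0, one_mul]

lemma le_limit {f : ℝ → ℝ} {a q β S : ℝ} (ha : a ≤ q) (hq : q < β)
    (hf : IntervalIntegrable f volume a β) (h : ∀ x ∈ Ioo q β, ∫ t in a..x, f t ≤ S) :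
    ∫ t in a..β, f t ≤ S := by
  have hab : a ≤ β := ha.trans hq.le
  have h1 := intervalIntegral.continuousOn_primitive_interval' hf left_mem_uIcc
  rw [uIcc_of_le hab] at h1
  have h2 : Tendsto (fun x => ∫ t in a..x, f t) (𝓝[Ioo q β] β) (𝓝 (∫ t in a..β, f t)) :=
    (h1 β ⟨hab, le_rfl⟩).mono_left (nhdsWithin_mono _ fun x hx => ⟨ha.trans hx.1.le, hx.2.le⟩)
  have : (𝓝[Ioo q β] β).NeBot := by
    rw [nhdsWithin_Ioo_eq_nhdsLT hq]
    infer_instance
  refine le_of_tendsto h2 ?_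
  filter_upwards [self_mem_nhdsWithin] with x hx
  exact h x hx

set_option maxHeartbeats 1000000 in
/-- Change of the frame: smallness passes to a smaller scale, whatever the dissipation in the last
moments. -/
theorem chg {g : V → ℝ} {C' : ℝ} (hC'0 : 0 < C')
    (hC' : ∀ (F : ℝ) (v : ℝ → V → V) (q : ℝ → V → ℝ), 0 ≤ F →
    Loc3 F v q → ∀ ε : ℝ, IntegrableOn (fun t => B2 0 8 (v t)) (Ioo (-1) 0) →
    C' * (F + ∫ t in Ioo (-1) 0, B2 0 8 (v t)) ≤ ε →
      Hyp2 v (fun t => TT g (v t)) (fun t => C' * (F + B2 0 8 (v t))) ε) :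
    ∃ ε1 : ℝ, 0 < ε1 ∧ ε1 ≤ 1 ∧ ∀ ε2 : ℝ, 0 < ε2 → ∃ k0 : ℕ, ∀ k1 : ℕ, k0 ≤ k1 →
      ∀ (n : ℕ) (T κ E F : ℝ) (O : Set V) (u : ℝ → V → V) (p : ℝ → V → ℝ), 0 ≤ F →
      LSol3 T κ E F O u p → ∀ α β r : ℝ, 0 < α → β < T → 0 < r → r ≤ 1 →
      α ≤ β - (1 / 2) ^ (63 * n + 28 * k1) * r ^ 2 - r ^ 2 → ∀ X Y : ℝ → V, Pth r u α β X →
      Pth (rr (4 * n + 2 * k1 + 5) * r) u α β Y →
      (∀ t ∈ Ioo (β - (1 / 2) ^ (63 * n + 28 * k1) * r ^ 2 - r ^ 2) β, ball (X t) (8 * r) ⊆ O) →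
      C' * (r ^ 3 * F + ms u r X (β - (1 / 2) ^ (63 * n + 28 * k1) * r ^ 2 - r ^ 2)
        (β - (1 / 2) ^ (63 * n + 28 * k1) * r ^ 2)) ≤ ε1 →
      C' * (r ^ 3 * F + ms u r X (β - r ^ 2) β) ≤ 2 ^ n → ‖Y β - X β‖ < r / 8 →
      ms u (rr (4 * n + 2 * k1 + 5) * r) Y (β - (rr (4 * n + 2 * k1 + 5) * r) ^ 2) β ≤ ε2 := by
  obtain ⟨εL, BL, hεL, hBL, hloc⟩ := p_loc2
  obtain ⟨B, hB⟩ : ∃ B, B = max 1 BL := ⟨_, rfl⟩
  have hB1 : 1 ≤ B := by rw [hB]; exact le_max_left _ _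
  have hBB : BL ≤ B := by rw [hB]; exact le_max_right _ _
  obtain ⟨K, hK, hsmall⟩ := small B hB1
  obtain ⟨CD, hCD, hlate⟩ := late_disp
  refine ⟨min εL (1 / 8), by positivity, (min_le_right _ _).trans (by norm_num), ?_⟩
  intro ε2 hε2
  obtain ⟨k0, hk0⟩ := pow_unbounded_of_one_lt (32 * K / ε2 + CD * (1 + 1 / C') * 2 ^ 20 + 4 * B)
    (show (1 : ℝ) < 2 by norm_num)
  refine ⟨max 3 k0, ?_⟩
  intro k1 hk1
  have hk3 : 3 ≤ k1 := (le_max_left _ _).trans hk1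
  have hkk : (2 : ℝ) ^ k0 ≤ 2 ^ k1 :=
    pow_le_pow_right₀ (by norm_num) ((le_max_right _ _).trans hk1)
  have p1 : 0 < 32 * K / ε2 := by positivity
  have p2 : 0 < CD * (1 + 1 / C') * 2 ^ 20 := by positivity
  have c1 : 32 * K / ε2 ≤ 2 ^ k1 := by linarith
  have c2 : CD * (1 + 1 / C') * 2 ^ 20 ≤ 2 ^ k1 := by linarith
  have c3 : 4 * B ≤ 2 ^ k1 := by linarith
  clear hk0 hkk hk1
  intro n T κ E F O u p hF hL α β r hα hβ hr hr1 hαβ X Y hX hY hO hearly htotal h0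
  have hu := hL.smooth_u
  obtain ⟨ρ, hρ⟩ : ∃ ρ, ρ = rr (4 * n + 2 * k1 + 5) := ⟨_, rfl⟩
  obtain ⟨c, hc⟩ : ∃ c : ℝ, c = (1 / 2) ^ (63 * n + 28 * k1) := ⟨_, rfl⟩
  have hpwl := pw_late n k1
  have hsm := hsmall n k1 hk3
  rw [← hρ] at hpwl hY ⊢
  rw [← hc] at hαβ hO hearly hsm
  obtain ⟨k, hk⟩ : ∃ k, k = 4 * n + 2 * k1 := ⟨_, rfl⟩
  rw [← hk] at hsm
  have hr2 : 0 < r ^ 2 := by positivity
  have hρ0 : 0 < ρ := by rw [hρ]; exact rr_pos' _
  have hc0 : 0 < c := by rw [hc]; positivity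
  have hρk : rr k = 32 * ρ := by
    rw [hρ, ← hk]
    unfold rr
    rw [pow_add]
    norm_num
    ring
  have hρk1 : rr (k + 1) = 16 * ρ := by
    rw [hρ, ← hk]
    unfold rr
    rw [pow_add, pow_add]
    norm_num
    ring
  have hρs : 40 * ρ ≤ 1 := by
    have h1 : rr (4 * n + 2 * k1 + 5) ≤ rr 11 := W612.MD.rr_le (by omega)
    have h2 : rr 11 = 1 / 2048 := by unfold rr; norm_num
    rw [hρ]
    linarith
  have hρ1 : ρ ≤ 1 := by linarith
  have hcρ : c ≤ ρ ^ 2 := by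
    rw [hc, hρ]
    unfold rr
    rw [← pow_mul]
    exact pow_le_pow_of_le_one (by norm_num) (by norm_num) (by omega)
  have hρ16 : ρ ^ 2 ≤ 1 / 16 := by nlinarith only [hρs, hρ0]
  have hhalf : (1 / 2 : ℝ) ^ k1 = 1 / 2 ^ k1 := by rw [one_div_pow]
  have hρk2 : ρ ≤ (1 / 2) ^ k1 := by
    rw [hρ]
    unfold rr
    exact pow_le_pow_of_le_one (by norm_num) (by norm_num) (by omega)
  have hBρ : B * ρ ≤ 1 / 4 := by
    have h1 : B * ρ ≤ B * (1 / 2 ^ k1) := by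
      rw [← hhalf]
      exact mul_le_mul_of_nonneg_left hρk2 (by linarith)
    have h2 : B * (1 / 2 ^ k1) ≤ 1 / 4 := by
      rw [mul_one_div, div_le_iff₀ (by positivity)]
      linarith
    linarith
  obtain ⟨q, hq⟩ : ∃ q, q = β - c * r ^ 2 := ⟨_, rfl⟩
  rw [← hq] at hαβ hearly hO
  have hcr2 : 0 < c * r ^ 2 := mul_pos hc0 hr2
  have hqβ : q < β := by rw [hq]; linarith only [hcr2]
  have hαq : α ≤ q - r ^ 2 := hαβ
  have hqc : β - q = c * r ^ 2 := by rw [hq]; ring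
  have hcr : c * r ^ 2 ≤ r ^ 2 / 16 := by
    have := mul_le_mul_of_nonneg_right (hcρ.trans hρ16) hr2.le
    linarith only [this]
  -- the two hypotheses
  have hH1 := pth_hyp hC' hF hL (α := α) (β := β) (r := r) (s := q) (ε := εL) hr hr1 hα hαq
    hqβ.le hβ hX (fun t ht => hO t ⟨ht.1, ht.2.trans hqβ⟩) (hearly.trans (min_le_left _ _))
  have hH2 := pth_hyp hC' hF hL (α := α) (β := β) (r := r) (s := β) (ε := 2 ^ n) hr hr1 hα
    (by linarith) le_rfl hβ hX (fun t ht => hO t ⟨by linarith [ht.1], ht.2⟩) htotal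
  have hWB : ∀ τ ∈ Ioo (q - r ^ 2 / 16) q, ∀ z ∈ ball (0 : V) (1 / 4), ∀ i,
      |TT g (fr r X u τ) z i| ≤ B := by
    intro τ hτ z hz i
    have ht : (τ - q) / r ^ 2 ∈ Ioo (-1 / 16 : ℝ) 0 := by
      have h1 := time_mem (s := q) (τ := τ) (c := 1 / 16) hr
        ⟨by linarith [hτ.1], hτ.2⟩
      exact ⟨by linarith [h1.1], h1.2⟩
    have h1 := hloc _ _ _ hH1 _ ht z hz i
    have e := frv_abs (s := q) hr hX (τ := τ) ⟨by linarith [hτ.1], hτ.2.trans hqβ⟩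
    simp only [e] at h1
    exact h1.trans hBB
  -- late displacement
  obtain ⟨l, hl⟩ : ∃ l : ℝ, l = (1 / 2) ^ (31 * n + 14 * k1) := ⟨_, rfl⟩
  have hl0 : 0 < l := by rw [hl]; positivity
  have hms : ms u r X q β ≤ 2 ^ n / C' := by
    have h1 : ms u r X q β ≤ ms u r X (β - r ^ 2) β :=
      ms_mono hu hα hβ hX.cont hr (by linarith) (by linarith) hqβ.le le_rfl le_rfl
    rw [le_div_iff₀ hC'0, mul_comm]
    have h2 : 0 ≤ C' * (r ^ 3 * F) := by positivity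
    rw [mul_add] at htotal
    exact (mul_le_mul_of_nonneg_left h1 hC'0.le).trans (by linarith only [h2, htotal])
  have hbl : CD * (ρ ^ 3)⁻¹ * (l * ms u r X q β + (β - q) / (r ^ 2 * l)) ≤ ρ := by
    have e1 : (β - q) / (r ^ 2 * l) = c / l := by
      rw [hqc]
      field_simp
    have e2 : c / l ≤ (1 / 2) ^ (30 * n + 14 * k1) := by
      rw [div_le_iff₀ hl0, hc, hl, ← pow_add]
      exact pow_le_pow_of_le_one (by norm_num) (by norm_num) (by omega)
    have e3 : l * ms u r X q β ≤ (1 / 2) ^ (30 * n + 14 * k1) * (1 / C') := by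
      have h1 := mul_le_mul_of_nonneg_left hms hl0.le
      have h2 : l * 2 ^ n = (1 / 2) ^ (30 * n + 14 * k1) := by
        have h3 : l = (1 / 2) ^ (30 * n + 14 * k1) * (1 / 2) ^ n := by
          rw [hl, ← pow_add]
          congr 1
          ring
        rw [h3, mul_assoc, ← mul_pow]
        norm_num
      calc l * ms u r X q β ≤ l * (2 ^ n / C') := h1
        _ = (l * 2 ^ n) * (1 / C') := by ring
        _ = _ := by rw [h2]
    rw [e1]
    have h1 : l * ms u r X q β + c / l ≤ (1 + 1 / C') * (1 / 2) ^ (30 * n + 14 * k1) := by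
      have := add_le_add e3 e2
      linarith
    calc CD * (ρ ^ 3)⁻¹ * (l * ms u r X q β + c / l)
        ≤ CD * (ρ ^ 3)⁻¹ * ((1 + 1 / C') * (1 / 2) ^ (30 * n + 14 * k1)) :=
          mul_le_mul_of_nonneg_left h1 (by positivity)
      _ = CD * (1 + 1 / C') * ((ρ ^ 3)⁻¹ * (1 / 2) ^ (30 * n + 14 * k1)) := by ring
      _ = ρ * ((CD * (1 + 1 / C') * 2 ^ 20) * (1 / 2) ^ (14 * n + 6 * k1)) := by
          rw [hpwl]; ring
      _ ≤ ρ * 1 := by
          apply mul_le_mul_of_nonneg_left _ hρ0.le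
          have h2 : (1 / 2 : ℝ) ^ (14 * n + 6 * k1) ≤ (1 / 2) ^ k1 :=
            pow_le_pow_of_le_one (by norm_num) (by norm_num) (by omega)
          calc CD * (1 + 1 / C') * 2 ^ 20 * (1 / 2) ^ (14 * n + 6 * k1)
              ≤ 2 ^ k1 * (1 / 2) ^ k1 := mul_le_mul c2 h2 (by positivity) (by positivity)
            _ = 1 := by rw [← mul_pow]; norm_num
      _ = ρ := mul_one ρ
  have hY' : Pth (ρ * r) u α β Y := hY
  have hdl : ∀ τ ∈ Icc q β, ‖(Y τ - X τ) - (Y β - X β)‖ ≤ r * ρ := by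
    intro τ hτ
    refine (hlate T u hu α β r ρ hα hβ hr hρ0 hρ1 X Y hX hY' q ⟨by linarith, hqβ.le⟩ l hl0
      (hbl.trans (by linarith)) (by linarith) τ hτ).trans ?_
    exact mul_le_mul_of_nonneg_left hbl hr.le
  -- early displacement
  obtain ⟨G, hG⟩ : ∃ G : ℝ → ℝ, G = fun τ => C' * (r ^ 3 * F + r * B2 (X τ) (8 * r) (u τ)) :=
    ⟨_, rfl⟩
  have hG0 : ∀ τ, 0 ≤ G τ := by
    intro τ
    rw [hG]
    have := W612.MD.B2_nonneg (X τ) (8 * r) (u τ)
    positivity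
  obtain ⟨p0, hp0⟩ : ∃ p0, p0 = β - ρ ^ 2 * r ^ 2 := ⟨_, rfl⟩
  have hρr16 : ρ ^ 2 * r ^ 2 ≤ r ^ 2 / 16 := by
    have := mul_le_mul_of_nonneg_right hρ16 hr2.le
    linarith only [this]
  have hcρr := mul_le_mul_of_nonneg_right hcρ hr2.le
  have hp0q : p0 ≤ q := by rw [hp0, hq]; linarith only [hcρr]
  have hp0' : q - r ^ 2 / 16 ≤ p0 := by rw [hp0]; linarith [mul_pos hc0 hr2]
  have hB2i : ∀ a b : ℝ, α ≤ a → a ≤ b → b ≤ β →
      IntervalIntegrable (fun τ => B2 (X τ) (8 * r) (u τ)) volume a b := fun a b h1 h2 h3 =>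
    B2_ii hu hα hβ hX.cont (8 * r) h1 h2 h3
  have hde : ∀ τ ∈ Icc p0 q, ‖(Y τ - X τ) - (Y β - X β)‖ ≤ 2 * (r * ρ) := by
    apply early_disp hu hα hβ hr hρ0 hρs hX hY' (p := p0) (q := q) (B := B) (ε := 1 / 8) (G := G)
      (by linarith) hp0q hqβ.le (by linarith) hG0
    · rw [hG]
      exact (intervalIntegrable_const.add ((hB2i p0 q (by linarith) hp0q hqβ.le).const_mul r)
        ).const_mul C'
    · have h1 : ∫ τ in p0..q, G τ = r ^ 2 * (C' * (r * F * (q - p0) + ms u r X p0 q)) := by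
        rw [hG, intervalIntegral.integral_const_mul,
          intervalIntegral.integral_add intervalIntegrable_const
            ((hB2i p0 q (by linarith) hp0q hqβ.le).const_mul r),
          intervalIntegral.integral_const, intervalIntegral.integral_const_mul, smul_eq_mul]
        unfold ms
        field_simp
      rw [h1]
      apply mul_le_mul_of_nonneg_left _ hr2.le
      refine le_trans ?_ (hearly.trans (min_le_right _ _))
      apply mul_le_mul_of_nonneg_left _ hC'0.le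
      have h2 : ms u r X p0 q ≤ ms u r X (q - r ^ 2) q :=
        ms_mono hu hα hβ hX.cont hr hαq (by linarith) hp0q le_rfl hqβ.le
      have h3 : r * F * (q - p0) ≤ r ^ 3 * F := by
        have h4 : q - p0 ≤ r ^ 2 := by linarith
        have h5 : 0 ≤ r * F := by positivity
        calc r * F * (q - p0) ≤ r * F * r ^ 2 := mul_le_mul_of_nonneg_left h4 h5
          _ = r ^ 3 * F := by ring
      linarith
    · rw [hp0, hq]
      linarith only [hcr2]
    · linarith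
    · intro τ hτ z hz i
      obtain ⟨N, P, hs⟩ := slice_abs hu (g := g) (C' := C') (F := F) (s := β) hr hα (by linarith)
        le_rfl hβ hX hH2 (τ := τ) ⟨by linarith [hτ.1], by linarith [hτ.2]⟩
      have h1 := hs.dD z (ball_subset_ball (by norm_num) hz) i
      have h2 := hWB τ ⟨by linarith [hτ.1], hτ.2⟩ z hz i
      have h3 : |fr r X u τ z i| ≤ |fr r X u τ z i - TT g (fr r X u τ) z i|
          + |TT g (fr r X u τ) z i| := by
        have := abs_add_le (fr r X u τ z i - TT g (fr r X u τ) z i) (TT g (fr r X u τ) z i)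
        rw [sub_add_cancel] at this
        exact this
      have h4 : √(C' * (r ^ 3 * F + r * B2 (X τ) (8 * r) (u τ))) = √(G τ) := by rw [hG]
      rw [h4] at h1
      linarith
    · exact hdl q ⟨le_rfl, hqβ.le⟩
    · exact h0
  have hdisp : ∀ τ ∈ Icc p0 β, ‖(Y τ - X τ) - (Y β - X β)‖ ≤ 2 * (r * ρ) := by
    intro τ hτ
    rcases le_total τ q with h | h
    · exact hde τ ⟨hτ.1, h⟩
    · have h1 := hdl τ ⟨h, hτ.2⟩
      have h2 : 0 < r * ρ := by positivity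
      linarith
  -- the point
  obtain ⟨a, ha⟩ : ∃ a : V, a = r⁻¹ • (Y β - X β) := ⟨_, rfl⟩
  have hra : r • a = Y β - X β := by
    rw [ha, smul_smul, mul_inv_cancel₀ hr.ne', one_smul]
  have ha8 : a ∈ ball (0 : V) (1 / 8) := by
    rw [ha, mem_ball, dist_zero_right, norm_smul, norm_inv, Real.norm_of_nonneg hr.le,
      inv_mul_lt_iff₀ hr]
    linarith
  have hXa : ContinuousOn (fun τ => X τ + r • a) (Icc α β) := hX.cont.add continuousOn_const
  have hsm2 := hsm (frv r β X u) (fun t => TT g (frv r β X u t))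
    (fun t => C' * (r ^ 3 * F + B2 0 8 (frv r β X u t))) hH2 (by
      intro t ht z hz i
      have h1 : β + r ^ 2 * t ∈ Ioo (q - r ^ 2 / 16) q := by
        constructor
        · have := mul_lt_mul_of_pos_left ht.1 hr2
          linarith only [this, hqβ]
        · have := mul_lt_mul_of_pos_left ht.2 hr2
          rw [hq]; linarith only [this]
      have e := frv_abs' (s := β) (t := t) hX ⟨by linarith [h1.1], by linarith [h1.2]⟩
      simp only [e]
      exact hWB _ h1 z hz i) a ha8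
  obtain ⟨a0, ha0⟩ : ∃ a0, a0 = β - (ρ * r) ^ 2 := ⟨_, rfl⟩
  have ha0p : a0 = p0 := by rw [ha0, hp0]; ring
  have hρr : 0 < ρ * r := by positivity
  have hfin : ∫ τ in a0..β, B2 (Y τ) (8 * (ρ * r)) (u τ) ≤ r * (K * (1 / 2) ^ k1 * rr k) := by
    apply le_limit (q := q) (by rw [ha0p]; exact hp0q) hqβ
      (B2_ii hu hα hβ hY.cont _ (by rw [ha0p]; linarith) (by rw [ha0p]; linarith) le_rfl)
    intro x hx
    have ht1 : (x - β) / r ^ 2 ∈ Ioo (-c) 0 := time_mem hr ⟨by rw [hq] at hx; exact hx.1, hx.2⟩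
    have h1 := hsm2 _ ht1
    have hrk : rr k ^ 2 < 1 / 16 := rr_sq_16 (by omega)
    have hrk0 : ρ ^ 2 ≤ rr k ^ 2 := by rw [hρk]; nlinarith only [sq_nonneg ρ]
    have hrk3 := mul_lt_mul_of_pos_left hrk hr2
    have hrk4 := mul_le_mul_of_nonneg_left hrk0 hr2.le
    have e2 : β + r ^ 2 * ((x - β) / r ^ 2) = x := time_abs hr
    rw [mass_cov hu hr (by linarith only [ht1.1, hcρ, hrk0]) (by linarith only [hrk3, hαβ, hqβ, hα, hr2])
      (by rw [e2]; linarith only [hx.2, hβ]) X a, e2]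
      at h1
    rw [inv_mul_le_iff₀ hr] at h1
    refine le_trans ?_ h1
    have hb0 : α ≤ β + r ^ 2 * -rr k ^ 2 := by linarith only [hrk3, hαβ, hqβ, hr2]
    have hb1 : β + r ^ 2 * -rr k ^ 2 ≤ a0 := by rw [ha0, mul_pow]; linarith only [hrk4]
    have hb2 : a0 ≤ x := by rw [ha0p]; linarith [hx.1]
    calc ∫ τ in a0..x, B2 (Y τ) (8 * (ρ * r)) (u τ)
        ≤ ∫ τ in a0..x, B2 (X τ + r • a) (r * rr (k + 1)) (u τ) := by
          apply intervalIntegral.integral_mono_on hb2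
            (B2_ii hu hα hβ hY.cont _ (by linarith) hb2 hx.2.le)
            (B2_ii hu hα hβ hXa _ (by linarith) hb2 hx.2.le)
          intro τ hτ
          have hτT : τ ∈ Ioo 0 T := ⟨by linarith [hτ.1], by linarith [hτ.2, hx.2]⟩
          apply B2_mono (W382.ME.cd_slice hu hτT)
          apply ball_subset_ball'
          have h2 := hdisp τ ⟨by rw [← ha0p]; exact hτ.1, hτ.2.trans hx.2.le⟩
          rw [dist_eq_norm, hra, hρk1]
          have e3 : Y τ - (X τ + (Y β - X β)) = (Y τ - X τ) - (Y β - X β) := by abel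
          rw [e3]
          linarith only [h2, mul_pos hr hρ0]
      _ ≤ _ := by
          apply intervalIntegral.integral_mono_interval hb1 hb2 le_rfl
          · exact Eventually.of_forall fun τ => W612.MD.B2_nonneg _ _ _
          · exact B2_ii hu hα hβ hXa _ hb0 (hb1.trans hb2) hx.2.le
  unfold ms
  rw [← ha0, inv_mul_le_iff₀ hρr]
  refine hfin.trans ?_
  rw [hρk, hhalf]
  have h5 : 32 * K * (1 / 2 ^ k1) ≤ ε2 := by
    rw [div_le_iff₀ hε2] at c1
    rw [mul_one_div, div_le_iff₀ (by positivity)]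
    linarith
  calc r * (K * (1 / 2 ^ k1) * (32 * ρ)) = (ρ * r) * (32 * K * (1 / 2 ^ k1)) := by ring
    _ ≤ ρ * r * ε2 := mul_le_mul_of_nonneg_left h5 hρr.le

end Pool.Agent.TH305.LW
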