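import Pool.Agent.TH305.LW.Loc

/-!
Late window lemma (helper305): the number of separated singular points, weighted in time.
-/

set_option autoImplicit false

open MeasureTheory Set Metric Filter
open scoped ContDiff Topology ENNReal

namespace Pool.Agent.TH305.LW

open H459R3.NS W221.NS W221.NS.B

/-- The number of separated singular points, with a weight in time. -/
def S_COUNT4 : Prop := ∃ C : ℝ, 0 < C ∧ ∀ (T κ E F : ℝ) (O : Set V) (u : ℝ → V → V)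
  (p : ℝ → V → ℝ), 0 ≤ κ → 0 ≤ E → 0 ≤ F → LSol3 T κ E F O u p → ∀ r : ℝ, 0 < r → r ≤ 1 →
    4 * r ^ 2 < T → C * κ * √r ≤ 1 → C * F * r ^ 3 ≤ 1 →
    ∫⁻ τ in Ioo (T - 4 * r ^ 2) T, ∫⁻ y in O, ENNReal.ofReal (gsq (u τ) y) ≠ ⊤ →
    ∀ S : Finset V, (∀ x ∈ S, Sing T u x) → (∀ x ∈ S, ball x (C * (r + E * √r)) ⊆ O) →
    (∀ x ∈ S, ∀ y ∈ S, x ≠ y → r / 8 ≤ ‖x - y‖) →
      ENNReal.ofReal (S.card * r) ≤ ENNReal.ofReal C *
        ∫⁻ τ in Ioo (T - 4 * r ^ 2) T, ENNReal.ofReal (((T - τ) / r ^ 2) ^ (1 / 1152 : ℝ)) *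
          ∫⁻ y in O, ENNReal.ofReal (gsq (u τ) y)

lemma meas_wt (s r : ℝ) :
    Measurable (fun τ : ℝ => ENNReal.ofReal (((s - τ) / r ^ 2) ^ (1 / 1152 : ℝ))) := by
  apply Measurable.ennreal_ofReal
  apply Continuous.measurable
  apply Continuous.rpow_const
  · fun_prop
  · intro τ
    right
    norm_num

theorem count4 : S_COUNT4 := by
  obtain ⟨ε', CL, hε', hCL, hloc⟩ := p_local3
  obtain ⟨CM, hCM, hmol, hall⟩ := gen_all
  obtain ⟨k1, ε0, hk1, hε0, hall⟩ := hall (ε' / 2) (by positivity)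
  refine ⟨11 + 4 * CM + 3 * 4096 * 512 / ε0 + 1 / ε0 + 2 / ε', by positivity, ?_⟩
  intro T κ E F O u p hκ hE hF hL r hr hr1 hrT hκr hFr hfin S hS hO hsep
  have hu := hL.smooth_u
  have hr2 : 0 < r ^ 2 := by positivity
  have hr3 : 0 < r ^ 3 := by positivity
  have hFr0 : 0 ≤ F * r ^ 3 := by positivity
  obtain ⟨C, hC⟩ : ∃ C, C = 11 + 4 * CM + 3 * 4096 * 512 / ε0 + 1 / ε0 + 2 / ε' := ⟨_, rfl⟩
  rw [← hC] at hκr hFr hO ⊢
  have q1 : 0 ≤ 3 * 4096 * 512 / ε0 := by positivity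
  have q2 : 0 ≤ 1 / ε0 := by positivity
  have q3 : 0 ≤ 2 / ε' := by positivity
  have hC1 : 1 / ε0 ≤ C := by linarith
  have hC2 : 2 / ε' ≤ C := by linarith
  have hC3 : 11 + 4 * CM ≤ C := by linarith
  have hC4 : 3 * 4096 * 512 / ε0 ≤ C := by linarith
  have hC0 : 0 < C := by linarith
  have hFr1 : r ^ 3 * F ≤ ε0 := by
    have h1 : 1 / ε0 * (F * r ^ 3) ≤ 1 := by
      refine (mul_le_mul_of_nonneg_right hC1 hFr0).trans ?_
      rw [← mul_assoc]
      exact hFr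
    rw [one_div, inv_mul_le_iff₀ hε0] at h1
    linarith
  have hFr2 : r ^ 3 * F ≤ ε' / 2 := by
    have h1 : 2 / ε' * (F * r ^ 3) ≤ 1 := by
      refine (mul_le_mul_of_nonneg_right hC2 hFr0).trans ?_
      rw [← mul_assoc]
      exact hFr
    rw [div_mul_eq_mul_div, div_le_one hε'] at h1
    linarith
  have hsr0 : 0 < √r := Real.sqrt_pos.2 hr
  obtain ⟨Jm, hJm⟩ : ∃ Jm : ℝ≥0∞, Jm = ∫⁻ τ in Ioo (T - 4 * r ^ 2) T, ∫⁻ y in O,
    ENNReal.ofReal (gsq (u τ) y) := ⟨_, rfl⟩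
  rw [← hJm] at hfin
  -- the number of generations
  obtain ⟨J, hJ⟩ := pow_unbounded_of_one_lt (Jm.toReal / (r * ε0)) (show (1 : ℝ) < 2 by norm_num)
  have hJ' : Jm.toReal ≤ r * (ε0 * 2 ^ KK k1 J) := by
    have h1 : (2 : ℝ) ^ J ≤ 2 ^ KK k1 J := pow_le_pow_right₀ (by norm_num) (KK_ge k1 J)
    have h2 := (hJ.trans_le h1).le
    rw [div_le_iff₀ (by positivity)] at h2
    linarith
  -- the small scale
  obtain ⟨ρ, hρdef⟩ : ∃ ρ, ρ = rr (KK k1 (J + 1)) * r := ⟨_, rfl⟩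
  have hrr0 : 0 < rr (KK k1 (J + 1)) := rr_pos' _
  have hrr1 : rr (KK k1 (J + 1)) ≤ 1 := by
    unfold rr
    exact pow_le_one₀ (by norm_num) (by norm_num)
  have hρ : 0 < ρ := by rw [hρdef]; positivity
  have hρr : ρ ≤ r := by rw [hρdef]; nlinarith
  have hρ1 : ρ ≤ 1 := hρr.trans hr1
  have hρ2 : 0 < ρ ^ 2 := by positivity
  have hρr2 : ρ ^ 2 ≤ r ^ 2 := pow_le_pow_left₀ hρ.le hρr 2
  have hρF : ρ ^ 3 * F ≤ ε' / 2 :=
    (mul_le_mul_of_nonneg_right (pow_le_pow_left₀ hρ.le hρr 3) hF).trans hFr2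
  obtain ⟨M, hM⟩ : ∃ M, M = CM * E / √(ρ ^ 3) := ⟨_, rfl⟩
  have hM0 : 0 ≤ M := by rw [hM]; positivity
  obtain ⟨δ, hδ0, hδ1, hδ2, hδ3⟩ :
      ∃ δ : ℝ, 0 < δ ∧ δ ≤ ρ ^ 2 / 32 ∧ δ ≤ ρ / 16 ∧ M * δ ≤ ρ / 16 := by
    refine ⟨min (ρ ^ 2 / 32) (ρ / 16 / (M + 1)), by positivity, min_le_left _ _, ?_, ?_⟩
    · refine (min_le_right _ _).trans (div_le_self (by positivity) (by linarith))
    · calc M * min (ρ ^ 2 / 32) (ρ / 16 / (M + 1)) ≤ (M + 1) * (ρ / 16 / (M + 1)) := by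
            apply mul_le_mul (by linarith) (min_le_right _ _) (by positivity) (by positivity)
        _ = ρ / 16 := by field_simp
  obtain ⟨Q, hQ⟩ : ∃ Q, Q = CL * (1 + √(2 * ρ ^ 2 * ((ρ ^ 3)⁻¹ * E ^ 2 +
    1536 * (CM * E / √(ρ ^ 3)) ^ 2))) / ρ + CM * E / √(ρ ^ 3) := ⟨_, rfl⟩
  have hsing : ∀ x : V, ∃ t : ℝ, ∃ y : V, x ∈ S → (t ∈ Ioo (T - δ) T ∧ y ∈ ball x δ ∧
      Q < ‖u t y‖) := by
    intro x
    by_cases hx : x ∈ S
    · obtain ⟨t, ht, y, hy, h⟩ := hS x hx δ hδ0 Q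
      exact ⟨t, y, fun _ => ⟨ht, hy, h⟩⟩
    · exact ⟨0, 0, fun h => absurd h hx⟩
  choose tx yx htx using hsing
  obtain ⟨s, hs1, hs2, hs3⟩ : ∃ s, T - δ < s ∧ s < T ∧ ∀ x ∈ S, tx x < s := by
    have e1 : ∀ᶠ s in 𝓝[<] T, s ∈ Ioo (T - δ) T := Ioo_mem_nhdsLT (by linarith)
    have e2 : ∀ᶠ s in 𝓝[<] T, ∀ x ∈ S, tx x < s := by
      rw [Finset.eventually_all]
      intro x hx
      filter_upwards [Ioo_mem_nhdsLT (htx x hx).1.2] with s hs
      exact hs.1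
    obtain ⟨s, h1, h2⟩ := (e1.and e2).exists
    exact ⟨s, h1.1, h1.2, h2⟩
  have hδr : δ ≤ r ^ 2 / 32 := by linarith
  have hα : 0 < s - 3 * r ^ 2 := by linarith
  have hαβ : s - 3 * r ^ 2 < s := by linarith
  -- the flows at the two scales
  obtain ⟨L, hgood⟩ := hmol T κ E F O u p hκ hE hL r hr
  obtain ⟨X, hX⟩ := p_flowx2 T _ L _ (mol r u) hgood (s - 3 * r ^ 2) s hα hαβ hs2
  have hmeas := p_flowm2 T _ L _ (mol r u) hgood (s - 3 * r ^ 2) s hα hαβ hs2 X hX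
  obtain ⟨L', hgood'⟩ := hmol T κ E F O u p hκ hE hL ρ hρ
  obtain ⟨X', hX'⟩ := p_flowx2 T _ L' _ (mol ρ u) hgood' (s - 3 * r ^ 2) s hα hαβ hs2
  have hexp : Real.exp (CM * κ / √(r ^ 3) * (s - (s - 3 * r ^ 2))) ≤ 3 := by
    have e : CM * κ / √(r ^ 3) * (s - (s - 3 * r ^ 2)) = 3 * CM * κ * √r := by
      have h1 := speed_num (C := CM) (E := κ) hr
      calc CM * κ / √(r ^ 3) * (s - (s - 3 * r ^ 2)) = 3 * (CM * κ / √(r ^ 3) * r ^ 2) := by ring
        _ = _ := by rw [h1]; ring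
    rw [e]
    have h2 : 3 * CM * κ * √r ≤ 1 := by
      refine le_trans ?_ hκr
      have : 0 ≤ κ * √r := by positivity
      nlinarith
    calc Real.exp (3 * CM * κ * √r) ≤ Real.exp 1 := Real.exp_le_exp.2 h2
      _ ≤ 3 := by linarith [Real.exp_one_lt_d9]
  have hEr : 0 ≤ E * √r := by positivity
  -- the claim for one label
  have hclaim : ∀ x ∈ S, ∀ z ∈ ball x (r / 2 / 8), ENNReal.ofReal (ε0 * r) ≤
      ∫⁻ τ in Ioo (s - 2 * r ^ 2) s, ENNReal.ofReal (((s - τ) / r ^ 2) ^ (1 / 1152 : ℝ)) *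
        ∫⁻ y in ball (X τ z) (8 * r) ∩ O, ENNReal.ofReal (gsq (u τ) y) := by
    intro x hx z hz
    by_contra hlt
    rw [not_le] at hlt
    have hz' : ‖z - x‖ < r / 16 := by
      rw [mem_ball, dist_eq_norm] at hz
      linarith
    have hXz : Pth r u (s - 3 * r ^ 2) s (fun τ => X τ z) := Pth.ofFlow hX z
    have hball : ball (X s z) (10 * r + 4 * CM * E * √r) ⊆ O := by
      refine subset_trans ?_ (hO x hx)
      rw [hX.fin z]
      apply ball_subset_ball'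
      rw [dist_eq_norm]
      have h1 : (11 + 4 * CM) * (r + E * √r) ≤ C * (r + E * √r) :=
        mul_le_mul_of_nonneg_right hC3 (by positivity)
      have h2 : 0 ≤ CM * r := by positivity
      linarith only [h1, h2, hz', hEr, hr]
    have htube : ∀ t ∈ Ioo (s - 2 * r ^ 2) s, ball (X t z) (8 * r) ⊆ O := by
      intro t ht
      have h2 := pth_speed2 hCM hmol hκ hE hL (ρ := r) (r := r) hr le_rfl hα hs2 hXz (a := t)
        (b := s) (by linarith [ht.1]) ht.2.le le_rfl (by linarith [ht.1])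
      refine subset_trans ?_ hball
      apply ball_subset_ball'
      rw [dist_comm, dist_eq_norm]
      have h3 : 0 ≤ CM * E * √r := by positivity
      linarith
    -- total mass
    have hlint : ∀ a b : ℝ, s - 2 * r ^ 2 ≤ a → a ≤ b → b ≤ s →
        ENNReal.ofReal (r * ms u r (fun τ => X τ z) a b)
          = ∫⁻ τ in Ioo a b, ∫⁻ y in ball (X τ z) (8 * r) ∩ O, ENNReal.ofReal (gsq (u τ) y) := by
      intro a b ha hab hb
      rw [ms_lint hu hα hs2 hXz.cont hr (by linarith) hab hb]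
      apply setLIntegral_congr_fun measurableSet_Ioo
      intro τ hτ
      show _ = ∫⁻ y in ball (X τ z) (8 * r) ∩ O, ENNReal.ofReal (gsq (u τ) y)
      rw [inter_eq_self_of_subset_left (htube τ ⟨by linarith [hτ.1], by linarith [hτ.2]⟩)]
    have htot : ms u r (fun τ => X τ z) (s - 2 * r ^ 2) s ≤ ε0 * 2 ^ KK k1 J := by
      have h1 := hlint (s - 2 * r ^ 2) s le_rfl (by linarith) le_rfl
      have h2 : ENNReal.ofReal (r * ms u r (fun τ => X τ z) (s - 2 * r ^ 2) s) ≤ Jm := by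
        rw [h1, hJm]
        calc ∫⁻ τ in Ioo (s - 2 * r ^ 2) s, ∫⁻ y in ball (X τ z) (8 * r) ∩ O,
              ENNReal.ofReal (gsq (u τ) y)
            ≤ ∫⁻ τ in Ioo (s - 2 * r ^ 2) s, ∫⁻ y in O, ENNReal.ofReal (gsq (u τ) y) :=
              lintegral_mono fun τ => lintegral_mono_set inter_subset_right
          _ ≤ _ := lintegral_mono_set (Ioo_subset_Ioo (by linarith) hs2.le)
      have h3 := (ENNReal.ofReal_le_iff_le_toReal hfin).1 h2
      exact le_of_mul_le_mul_left (h3.trans hJ') hr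
    have hwt : ∀ θ ∈ Ioo (0 : ℝ) 1, θ ^ (1 / 1152 : ℝ) *
        ms u r (fun τ => X τ z) (s - 2 * r ^ 2) (s - θ * r ^ 2) ≤ ε0 := by
      intro θ hθ
      have hθr : 0 < θ * r ^ 2 := mul_pos hθ.1 hr2
      have hθr' : θ * r ^ 2 ≤ r ^ 2 := by nlinarith only [hθ.2, hr2]
      have h1 := hlint (s - 2 * r ^ 2) (s - θ * r ^ 2) le_rfl (by linarith) (by linarith)
      have h0 : 0 ≤ θ ^ (1 / 1152 : ℝ) := Real.rpow_nonneg hθ.1.le _
      have h2 : ENNReal.ofReal (θ ^ (1 / 1152 : ℝ)) *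
          ENNReal.ofReal (r * ms u r (fun τ => X τ z) (s - 2 * r ^ 2) (s - θ * r ^ 2))
          ≤ ENNReal.ofReal (ε0 * r) := by
        rw [h1, ← lintegral_const_mul' _ _ ENNReal.ofReal_ne_top]
        refine le_trans ?_ hlt.le
        calc ∫⁻ τ in Ioo (s - 2 * r ^ 2) (s - θ * r ^ 2), ENNReal.ofReal (θ ^ (1 / 1152 : ℝ)) *
              ∫⁻ y in ball (X τ z) (8 * r) ∩ O, ENNReal.ofReal (gsq (u τ) y)
            ≤ ∫⁻ τ in Ioo (s - 2 * r ^ 2) (s - θ * r ^ 2),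
              ENNReal.ofReal (((s - τ) / r ^ 2) ^ (1 / 1152 : ℝ)) *
              ∫⁻ y in ball (X τ z) (8 * r) ∩ O, ENNReal.ofReal (gsq (u τ) y) := by
              apply setLIntegral_mono' measurableSet_Ioo
              intro τ hτ
              apply mul_le_mul_left
              apply ENNReal.ofReal_le_ofReal
              apply Real.rpow_le_rpow hθ.1.le _ (by norm_num)
              rw [le_div_iff₀ hr2]
              linarith [hτ.2]
          _ ≤ _ := lintegral_mono_set (Ioo_subset_Ioo le_rfl (by linarith))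
      rw [← ENNReal.ofReal_mul h0] at h2
      have h3 := (ENNReal.ofReal_le_ofReal_iff (by positivity)).1 h2
      have h4 : r * (θ ^ (1 / 1152 : ℝ) *
          ms u r (fun τ => X τ z) (s - 2 * r ^ 2) (s - θ * r ^ 2)) ≤ r * ε0 := by
        linarith only [h3]
      exact le_of_mul_le_mul_left h4 hr
    have hY : Pth ρ u (s - 3 * r ^ 2) s (fun τ => X' τ x) := Pth.ofFlow hX' x
    have hYX : ‖X' s x - X s z‖ ≤ r / 16 := by
      rw [hX'.fin x, hX.fin z, norm_sub_rev]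
      exact hz'.le
    have hmain := hall T κ E F O u p hκ hE hF hL (s - 3 * r ^ 2) s r hα hs2 hr hr1 (by linarith)
      hFr1 (fun τ => X τ z) hXz hball hwt J htot (fun τ => X' τ x) (by rw [← hρdef]; exact hY) hYX
    rw [← hρdef] at hmain
    have hOY : ∀ t ∈ Ioo (s - ρ ^ 2) s, ball (X' t x) (8 * ρ) ⊆ O := by
      intro t ht
      have h2 := pth_speed2 hCM hmol hκ hE hL (ρ := ρ) (r := r) hρ hρr hα hs2 hY (a := t)
        (b := s) (by linarith [ht.1]) ht.2.le le_rfl (by linarith [ht.1])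
      refine subset_trans ?_ (hO x hx)
      apply ball_subset_ball'
      rw [dist_comm, dist_eq_norm]
      rw [hX'.fin x] at h2
      have h3 : 0 ≤ CM * E * √r := by positivity
      have h1 : (11 + 4 * CM) * (r + E * √r) ≤ C * (r + E * √r) :=
        mul_le_mul_of_nonneg_right hC3 (by positivity)
      have h4 : 0 ≤ CM * r := by positivity
      linarith only [h1, h2, h3, h4, hEr, hr, hρr]
    obtain ⟨ht, hy, hbig⟩ := htx x hx
    have hbd := loc_bd hloc hCL hCM hmol hκ hE hF hL hρ hρ1 hα (by linarith) hs2 hX' hOY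
      (by linarith) hδ1 hδ2 (by rw [← hM]; exact hδ3) (t := tx x) (by linarith [ht.1])
      (hs3 x hx) hy
    rw [← hQ] at hbd
    linarith
  have hpack := W382.ME.pack (r := r / 2) (by positivity) S (by
    intro x hx y hy hxy
    have := hsep x hx y hy hxy
    linarith) hclaim
  have hmark := mark4 hL hr (a := s - 2 * r ^ 2) (b := s) (by linarith) (by linarith) hs2
    (X := X) (c := ENNReal.ofReal (Real.exp (CM * κ / √(r ^ 3) * (s - (s - 3 * r ^ 2)))))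
    (hX.cont.mono (prod_mono (Icc_subset_Icc_left (by linarith)) le_rfl))
    (fun t ht => hmeas t ⟨by linarith [ht.1], ht.2⟩) (meas_wt s r)
  obtain ⟨Jw, hJw⟩ : ∃ Jw : ℝ≥0∞, Jw = ∫⁻ τ in Ioo (T - 4 * r ^ 2) T,
    ENNReal.ofReal (((T - τ) / r ^ 2) ^ (1 / 1152 : ℝ)) *
      ∫⁻ y in O, ENNReal.ofReal (gsq (u τ) y) := ⟨_, rfl⟩
  rw [← hJw]
  have hmono : ∫⁻ τ in Ioo (s - 2 * r ^ 2) s, ENNReal.ofReal (((s - τ) / r ^ 2) ^ (1 / 1152 : ℝ)) *
      ∫⁻ y in O, ENNReal.ofReal (gsq (u τ) y) ≤ Jw := by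
    rw [hJw]
    calc ∫⁻ τ in Ioo (s - 2 * r ^ 2) s, ENNReal.ofReal (((s - τ) / r ^ 2) ^ (1 / 1152 : ℝ)) *
          ∫⁻ y in O, ENNReal.ofReal (gsq (u τ) y)
        ≤ ∫⁻ τ in Ioo (s - 2 * r ^ 2) s, ENNReal.ofReal (((T - τ) / r ^ 2) ^ (1 / 1152 : ℝ)) *
          ∫⁻ y in O, ENNReal.ofReal (gsq (u τ) y) := by
          apply setLIntegral_mono' measurableSet_Ioo
          intro τ hτ
          apply mul_le_mul_left
          apply ENNReal.ofReal_le_ofReal
          apply Real.rpow_le_rpow _ _ (by norm_num)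
          · exact div_nonneg (by linarith [hτ.2]) hr2.le
          · exact div_le_div_of_nonneg_right (by linarith) hr2.le
      _ ≤ _ := lintegral_mono_set (Ioo_subset_Ioo (by linarith) hs2.le)
  have hfin2 : S.card * (ENNReal.ofReal (ε0 * r) * ENNReal.ofReal ((r / 2 / 4) ^ 3))
      ≤ ENNReal.ofReal 3 * ENNReal.ofReal (4096 * r ^ 3) * Jw := by
    refine (hpack.trans hmark).trans ?_
    gcongr
  have hk : ENNReal.ofReal (512 / (ε0 * r ^ 3)) * (S.card * (ENNReal.ofReal (ε0 * r) *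
      ENNReal.ofReal ((r / 2 / 4) ^ 3))) ≤ ENNReal.ofReal (512 / (ε0 * r ^ 3)) *
        (ENNReal.ofReal 3 * ENNReal.ofReal (4096 * r ^ 3) * Jw) := by gcongr
  calc ENNReal.ofReal (S.card * r) = ENNReal.ofReal (512 / (ε0 * r ^ 3)) *
        (S.card * (ENNReal.ofReal (ε0 * r) * ENNReal.ofReal ((r / 2 / 4) ^ 3))) := by
        rw [← ENNReal.ofReal_mul (by positivity), ← ENNReal.ofReal_natCast S.card,
          ← ENNReal.ofReal_mul (by positivity), ← ENNReal.ofReal_mul (by positivity)]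
        congr 1
        field_simp
        ring
    _ ≤ _ := hk
    _ = ENNReal.ofReal (3 * 4096 * 512 / ε0) * Jw := by
        rw [← mul_assoc, ← ENNReal.ofReal_mul (by positivity), ← ENNReal.ofReal_mul (by positivity)]
        congr 2
        field_simp
    _ ≤ _ := by gcongr

end Pool.Agent.TH305.LW
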