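import Pool.Agent.TH305.LW.Pth

/-!
Late window lemma (helper305): displacement of paths at two scales.
-/

set_option autoImplicit false

open MeasureTheory Set Metric Filter Topology
open scoped ContDiff

namespace Pool.Agent.TH305.LW

open H459R3.NS W221.NS W221.NS.B Pool.Agent.W12.MD

/-! ### Real analysis -/

/-- A continuation argument. -/
lemma cont_arg {f : ℝ → ℝ} {p β A B : ℝ} (hf : ContinuousOn f (Icc p β)) (hAB : A < B)
    (h : ∀ τ ∈ Icc p β, (∀ τ' ∈ Icc τ β, f τ' ≤ B) → f τ ≤ A) (h0 : f β ≤ A) :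
    ∀ τ ∈ Icc p β, f τ ≤ A := by
  intro τ1 hτ1
  by_contra hcon
  rw [not_le] at hcon
  obtain ⟨l, hl⟩ : ∃ l, l = min B (f τ1) := ⟨_, rfl⟩
  have hlA : A < l := by rw [hl]; exact lt_min hAB hcon
  have hlB : l ≤ B := by rw [hl]; exact min_le_left _ _
  have hl1 : l ≤ f τ1 := by rw [hl]; exact min_le_right _ _
  have hf1 : ContinuousOn f (Icc τ1 β) := hf.mono (Icc_subset_Icc_left hτ1.1)
  have hS : IsCompact {τ ∈ Icc τ1 β | l ≤ f τ} := by
    have : {τ ∈ Icc τ1 β | l ≤ f τ} = Icc τ1 β ∩ f ⁻¹' Ici l := by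
      ext x; simp
    rw [this]
    have h1 : IsClosed (Icc τ1 β ∩ f ⁻¹' Ici l) := hf1.preimage_isClosed_of_isClosed isClosed_Icc
      isClosed_Ici
    exact isCompact_Icc.of_isClosed_subset h1 inter_subset_left
  have hne : ({τ ∈ Icc τ1 β | l ≤ f τ}).Nonempty := ⟨τ1, ⟨le_rfl, hτ1.2⟩, hl1⟩
  obtain ⟨τ2, ⟨hτ2, hτ2l⟩, hmax⟩ := hS.exists_isGreatest hne
  have hlt : ∀ τ' ∈ Ioc τ2 β, f τ' < l := by
    intro τ' hτ'
    by_contra hc
    rw [not_lt] at hc
    have := hmax ⟨⟨hτ2.1.trans hτ'.1.le, hτ'.2⟩, hc⟩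
    linarith [hτ'.1]
  have hτ2β : τ2 < β := by
    rcases hτ2.2.lt_or_eq with h | h
    · exact h
    · rw [h] at hτ2l
      linarith
  have hle : f τ2 ≤ l := by
    have hc : ContinuousWithinAt f (Icc τ1 β) τ2 := hf1 τ2 hτ2
    have hc2 : Tendsto f (𝓝[Ioc τ2 β] τ2) (𝓝 (f τ2)) :=
      hc.mono_left (nhdsWithin_mono _ fun x hx => ⟨hτ2.1.trans hx.1.le, hx.2⟩)
    have : (𝓝[Ioc τ2 β] τ2).NeBot := by
      rw [nhdsWithin_Ioc_eq_nhdsGT hτ2β]
      infer_instance
    refine le_of_tendsto hc2 ?_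
    filter_upwards [self_mem_nhdsWithin] with x hx
    exact (hlt x hx).le
  have := h τ2 ⟨hτ1.1.trans hτ2.1, hτ2.2⟩ (by
    intro τ' hτ'
    rcases hτ'.1.lt_or_eq with h' | h'
    · exact (hlt τ' ⟨h', hτ'.2⟩).le.trans hlB
    · rw [← h']; exact hle.trans hlB)
  linarith

lemma abs_sub_le_int {f f' g : ℝ → ℝ} {a b : ℝ} (hab : a ≤ b) (hc : ContinuousOn f (Icc a b))
    (hd : ∀ x ∈ Ioo a b, HasDerivAt f (f' x) x) (hg : IntegrableOn g (Icc a b))
    (hb : ∀ x ∈ Ioo a b, |f' x| ≤ g x) : |f b - f a| ≤ ∫ x in a..b, g x := by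
  rw [abs_le']
  constructor
  · apply intervalIntegral.sub_le_integral_of_hasDeriv_right_of_le hab hc
      (fun x hx => (hd x hx).hasDerivWithinAt) hg
    exact fun x hx => (le_abs_self _).trans (hb x hx)
  · have h1 := intervalIntegral.sub_le_integral_of_hasDeriv_right_of_le (g := fun x => -f x)
      (g' := fun x => -f' x) hab hc.neg (fun x hx => (hd x hx).neg.hasDerivWithinAt) hg
      (fun x hx => (neg_le_abs _).trans (hb x hx))
    linarith

/-! ### Mollified fields -/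

/-- The average of `v` around `ζ` at scale `ρ`. -/
noncomputable def mv (ρ : ℝ) (v : V → V) (ζ : V) (i : Fin 3) : ℝ := ∫ w, th w * v (ζ + ρ • w) i

lemma mv_early {v : V → V} (hv : ContDiff ℝ ∞ v) {ρ S : ℝ} (hρ : 0 < ρ) {ζ : V} {i : Fin 3}
    (h : ∀ z ∈ ball ζ ρ, |v z i| ≤ S) : |mv ρ v ζ i| ≤ S := by
  unfold mv
  have hc : Continuous (fun w => v (ζ + ρ • w) i) :=
    (smooth_comp hv i).continuous.comp (by fun_prop)
  have h1 : |∫ w, th w * v (ζ + ρ • w) i| ≤ ∫ w, th w * S := by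
    refine (abs_integral_le_integral_abs).trans ?_
    apply integral_mono (th_mul_int hc).abs (th_mul_int continuous_const)
    intro w
    show |th w * v (ζ + ρ • w) i| ≤ th w * S
    rw [abs_mul, abs_of_nonneg (th_nonneg w)]
    by_cases hw : w ∈ ball (0 : V) 1
    · apply mul_le_mul_of_nonneg_left _ (th_nonneg w)
      apply h
      rw [mem_ball, dist_eq_norm, add_sub_cancel_left, norm_smul, Real.norm_of_nonneg hρ.le]
      rw [mem_ball, dist_zero_right] at hw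
      nlinarith [norm_nonneg w]
    · rw [th_zero hw, zero_mul, zero_mul]
  rw [integral_mul_const, th_int, one_mul] at h1
  exact h1

lemma mv_late : ∃ C : ℝ, 0 < C ∧ ∀ v : V → V, ContDiff ℝ ∞ v → (∀ i, ∫ z, th z * v z i = 0) →
    ∀ ρ : ℝ, 0 < ρ → ρ ≤ 1 → ∀ ζ ∈ ball (0 : V) 1, ∀ i,
      |mv ρ v ζ i| ≤ C * (ρ ^ 3)⁻¹ * √(B2 0 2 v) := by
  obtain ⟨Ct, hCt, hth⟩ := th_bdd
  obtain ⟨CP, hCP, hpo⟩ := p_poinc
  refine ⟨Ct * 8 * √CP, by positivity, ?_⟩
  intro v hv hmean ρ hρ hρ1 ζ hζ i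
  have hvi := (smooth_comp hv i).continuous
  have hc : Continuous (fun w => v (ζ + ρ • w) i) := hvi.comp (by fun_prop)
  have h1 : |mv ρ v ζ i| ≤ ∫ w, th w * |v (ζ + ρ • w) i| := by
    unfold mv
    refine (abs_integral_le_integral_abs).trans (le_of_eq ?_)
    congr 1
    funext w
    rw [abs_mul, abs_of_nonneg (th_nonneg w)]
  have h2 : ∫ w, th w * |v (ζ + ρ • w) i| ≤ Ct * ∫ w in ball (0 : V) 1, |v (ζ + ρ • w) i| :=
    th_int_le hth hc.abs (fun _ => abs_nonneg _) le_rfl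
  have h3 : ∫ w in ball (0 : V) 1, |v (ζ + ρ • w) i|
      = (ρ ^ 3)⁻¹ * ∫ y in ball ζ (ρ * 1), |v y i| :=
    W382.ME.cov (fun y => |v y i|) ζ hρ
  have h4 : ∫ y in ball ζ (ρ * 1), |v y i| ≤ ∫ y in ball (0 : V) 2, |v y i| := by
    apply setIntegral_mono_set (intB hvi.abs _ _)
    · exact Eventually.of_forall fun _ => abs_nonneg _
    · apply Filter.Eventually.of_forall
      intro y hy
      have hy' : dist y ζ < ρ * 1 := hy
      have hζ' : dist ζ 0 < 1 := hζ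
      show dist y 0 < 2
      linarith [dist_triangle y ζ 0]
  have h5 : ∫ y in ball (0 : V) 2, |v y i| ≤ 8 * √(A2 0 2 v) := by
    have h6 := W162.MD.cs_ball (f := fun _ => (1 : ℝ)) continuous_const hvi.abs 0 2
    have h7 : ∫ _x in ball (0 : V) 2, (1 : ℝ) ^ 2 = 64 := by
      simp only [one_pow]
      rw [setIntegral_const, Measure.real, Real.volume_pi_ball _ (by norm_num), smul_eq_mul]
      simp
      norm_num
    have h8 : √(64 : ℝ) = 8 := by
      rw [show (64 : ℝ) = 8 ^ 2 by norm_num]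
      exact Real.sqrt_sq (by norm_num)
    rw [h7, h8] at h6
    simp only [one_mul] at h6
    have h9 : ∫ x in ball (0 : V) 2, |v x i| ^ 2 ≤ A2 0 2 v := by
      unfold A2
      apply setIntegral_mono (intB (hvi.abs.pow 2) _ _)
        (intB (W612.MD.nsq_cont hv) _ _)
      intro x
      show |v x i| ^ 2 ≤ nsq v x
      rw [sq_abs]
      exact Finset.single_le_sum (f := fun i => v x i ^ 2) (fun _ _ => sq_nonneg _)
        (Finset.mem_univ i)
    exact (le_abs_self _).trans (h6.trans (mul_le_mul_of_nonneg_left (Real.sqrt_le_sqrt h9)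
      (by norm_num)))
  have h10 : √(A2 0 2 v) ≤ √CP * √(B2 0 2 v) := by
    rw [← Real.sqrt_mul hCP.le]
    exact Real.sqrt_le_sqrt (hpo v hv hmean)
  have hρ3 : 0 < (ρ ^ 3)⁻¹ := by positivity
  calc |mv ρ v ζ i| ≤ Ct * ((ρ ^ 3)⁻¹ * ∫ y in ball ζ (ρ * 1), |v y i|) := by
        rw [← h3]; exact h1.trans h2
    _ ≤ Ct * ((ρ ^ 3)⁻¹ * (8 * (√CP * √(B2 0 2 v)))) := by
        apply mul_le_mul_of_nonneg_left _ hCt.le
        apply mul_le_mul_of_nonneg_left _ hρ3.le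
        refine h4.trans (h5.trans ?_)
        exact mul_le_mul_of_nonneg_left h10 (by norm_num)
    _ = _ := by ring

lemma mol_sub {u : ℝ → V → V} {τ : ℝ} (hu : ContDiff ℝ ∞ (u τ)) {r : ℝ} (hr : 0 < r) (ρ : ℝ)
    (x y c : V) (i : Fin 3) : mol (ρ * r) u τ y i - c i
      = r⁻¹ * mv ρ (fun z i => r * (u τ (x + r • z) i - c i)) (r⁻¹ • (y - x)) i := by
  unfold mol mv
  have e : ∀ w : V, x + r • (r⁻¹ • (y - x) + ρ • w) = y + (ρ * r) • w := by
    intro w
    rw [smul_add, smul_smul, mul_inv_cancel₀ hr.ne', one_smul, smul_smul, mul_comm r ρ]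
    abel
  simp_rw [e]
  have hc : Continuous (fun w => u τ (y + (ρ * r) • w) i) :=
    (smooth_comp hu i).continuous.comp (by fun_prop)
  have h1 : ∫ w, th w * (r * (u τ (y + (ρ * r) • w) i - c i))
      = r * ((∫ w, th w * u τ (y + (ρ * r) • w) i) - c i) := by
    have e2 : ∀ w : V, th w * (r * (u τ (y + (ρ * r) • w) i - c i))
        = r * (th w * u τ (y + (ρ * r) • w) i - th w * c i) := fun w => by ring
    simp_rw [e2]
    rw [integral_const_mul, integral_sub (th_mul_int hc) (th_mul_int continuous_const),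
      integral_mul_const, th_int, one_mul]
  rw [h1, ← mul_assoc, inv_mul_cancel₀ hr.ne', one_mul]

/-- the field in the moving frame, in absolute time. -/
noncomputable def fr (r : ℝ) (X : ℝ → V) (u : ℝ → V → V) (τ : ℝ) (z : V) : V :=
  fun i => r * (u τ (X τ + r • z) i - mol r u τ (X τ) i)

lemma fr_smooth {r : ℝ} {X : ℝ → V} {u : ℝ → V → V} {τ : ℝ} (hu : ContDiff ℝ ∞ (u τ)) :
    ContDiff ℝ ∞ (fr r X u τ) := by
  unfold fr
  rw [contDiff_pi]
  intro i
  have h1 : ContDiff ℝ ∞ (fun z : V => X τ + r • z) := by fun_prop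
  exact contDiff_const.mul (((smooth_comp hu i).comp h1).sub contDiff_const)

lemma fr_mean {r : ℝ} {X : ℝ → V} {u : ℝ → V → V} {τ : ℝ} (hu : ContDiff ℝ ∞ (u τ)) (i : Fin 3) :
    ∫ z, th z * fr r X u τ z i = 0 := by
  unfold fr
  have hc : Continuous (fun w => u τ (X τ + r • w) i) :=
    (smooth_comp hu i).continuous.comp (by fun_prop)
  have e2 : ∀ w : V, th w * (r * (u τ (X τ + r • w) i - mol r u τ (X τ) i))
      = r * (th w * u τ (X τ + r • w) i - th w * mol r u τ (X τ) i) := fun w => by ring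
  simp_rw [e2]
  rw [integral_const_mul, integral_sub (th_mul_int hc) (th_mul_int continuous_const),
    integral_mul_const, th_int, one_mul]
  unfold mol
  rw [sub_self, mul_zero]

lemma frv_eq_fr {r s t : ℝ} {X : ℝ → V} {u : ℝ → V → V}
    (hX : HasDerivAt X (mol r u (s + r ^ 2 * t) (X (s + r ^ 2 * t))) (s + r ^ 2 * t)) :
    frv r s X u t = fr r X u (s + r ^ 2 * t) := by
  funext z i
  unfold frv fr
  rw [((hasDerivAt_pi.1 hX) i).deriv]

lemma B2_fr {r R : ℝ} {X : ℝ → V} {u : ℝ → V → V} {τ : ℝ} (hr : 0 < r) (hu : ContDiff ℝ ∞ (u τ)) :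
    B2 0 R (fr r X u τ) = r * B2 (X τ) (r * R) (u τ) := by
  unfold B2
  have h : ∀ z, gsq (fr r X u τ) z = r ^ 4 * gsq (u τ) (X τ + r • z) := by
    intro w
    unfold gsq
    rw [Finset.mul_sum]
    refine Finset.sum_congr rfl fun i _ => ?_
    rw [Finset.mul_sum]
    refine Finset.sum_congr rfl fun j _ => ?_
    have h := W382.ME.pd_scale hu r (X τ) (fun i => mol r u τ (X τ) i) i j w
    change pd j (fun y => fr r X u τ y i) w = _ at h
    rw [h]
    ring
  simp_rw [h]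
  rw [integral_const_mul, W382.ME.cov _ _ hr]
  field_simp

/-- The difference of the velocities of two paths. -/
lemma vel_sub {r ρ : ℝ} {X Y : ℝ → V} {u : ℝ → V → V} {τ : ℝ} (hr : 0 < r)
    (hu : ContDiff ℝ ∞ (u τ)) (i : Fin 3) :
    mol (ρ * r) u τ (Y τ) i - mol r u τ (X τ) i
      = r⁻¹ * mv ρ (fr r X u τ) (r⁻¹ • (Y τ - X τ)) i :=
  mol_sub hu hr ρ (X τ) (Y τ) (mol r u τ (X τ)) i

lemma sqrt_le_half {x l : ℝ} (hx : 0 ≤ x) (hl : 0 < l) : √x ≤ l * x + 1 / l := by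
  have h1 := Real.sq_sqrt hx
  have h2 := Real.sqrt_nonneg x
  have h3 : 0 ≤ (l * √x - 1) ^ 2 / l := by positivity
  have h4 : (l * √x - 1) ^ 2 / l = l * √x ^ 2 - 2 * √x + 1 / l := by
    field_simp
    ring
  rw [h4, h1] at h3
  linarith

end Pool.Agent.TH305.LW
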