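import Pool.Agent.TH305.LW.Disp

/-!
Late window lemma (helper305): displacement of paths at two scales, bounds.
-/

set_option autoImplicit false

open MeasureTheory Set Metric Filter Topology
open scoped ContDiff

namespace Pool.Agent.TH305.LW

open H459R3.NS W221.NS W221.NS.B Pool.Agent.W12.MD

section
variable {T : ℝ} {u : ℝ → V → V}

lemma B2_ii (hu : ContDiffOn ℝ ∞ (fun z : ℝ × V => u z.1 z.2) (Ioo 0 T ×ˢ univ)) {α β : ℝ}
    (hα : 0 < α) (hβ : β < T) {Y : ℝ → V} (hY : ContinuousOn Y (Icc α β)) (R : ℝ) {a b : ℝ}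
    (ha : α ≤ a) (hab : a ≤ b) (hb : b ≤ β) :
    IntervalIntegrable (fun τ => B2 (Y τ) R (u τ)) volume a b := by
  apply ContinuousOn.intervalIntegrable
  rw [uIcc_of_le hab]
  exact (mass_cont hu hα hβ (ha.trans (hab.trans hb)) hY R).mono (Icc_subset_Icc ha hb)

lemma ms_mono (hu : ContDiffOn ℝ ∞ (fun z : ℝ × V => u z.1 z.2) (Ioo 0 T ×ˢ univ)) {α β : ℝ}
    (hα : 0 < α) (hβ : β < T) {Y : ℝ → V} (hY : ContinuousOn Y (Icc α β)) {ρ : ℝ} (hρ : 0 < ρ)
    {a a' b b' : ℝ} (ha : α ≤ a') (haa : a' ≤ a) (hab : a ≤ b) (hbb : b ≤ b') (hb : b' ≤ β) :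
    ms u ρ Y a b ≤ ms u ρ Y a' b' := by
  unfold ms
  apply mul_le_mul_of_nonneg_left _ (by positivity)
  apply intervalIntegral.integral_mono_interval haa hab hbb
  · exact Eventually.of_forall fun τ => W612.MD.B2_nonneg _ _ _
  · exact B2_ii hu hα hβ hY _ ha (by linarith) hb

lemma ms_nonneg {ρ : ℝ} (hρ : 0 < ρ) {Y : ℝ → V} {a b : ℝ} (hab : a ≤ b) : 0 ≤ ms u ρ Y a b := by
  unfold ms
  exact mul_nonneg (by positivity)
    (intervalIntegral.integral_nonneg hab fun τ _ => W612.MD.B2_nonneg _ _ _)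

lemma disp_i (hu : ContDiffOn ℝ ∞ (fun z : ℝ × V => u z.1 z.2) (Ioo 0 T ×ˢ univ)) {α β r ρ : ℝ}
    (hα : 0 < α) (hβ : β < T) (hr : 0 < r) {X Y : ℝ → V} (hX : Pth r u α β X)
    (hY : Pth (ρ * r) u α β Y) {a b : ℝ} (ha : α ≤ a) (hab : a ≤ b) (hb : b ≤ β) {g : ℝ → ℝ}
    (hg : IntegrableOn g (Icc a b))
    (h : ∀ τ ∈ Ioo a b, ∀ i, |mv ρ (fr r X u τ) (r⁻¹ • (Y τ - X τ)) i| ≤ g τ) :
    ‖(Y b - X b) - (Y a - X a)‖ ≤ r⁻¹ * ∫ τ in a..b, g τ := by
  have hri : 0 < r⁻¹ := by positivity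
  have hg0 : 0 ≤ ∫ τ in a..b, g τ := by
    rw [intervalIntegral.integral_of_le hab, integral_Ioc_eq_integral_Ioo]
    apply setIntegral_nonneg measurableSet_Ioo
    intro τ hτ
    exact (abs_nonneg _).trans (h τ hτ 0)
  rw [pi_norm_le_iff_of_nonneg (by positivity)]
  intro i
  have hc : ContinuousOn (fun τ => Y τ i - X τ i) (Icc a b) := by
    have h1 := (continuousOn_pi.1 (hY.cont.mono (Icc_subset_Icc ha hb))) i
    have h2 := (continuousOn_pi.1 (hX.cont.mono (Icc_subset_Icc ha hb))) i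
    exact h1.sub h2
  have h3 := abs_sub_le_int (f := fun τ => Y τ i - X τ i)
    (f' := fun τ => mol (ρ * r) u τ (Y τ) i - mol r u τ (X τ) i) (g := fun τ => r⁻¹ * g τ) hab hc
    (fun τ hτ => by
      have hτ' : τ ∈ Ioo α β := ⟨ha.trans_lt hτ.1, hτ.2.trans_le hb⟩
      exact ((hasDerivAt_pi.1 (hY.ode τ hτ')) i).sub ((hasDerivAt_pi.1 (hX.ode τ hτ')) i))
    (hg.const_mul _)
    (fun τ hτ => by
      have hτT : τ ∈ Ioo 0 T := ⟨by linarith [hτ.1], by linarith [hτ.2]⟩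
      rw [vel_sub hr (W382.ME.cd_slice hu hτT) i, abs_mul, abs_of_pos hri]
      exact mul_le_mul_of_nonneg_left (h τ hτ i) hri.le)
  rw [intervalIntegral.integral_const_mul] at h3
  rw [Real.norm_eq_abs]
  exact h3

/-- Displacement over short times. -/
theorem late_disp : ∃ C : ℝ, 0 < C ∧ ∀ (T : ℝ) (u : ℝ → V → V),
    ContDiffOn ℝ ∞ (fun z : ℝ × V => u z.1 z.2) (Ioo 0 T ×ˢ univ) → ∀ (α β r ρ : ℝ), 0 < α →
    β < T → 0 < r → 0 < ρ → ρ ≤ 1 → ∀ X Y : ℝ → V, Pth r u α β X → Pth (ρ * r) u α β Y →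
    ∀ p ∈ Icc α β, ∀ l : ℝ, 0 < l →
    C * (ρ ^ 3)⁻¹ * (l * ms u r X p β + (β - p) / (r ^ 2 * l)) ≤ 1 / 4 → ‖Y β - X β‖ ≤ r / 4 →
    ∀ τ ∈ Icc p β, ‖(Y τ - X τ) - (Y β - X β)‖
      ≤ r * (C * (ρ ^ 3)⁻¹ * (l * ms u r X p β + (β - p) / (r ^ 2 * l))) := by
  obtain ⟨C, hC, hmv⟩ := mv_late
  refine ⟨C, hC, ?_⟩
  intro T u hu α β r ρ hα hβ hr hρ hρ1 X Y hX hY p hp l hl hb h0
  obtain ⟨b, hbd⟩ : ∃ b, b = C * (ρ ^ 3)⁻¹ * (l * ms u r X p β + (β - p) / (r ^ 2 * l)) := ⟨_, rfl⟩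
  rw [← hbd] at hb ⊢
  have hb0 : 0 ≤ b := by
    rw [hbd]
    have := ms_nonneg (u := u) (Y := X) hr hp.2
    have h1 : 0 ≤ β - p := by linarith [hp.2]
    positivity
  have hcont : ContinuousOn (fun τ => ‖(Y τ - X τ) - (Y β - X β)‖) (Icc p β) := by
    have h1 := hY.cont.mono (Icc_subset_Icc hp.1 le_rfl)
    have h2 := hX.cont.mono (Icc_subset_Icc hp.1 le_rfl)
    exact ((h1.sub h2).sub continuousOn_const).norm
  apply cont_arg (B := r / 2) hcont
  · nlinarith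
  · intro τ hτ hB
    have hατ : α ≤ τ := hp.1.trans hτ.1
    have hB2i := B2_ii hu hα hβ hX.cont (8 * r) hατ hτ.2 le_rfl
    obtain ⟨g, hg⟩ : ∃ g : ℝ → ℝ, g = fun x => C * (ρ ^ 3)⁻¹ *
      (l * (r * B2 (X x) (8 * r) (u x)) + 1 / l) := ⟨_, rfl⟩
    have hgi : IntervalIntegrable g volume τ β := by
      rw [hg]
      exact (((hB2i.const_mul r).const_mul l).add intervalIntegrable_const).const_mul _
    have h1 := disp_i hu hα hβ hr hX hY hατ hτ.2 le_rfl (g := g)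
      ((intervalIntegrable_iff_integrableOn_Icc_of_le hτ.2).1 hgi) (by
        intro x hx i
        have hxT : x ∈ Ioo 0 T := ⟨by linarith [hx.1], by linarith [hx.2]⟩
        have hux := W382.ME.cd_slice hu hxT
        have hζ : r⁻¹ • (Y x - X x) ∈ ball (0 : V) 1 := by
          rw [mem_ball, dist_zero_right, norm_smul, norm_inv, Real.norm_of_nonneg hr.le,
            inv_mul_lt_iff₀ hr]
          have h2 := hB x ⟨hx.1.le, hx.2.le⟩
          have h3 : ‖Y x - X x‖ ≤ ‖(Y x - X x) - (Y β - X β)‖ + ‖Y β - X β‖ := by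
            calc ‖Y x - X x‖ = ‖((Y x - X x) - (Y β - X β)) + (Y β - X β)‖ := by
                  rw [sub_add_cancel]
              _ ≤ _ := norm_add_le _ _
          linarith
        have h4 := hmv (fr r X u x) (fr_smooth hux) (fr_mean hux) ρ hρ hρ1 _ hζ i
        refine h4.trans ?_
        rw [hg]
        apply mul_le_mul_of_nonneg_left _ (by positivity)
        have h5 : B2 0 2 (fr r X u x) ≤ r * B2 (X x) (8 * r) (u x) := by
          rw [B2_fr hr hux]
          apply mul_le_mul_of_nonneg_left _ hr.le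
          apply B2_mono hux
          apply ball_subset_ball
          linarith
        refine (sqrt_le_half (W612.MD.B2_nonneg _ _ _) hl).trans ?_
        have := mul_le_mul_of_nonneg_left h5 hl.le
        linarith)
    rw [norm_sub_rev]
    refine h1.trans ?_
    have h2 : ∫ x in τ..β, g x = C * (ρ ^ 3)⁻¹ *
        (l * (r * (r * ms u r X τ β)) + (β - τ) / l) := by
      rw [hg, intervalIntegral.integral_const_mul,
        intervalIntegral.integral_add ((hB2i.const_mul r).const_mul l) intervalIntegrable_const,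
        intervalIntegral.integral_const_mul, intervalIntegral.integral_const_mul,
        intervalIntegral.integral_const, smul_eq_mul]
      unfold ms
      field_simp
    rw [h2]
    have h3 : ms u r X τ β ≤ ms u r X p β :=
      ms_mono hu hα hβ hX.cont hr hp.1 hτ.1 hτ.2 le_rfl le_rfl
    have h4 : β - τ ≤ β - p := by linarith [hτ.1]
    rw [hbd]
    have e1 : r⁻¹ * (C * (ρ ^ 3)⁻¹ * (l * (r * (r * ms u r X τ β)) + (β - τ) / l))
        = r * (C * (ρ ^ 3)⁻¹ * (l * ms u r X τ β + (β - τ) / (r ^ 2 * l))) := by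
      field_simp
    rw [e1]
    gcongr
  · simp only [sub_self, norm_zero]
    positivity

end

end Pool.Agent.TH305.LW
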