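import Pool.Agent.TH305.LW.Rate

/-!
Late window lemma (helper305): the rate at early times.
-/

set_option autoImplicit false

open MeasureTheory Set Metric
open scoped ContDiff

namespace Pool.Agent.TH305.LW

open H459R3.NS W221.NS W221.NS.B

lemma eight_rr (k : ℕ) : (8 : ℝ) ^ k * rr k ^ 3 = 1 := by
  have h2 := two_rr k
  have h8 : (8 : ℝ) ^ k = (2 ^ k) ^ 3 := by
    rw [← pow_mul, mul_comm, pow_mul]; norm_num
  rw [h8, ← mul_pow, h2, one_pow]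

lemma int_small {f : V → ℝ} (hf : Continuous f) {a : V} {N : ℝ} (k : ℕ)
    (h : ∀ z ∈ ball a (rr k), f z ≤ N) : 8 ^ k * ∫ z in ball a (rr k), f z ≤ 8 * N := by
  have h1 : ∫ z in ball a (rr k), f z ≤ ∫ _z in ball a (rr k), N :=
    setIntegral_mono_on (Pool.Agent.W386.MD.iob hf _ _)
      (Pool.Agent.W386.MD.iob continuous_const _ _) measurableSet_ball h
  have h2 : ∫ _z in ball a (rr k), N = (2 * rr k) ^ 3 * N := by
    rw [setIntegral_const, Measure.real, Real.volume_pi_ball _ (rr_pos' k), smul_eq_mul,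
      ENNReal.toReal_ofReal (by have := rr_pos' k; positivity)]
    simp only [Fintype.card_fin]
  rw [h2] at h1
  have h3 := mul_le_mul_of_nonneg_left h1 (show (0 : ℝ) ≤ 8 ^ k by positivity)
  have h4 := eight_rr k
  have h5 : (8 : ℝ) ^ k * ((2 * rr k) ^ 3 * N) = 8 * (8 ^ k * rr k ^ 3) * N := by ring
  rw [h5, h4, mul_one] at h3
  exact h3

lemma nsq_bd {W : V → V} {z : V} {B : ℝ} (h : ∀ i, |W z i| ≤ B) : nsq W z ≤ 3 * B ^ 2 := by
  unfold nsq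
  have h1 : ∀ i ∈ Finset.univ, W z i ^ 2 ≤ B ^ 2 := by
    intro i _
    rw [← sq_abs]
    exact pow_le_pow_left₀ (abs_nonneg _) (h i) 2
  refine (Finset.sum_le_card_nsmul _ _ _ h1).trans (le_of_eq ?_)
  simp

lemma Y_le {W : V → V} (hW : ContDiff ℝ ∞ W) (a : V) (k : ℕ) :
    ∫ z, nsq W z * tf k a z ≤ 8 ^ k * A2 a (rr k) W := by
  refine (le_abs_self _).trans (wt_bound hW (tf_smooth k a).continuous (tf_zero k a) ?_)
  intro z
  rw [abs_of_nonneg (tf_nonneg k a z)]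
  exact tf_le k a z

lemma sqrt_le_one_add {x : ℝ} (hx : 0 ≤ x) : √x ≤ 1 + x := by
  rw [Real.sqrt_le_left (by linarith)]
  nlinarith

lemma sum_two (k : ℕ) : ∑ j ∈ Finset.Ico 3 (k - 2), (2 : ℝ) ^ j ≤ 2 ^ k := by
  calc ∑ j ∈ Finset.Ico 3 (k - 2), (2 : ℝ) ^ j ≤ ∑ j ∈ Finset.range k, (2 : ℝ) ^ j := by
        apply Finset.sum_le_sum_of_subset_of_nonneg
        · intro j hj
          rw [Finset.mem_Ico] at hj
          exact Finset.mem_range.2 (by omega)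
        · intro j _ _
          positivity
    _ ≤ 2 ^ k := by
        rw [geom_sum_eq (by norm_num)]
        norm_num

lemma PS_early {W : V → V} (hW : ContDiff ℝ ∞ W) {a : V} (ha : a ∈ ball (0 : V) (1 / 8)) {k : ℕ}
    (hk : 5 ≤ k) {B : ℝ} (hB : 1 ≤ B) (h : ∀ z ∈ ball (0 : V) (1 / 4), ∀ i, |W z i| ≤ B) :
    PS a W k ≤ 81 * B ^ 2 * (2 ^ k * √(8 ^ k)) := by
  have hL : ∀ j, 3 ≤ j → √(L4 a (rr j) W) * √(8 ^ j) ≤ 9 * B ^ 2 := by
    intro j hj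
    have h1 : 8 ^ j * L4 a (rr j) W ≤ 8 * (3 * B ^ 2) ^ 2 := by
      refine int_small ((W612.MD.nsq_cont hW).pow 2) j ?_
      intro z hz
      exact pow_le_pow_left₀ (W612.MD.nsq_nonneg W z) (nsq_bd (h z (ball_rr_sub ha hj hz))) 2
    rw [← Real.sqrt_mul' _ (by positivity)]
    rw [Real.sqrt_le_left (by positivity)]
    nlinarith [sq_nonneg (B ^ 2)]
  have h8 : ∀ j : ℕ, 0 < √((8 : ℝ) ^ j) := fun j => Real.sqrt_pos.2 (by positivity)
  have t1 : 16 ^ k * √(L4 a (rr (k - 2)) W) ≤ 72 * B ^ 2 * (2 ^ k * √(8 ^ k)) := by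
    have h1 := hL (k - 2) (by omega)
    have e1 : √((8 : ℝ) ^ k) = 8 * √(8 ^ (k - 2)) := by
      have : (8 : ℝ) ^ k = 8 ^ 2 * 8 ^ (k - 2) := by
        rw [← pow_add]; congr 1; omega
      rw [this, Real.sqrt_mul (by positivity), Real.sqrt_sq (by norm_num)]
    have e2 : (16 : ℝ) ^ k = 2 ^ k * (√(8 ^ k) * √(8 ^ k)) := by
      rw [Real.mul_self_sqrt (by positivity), ← mul_pow]; norm_num
    rw [e2]
    have h2 : 0 ≤ 2 ^ k * √((8 : ℝ) ^ k) := by positivity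
    have h3 : √((8 : ℝ) ^ k) * √(L4 a (rr (k - 2)) W) ≤ 72 * B ^ 2 := by
      rw [e1]
      nlinarith
    have h4 := mul_le_mul_of_nonneg_left h3 h2
    linarith
  have t2 : ∑ j ∈ Finset.Ico 3 (k - 2), √(32 ^ j) * √(8 ^ k) * √(L4 a (rr j) W)
      ≤ 9 * B ^ 2 * (2 ^ k * √(8 ^ k)) := by
    have h1 : ∀ j ∈ Finset.Ico 3 (k - 2), √(32 ^ j) * √(8 ^ k) * √(L4 a (rr j) W)
        ≤ (9 * B ^ 2 * √(8 ^ k)) * 2 ^ j := by
      intro j hj
      rw [Finset.mem_Ico] at hj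
      have h2 := hL j hj.1
      have e1 : √((32 : ℝ) ^ j) = 2 ^ j * √(8 ^ j) := by
        have : (32 : ℝ) ^ j = (2 ^ j) ^ 2 * 8 ^ j := by
          rw [← pow_mul, mul_comm j 2, pow_mul, ← mul_pow]; norm_num
        rw [this, Real.sqrt_mul (by positivity), Real.sqrt_sq (by positivity)]
      rw [e1]
      have h3 : 0 ≤ 2 ^ j * √((8 : ℝ) ^ k) := by positivity
      have h4 := mul_le_mul_of_nonneg_left h2 h3
      calc 2 ^ j * √(8 ^ j) * √(8 ^ k) * √(L4 a (rr j) W)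
          = 2 ^ j * √(8 ^ k) * (√(L4 a (rr j) W) * √(8 ^ j)) := by ring
        _ ≤ 2 ^ j * √(8 ^ k) * (9 * B ^ 2) := h4
        _ = _ := by ring
    refine (Finset.sum_le_sum h1).trans ?_
    rw [← Finset.mul_sum]
    have h5 := mul_le_mul_of_nonneg_left (sum_two k)
      (show 0 ≤ 9 * B ^ 2 * √((8 : ℝ) ^ k) by positivity)
    linarith
  unfold PS
  linarith

/-- The rate at early times. -/
theorem early : ∀ B CR : ℝ, 1 ≤ B → 1 ≤ CR → ∃ K : ℝ, 0 < K ∧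
    ∀ (W : V → V), ContDiff ℝ ∞ W → ∀ a ∈ ball (0 : V) (1 / 8), ∀ k : ℕ, 5 ≤ k →
      (∀ z ∈ ball (0 : V) (1 / 4), ∀ i, |W z i| ≤ B) → ∀ (n : ℕ) (g : ℝ), 0 ≤ g →
      A2 0 (3 / 4) W ≤ CR * 4 ^ n →
      RR g (A2 0 (3 / 4) W) (A2 a (rr k) W) (∫ z, nsq W z * tf k a z) (PS a W k) k
        ≤ K * (4 ^ k + (1 + g) * (2 ^ k + 4 ^ n)) := by
  intro B CR hB hCR
  refine ⟨72 * B ^ 2 + 405 * B ^ 3 + 15 * B + 3 * CR, by positivity, ?_⟩
  intro W hW a ha k hk h n g hg hA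
  obtain ⟨b, hb⟩ : ∃ b, b = A2 a (rr k) W := ⟨_, rfl⟩
  obtain ⟨A, hA'⟩ : ∃ A, A = A2 0 (3 / 4) W := ⟨_, rfl⟩
  obtain ⟨Y, hY⟩ : ∃ Y, Y = ∫ z, nsq W z * tf k a z := ⟨_, rfl⟩
  obtain ⟨p, hp⟩ : ∃ p, p = PS a W k := ⟨_, rfl⟩
  have hb0 : 0 ≤ b := by rw [hb]; exact W612.MD.A2_nonneg _ _ _
  have hA0 : 0 ≤ A := by rw [hA']; exact W612.MD.A2_nonneg _ _ _
  have hY0 : 0 ≤ Y := by
    rw [hY]
    exact integral_nonneg fun z => mul_nonneg (W612.MD.nsq_nonneg _ z) (tf_nonneg k a z)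
  have hbB : 8 ^ k * b ≤ 24 * B ^ 2 := by
    have h1 : 8 ^ k * A2 a (rr k) W ≤ 8 * (3 * B ^ 2) := by
      refine int_small (W612.MD.nsq_cont hW) k ?_
      intro z hz
      exact nsq_bd (h z (ball_rr_sub ha (by omega) hz))
    rw [hb]
    linarith
  have hYB : Y ≤ 24 * B ^ 2 := by
    rw [hY]
    refine (Y_le hW a k).trans ?_
    rw [← hb]
    exact hbB
  have hpB := PS_early hW ha hk hB h
  rw [← hb, ← hA', ← hY, ← hp]
  rw [← hA'] at hA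
  rw [← hp] at hpB
  clear hp hY hA' hb h hW
  have hsb : √b * √(8 ^ k) ≤ 5 * B := by
    rw [← Real.sqrt_mul hb0, Real.sqrt_le_left (by positivity)]
    nlinarith
  have hsY : √Y ≤ 5 * B := by
    rw [Real.sqrt_le_left (by positivity)]
    nlinarith
  have hsg : √g ≤ 1 + g := sqrt_le_one_add hg
  have hsA : √A ≤ 1 + A := sqrt_le_one_add hA0
  have p2 : (1 : ℝ) ≤ 2 ^ k := one_le_pow₀ (by norm_num)
  have p4 : (1 : ℝ) ≤ 4 ^ n := one_le_pow₀ (by norm_num)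
  have sg0 : 0 ≤ √g := Real.sqrt_nonneg _
  have sb0 : 0 ≤ √b := Real.sqrt_nonneg _
  have sY0 : 0 ≤ √Y := Real.sqrt_nonneg _
  have s80 : 0 ≤ √((8 : ℝ) ^ k) := Real.sqrt_nonneg _
  have hg1 : 0 ≤ 1 + g := by linarith
  obtain ⟨x, hx⟩ : ∃ x : ℝ, x = 2 ^ k := ⟨_, rfl⟩
  obtain ⟨y, hy⟩ : ∃ y : ℝ, y = 4 ^ n := ⟨_, rfl⟩
  obtain ⟨s, hs⟩ : ∃ s : ℝ, s = √((8 : ℝ) ^ k) := ⟨_, rfl⟩
  have e32 : (32 : ℝ) ^ k * b = 4 ^ k * (8 ^ k * b) := by
    rw [← mul_assoc, ← mul_pow]; norm_num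
  have e16 : (16 : ℝ) ^ k * b = 2 ^ k * (8 ^ k * b) := by
    rw [← mul_assoc, ← mul_pow]; norm_num
  unfold RR
  rw [e32, e16]
  rw [← hx, ← hs] at hpB
  rw [← hx] at p2
  rw [← hs] at hsb s80
  rw [← hy] at hA p4
  rw [← hx, ← hs, ← hy]
  have b1 : 4 ^ k * (8 ^ k * b) ≤ 24 * B ^ 2 * 4 ^ k := by
    have := mul_le_mul_of_nonneg_left hbB (show (0 : ℝ) ≤ 4 ^ k by positivity)
    linarith
  have hx0 : 0 < x := by linarith
  have hy0 : 0 < y := by linarith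
  have b2 : √g * (x * (8 ^ k * b)) ≤ 24 * B ^ 2 * ((1 + g) * x) := by
    have h1 : x * (8 ^ k * b) ≤ x * (24 * B ^ 2) := mul_le_mul_of_nonneg_left hbB hx0.le
    have h2 := mul_le_mul hsg h1 (by positivity) hg1
    linarith
  have b3 : g * √A ≤ 2 * CR * ((1 + g) * y) := by
    have h1 : √A ≤ 2 * CR * y := by nlinarith
    have h2 := mul_le_mul (show g ≤ 1 + g by linarith) h1 (Real.sqrt_nonneg _) hg1
    linarith
  have b4 : √g * A ≤ CR * ((1 + g) * y) := by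
    have h2 := mul_le_mul hsg hA hA0 hg1
    linarith
  have b5 : √b * p ≤ 405 * B ^ 3 * ((1 + g) * x) := by
    have h1 : √b * p ≤ √b * (81 * B ^ 2 * (x * s)) := mul_le_mul_of_nonneg_left hpB sb0
    have h2 : √b * (81 * B ^ 2 * (x * s)) = 81 * B ^ 2 * x * (√b * s) := by ring
    have h3 := mul_le_mul_of_nonneg_left hsb (show 0 ≤ 81 * B ^ 2 * x by positivity)
    have h4 : 0 ≤ 405 * B ^ 3 * (g * x) := by positivity
    nlinarith
  have b6 : g * (√b * s) ≤ 5 * B * ((1 + g) * x) := by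
    have h1 := mul_le_mul_of_nonneg_left hsb hg
    have h2 : 0 ≤ B * (g * (x - 1)) := by
      have : 0 ≤ x - 1 := by linarith
      positivity
    have h3 : 0 ≤ B * x := by positivity
    nlinarith
  have b7 : √g * Y ≤ 24 * B ^ 2 * ((1 + g) * x) := by
    have h1 := mul_le_mul hsg hYB hY0 hg1
    have h2 : 0 ≤ B ^ 2 * ((1 + g) * (x - 1)) := by
      have : 0 ≤ x - 1 := by linarith
      positivity
    linarith
  have b8 : (√g + g) * √Y ≤ 10 * B * ((1 + g) * x) := by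
    have h1 : √g + g ≤ 2 * (1 + g) := by linarith
    have h2 := mul_le_mul h1 hsY sY0 (by positivity)
    have h3 : 0 ≤ B * ((1 + g) * (x - 1)) := by
      have : 0 ≤ x - 1 := by linarith
      positivity
    linarith
  have hB0 : 0 < B := by linarith
  have c1 : 0 ≤ B ^ 2 * (4 : ℝ) ^ k := by positivity
  have c2 : 0 ≤ B ^ 2 * ((1 + g) * x) := by positivity
  have c3 : 0 ≤ B ^ 2 * ((1 + g) * y) := by positivity
  have c4 : 0 ≤ B ^ 3 * (4 : ℝ) ^ k := by positivity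
  have c5 : 0 ≤ B ^ 3 * ((1 + g) * x) := by positivity
  have c6 : 0 ≤ B ^ 3 * ((1 + g) * y) := by positivity
  have c7 : 0 ≤ B * (4 : ℝ) ^ k := by positivity
  have c8 : 0 ≤ B * ((1 + g) * x) := by positivity
  have c9 : 0 ≤ B * ((1 + g) * y) := by positivity
  have c10 : 0 ≤ CR * (4 : ℝ) ^ k := by positivity
  have c11 : 0 ≤ CR * ((1 + g) * x) := by positivity
  have c12 : 0 ≤ CR * ((1 + g) * y) := by positivity
  have hfin : (72 * B ^ 2 + 405 * B ^ 3 + 15 * B + 3 * CR) * (4 ^ k + (1 + g) * (x + y))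
      = 72 * (B ^ 2 * 4 ^ k) + 72 * (B ^ 2 * ((1 + g) * x)) + 72 * (B ^ 2 * ((1 + g) * y))
        + 405 * (B ^ 3 * 4 ^ k) + 405 * (B ^ 3 * ((1 + g) * x)) + 405 * (B ^ 3 * ((1 + g) * y))
        + 15 * (B * 4 ^ k) + 15 * (B * ((1 + g) * x)) + 15 * (B * ((1 + g) * y))
        + 3 * (CR * 4 ^ k) + 3 * (CR * ((1 + g) * x)) + 3 * (CR * ((1 + g) * y)) := by ring
  rw [hfin]
  linarith

end Pool.Agent.TH305.LW
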