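import Pool.Agent.TH305.LW.Asm5

/-!
Late window lemma (helper305): the final statements.
-/

set_option autoImplicit false

open MeasureTheory Set Metric Filter Topology
open scoped ContDiff ENNReal NNReal

namespace Pool.Agent.TH305.LW

open H459R3.NS W221.NS W221.NS.B

lemma div_mono {a b ν : ℝ} (hν : 0 < ν) (h : a ≤ b) : a / ν ≤ b / ν := by gcongr

/-- Domains. -/
theorem omega_final5 : ∃ C : ℝ, 0 < C ∧
    ∀ (ν T E F : ℝ) (Ω K : Set V) (u : ℝ → V → V) (p : ℝ → V → ℝ) (f : ℝ → V → V), 0 < ν →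
      0 < T → OSolF ν T E F Ω u p f → IsCompact K ∧ K ⊆ Ω ∨ Ω = univ ∧ K = univ →
      ∫⁻ t in Ioo 0 T, ∫⁻ y in Ω, ENNReal.ofReal (gsq (u t) y) ≠ ⊤ →
      (∃ r₀ : ℝ, 0 < r₀ ∧ ∀ r : ℝ, 0 < r → r < r₀ → 256 * r ^ 2 / ν < T ∧
        (∀ S : Finset V, (∀ x ∈ S, x ∈ K ∧ Sing T u x) →
          (∀ x ∈ S, ∀ y ∈ S, x ≠ y → r ≤ ‖x - y‖) →
            ENNReal.ofReal (S.card * r) ≤ ENNReal.ofReal (C / ν) *
              ∫⁻ t in Ioo (T - 256 * r ^ 2 / ν) T,
                ENNReal.ofReal ((ν * (T - t) / r ^ 2) ^ (1 / 1152 : ℝ)) *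
                  ∫⁻ y in Ω, ENNReal.ofReal (gsq (u t) y)) ∧
        ∫⁻ x in thickening r {x ∈ K | Sing T u x}, (infEDist x {x ∈ K | Sing T u x} ^ 2)⁻¹
          ≤ ENNReal.ofReal (C / ν) * ∫⁻ t in Ioo (T - 256 * r ^ 2 / ν) T,
            ∫⁻ y in Ω, ENNReal.ofReal (gsq (u t) y)) ∧
      (∀ h : ℝ≥0∞ → ℝ≥0∞, Monotone h → ∫⁻ r in Ioo (0 : ℝ) 1, (h (ENNReal.ofReal r))⁻¹ = ⊤ →
        Measure.mkMetric h {x ∈ K | Sing T u x} = 0) ∧
      ∀ M : ℝ, 0 ≤ M → ((∃ᶠ h in 𝓝[>] (0 : ℝ), ∫⁻ t in Ioo (T - h) T,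
          ENNReal.ofReal (((T - t) / h) ^ (1 / 1152 : ℝ)) *
            ∫⁻ y in Ω, ENNReal.ofReal (gsq (u t) y) ≤ ENNReal.ofReal (M * √h)) ∨
          ∃ᶠ h in 𝓝[>] (0 : ℝ), ∫⁻ t in Ioo (T - h) (T - h ^ 577),
            ∫⁻ y in Ω, ENNReal.ofReal (gsq (u t) y) ≤ ENNReal.ofReal (M * √h)) →
        ∀ S : Finset V, (∀ x ∈ S, x ∈ Ω ∧ Sing T u x) → (S.card : ℝ) ≤ C * M / (ν * √ν) := by
  obtain ⟨C1, hC1, H1⟩ := omega_all4
  obtain ⟨C2, hC2, H2⟩ := whole_all4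
  obtain ⟨C, hC⟩ : ∃ C, C = max C1 C2 := ⟨_, rfl⟩
  have hC1' : C1 ≤ C := by rw [hC]; exact le_max_left _ _
  have hC2' : C2 ≤ C := by rw [hC]; exact le_max_right _ _
  have hC0 : 0 < C := hC1.trans_le hC1'
  refine ⟨221184 * C, by positivity, ?_⟩
  intro ν T E F Ω K u p f hν hT hu hK hfin
  have hD := D_meas hu.openO hu.smooth_u
  -- the weighted count for subsets
  have hWC : ∀ K : Set V, IsCompact K ∧ K ⊆ Ω ∨ Ω = univ ∧ K = univ → ∃ r₀ : ℝ, 0 < r₀ ∧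
      ∀ r : ℝ, 0 < r → r < r₀ → WC {x ∈ K | Sing T u x}
        (fun t => ∫⁻ y in Ω, ENNReal.ofReal (gsq (u t) y)) ν C T r := by
    intro K hK
    rcases hK with ⟨hKc, hKΩ⟩ | ⟨h1, h2⟩
    · obtain ⟨r₀, hr₀, h⟩ := H1 ν T E F Ω u p f hν hT hu K hKc hKΩ
      refine ⟨r₀, hr₀, fun r hr hrr hf S hS hsep => ?_⟩
      refine (h r hr hrr hf S (fun x hx => hS x hx) hsep).trans
        (mul_le_mul_left (ENNReal.ofReal_le_ofReal (div_mono hν hC1')) _)
    · rw [h1] at hu ⊢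
      obtain ⟨r₀, hr₀, h⟩ := H2 ν T E F u p f hν hT hu
      refine ⟨r₀, hr₀, fun r hr hrr hf S hS hsep => ?_⟩
      simp only [Measure.restrict_univ] at hf ⊢
      refine (h r hr hrr hf S (fun x hx => (hS x hx).2) hsep).trans
        (mul_le_mul_left (ENNReal.ofReal_le_ofReal (div_mono hν hC2')) _)
  obtain ⟨r₀, hr₀, hW⟩ := hWC K hK
  obtain ⟨⟨r₁, hr₁, ha⟩, hb⟩ := concl hν hC0 hT hr₀ hD hfin hW
  refine ⟨⟨r₁, hr₁, fun r hr hrr => ?_⟩, hb, ?_⟩
  · obtain ⟨a1, a2, a3⟩ := ha r hr hrr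
    refine ⟨a1, fun S hS hsep => ?_, a3⟩
    refine (a2 S hS hsep).trans (mul_le_mul_left (ENNReal.ofReal_le_ofReal (div_mono hν ?_)) _)
    linarith
  · intro M hM hfr S hS
    have hSc : IsCompact (S : Set V) := S.finite_toSet.isCompact
    obtain ⟨r₂, hr₂, hW2⟩ := hWC S (Or.inl ⟨hSc, fun x hx => (hS x hx).1⟩)
    have P : ∀ M' : ℝ, 0 ≤ M' → (∃ᶠ h in 𝓝[>] (0 : ℝ), ∫⁻ t in Ioo (T - h) T,
        ENNReal.ofReal (((T - t) / h) ^ (1 / 1152 : ℝ)) *
          ∫⁻ y in Ω, ENNReal.ofReal (gsq (u t) y) ≤ ENNReal.ofReal (M' * √h)) →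
        (S.card : ℝ) ≤ 221184 * C / (ν * √ν) * M' := by
      intro M' hM' hfr'
      have key := number4 hν hC0 hM' T {x | x ∈ (S : Set V) ∧ Sing T u x}
        (fun t => ∫⁻ y in Ω, ENNReal.ofReal (gsq (u t) y)) hr₂ S
        (fun x hx => ⟨hx, (hS x hx).2⟩) hW2 (tail_fin hT hfin) hfr'
      refine key.trans ?_
      rw [div_mul_eq_mul_div]
      gcongr
      linarith
    have e : 221184 * C * M / (ν * √ν) = 221184 * C / (ν * √ν) * M := by ring
    rw [e]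
    rcases hfr with hfr | hfr
    · exact P M hM hfr
    · exact windows hT hfin hM (by positivity) P hfr

/-- Periodic solutions. -/
theorem peri_final5 : ∃ C : ℝ, 0 < C ∧
    ∀ (ν T F : ℝ) (u : ℝ → V → V) (p : ℝ → V → ℝ) (f : ℝ → V → V), 0 < ν → 0 < T →
      IsSolF ν T F u p f →
      (∃ r₀ : ℝ, 0 < r₀ ∧ ∀ r : ℝ, 0 < r → r < r₀ →
        (∀ S : Finset V, (∀ x ∈ S, x ∈ cube ∧ Sing T u x) →
          (∀ x ∈ S, ∀ y ∈ S, x ≠ y → r ≤ ‖x - y‖) →
            S.card * r ≤ C / ν * ∫ t in Ioo (T - 256 * r ^ 2 / ν) T,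
              (ν * (T - t) / r ^ 2) ^ (1 / 1152 : ℝ) * enstrophy (u t)) ∧
        ∫⁻ x in thickening r {x ∈ cube | Sing T u x},
            (infEDist x {x ∈ cube | Sing T u x} ^ 2)⁻¹
          ≤ ENNReal.ofReal (C / ν * ∫ t in Ioo (T - 256 * r ^ 2 / ν) T, enstrophy (u t))) ∧
      (∀ h : ℝ≥0∞ → ℝ≥0∞, Monotone h → ∫⁻ r in Ioo (0 : ℝ) 1, (h (ENNReal.ofReal r))⁻¹ = ⊤ →
        Measure.mkMetric h {x ∈ cube | Sing T u x} = 0) ∧
      ∀ M : ℝ, 0 ≤ M → ((∃ᶠ h in 𝓝[>] (0 : ℝ), ∫ t in Ioo (T - h) T,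
          ((T - t) / h) ^ (1 / 1152 : ℝ) * enstrophy (u t) ≤ M * √h) ∨
          ∃ᶠ h in 𝓝[>] (0 : ℝ), ∫ t in Ioo (T - h) (T - h ^ 577), enstrophy (u t) ≤ M * √h) →
        ∀ S : Finset V, (∀ x ∈ S, x ∈ cube ∧ Sing T u x) → (S.card : ℝ) ≤ C * M / (ν * √ν) := by
  obtain ⟨C, hC, H⟩ := omega_final5
  obtain ⟨h5a, h5b⟩ := p_pero
  refine ⟨216 * C, by positivity, ?_⟩
  intro ν T F u p f hν hT hu'
  have hu : IsSolF ν T |F| u p f :=
    { hu' with force := fun t ht => bd3_mono (le_abs_self F) (hu'.force t ht) }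
  obtain ⟨⟨E, hE, hEn⟩, hint⟩ := p_pen3 ν T |F| u p f hν hT (abs_nonneg F) hu
  have hO : OSolF ν T (15 * E) |F| (ball 0 3) u p f := h5a ν T E |F| u p f hT hE hu hEn
  have hen0 : ∀ t, 0 ≤ enstrophy (u t) := fun t => W221.NS.enstrophy_nonneg _
  have hsp : ∀ t ∈ Ioo 0 T, SPV (u t) := fun t ht =>
    ⟨slice_ico hu.smooth_u ⟨ht.1.le, ht.2⟩, hu.per_u t ⟨ht.1.le, ht.2⟩⟩
  -- conversion of the integrals
  have hconv : ∀ (a b : ℝ) (w : ℝ → ℝ), 0 ≤ a → b ≤ T → Continuous w →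
      (∀ t ∈ Ioo a b, 0 ≤ w t) →
      ∫⁻ t in Ioo a b, ENNReal.ofReal (w t) *
        ∫⁻ y in ball (0 : V) 3, ENNReal.ofReal (gsq (u t) y)
        = ENNReal.ofReal (216 * ∫ t in Ioo a b, w t * enstrophy (u t)) := by
    intro a b w ha hb hw hw0
    have hsub : Ioo a b ⊆ Ioo 0 T := Ioo_subset_Ioo ha hb
    have hI : IntegrableOn (fun t => w t * enstrophy (u t)) (Ioo a b) := by
      rcases le_or_gt b a with h | h
      · rw [Ioo_eq_empty (not_lt.2 h)]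
        exact integrableOn_empty
      · have h1 : IntegrableOn (fun t => enstrophy (u t)) (Icc a b) := by
          rw [integrableOn_Icc_iff_integrableOn_Ioo]
          exact hint.mono_set hsub
        exact (h1.continuousOn_mul hw.continuousOn isCompact_Icc).mono_set Ioo_subset_Icc_self
    rw [← integral_const_mul, ofReal_integral_eq_lintegral_ofReal (hI.const_mul 216)]
    · apply setLIntegral_congr_fun measurableSet_Ioo
      intro t ht
      have h1 : ∫⁻ y in ball (0 : V) 3, ENNReal.ofReal (gsq (u t) y)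
          = ENNReal.ofReal (216 * enstrophy (u t)) := h5b _ (hsp t (hsub ht))
      simp only [h1]
      rw [← ENNReal.ofReal_mul (hw0 t ht)]
      congr 1
      ring
    · filter_upwards [ae_restrict_mem measurableSet_Ioo] with t ht
      have := hen0 t
      have := hw0 t ht
      show (0 : ℝ) ≤ 216 * (w t * enstrophy (u t))
      positivity
  have hconv1 : ∀ a b : ℝ, 0 ≤ a → b ≤ T → ∫⁻ t in Ioo a b,
      ∫⁻ y in ball (0 : V) 3, ENNReal.ofReal (gsq (u t) y)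
        = ENNReal.ofReal (216 * ∫ t in Ioo a b, enstrophy (u t)) := by
    intro a b ha hb
    have := hconv a b (fun _ => 1) ha hb continuous_const (fun _ _ => zero_le_one)
    simpa only [ENNReal.ofReal_one, one_mul] using this
  have hfin : ∫⁻ t in Ioo 0 T, ∫⁻ y in ball (0 : V) 3, ENNReal.ofReal (gsq (u t) y) ≠ ⊤ := by
    rw [hconv1 0 T le_rfl le_rfl]
    exact ENNReal.ofReal_ne_top
  obtain ⟨⟨r₀, hr₀, ha⟩, hb, hc⟩ := H ν T (15 * E) |F| (ball 0 3) cube u p f hν hT hO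
    (Or.inl ⟨isCompact_Icc, cube_sub⟩) hfin
  refine ⟨⟨r₀, hr₀, fun r hr hrr => ?_⟩, hb, ?_⟩
  · obtain ⟨a1, a2, a3⟩ := ha r hr hrr
    have hpos : 0 ≤ T - 256 * r ^ 2 / ν := by linarith
    refine ⟨fun S hS hsep => ?_, ?_⟩
    · have k1 := a2 S hS hsep
      have hw : Continuous fun t : ℝ => (ν * (T - t) / r ^ 2) ^ (1 / 1152 : ℝ) := by
        apply Continuous.rpow_const
        · fun_prop
        · intro t
          right
          norm_num
      have hw0 : ∀ t ∈ Ioo (T - 256 * r ^ 2 / ν) T,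
          0 ≤ (ν * (T - t) / r ^ 2) ^ (1 / 1152 : ℝ) := fun t ht =>
        Real.rpow_nonneg (div_nonneg (mul_nonneg hν.le (by linarith [ht.2])) (by positivity)) _
      rw [hconv _ _ _ hpos le_rfl hw hw0, ← ENNReal.ofReal_mul (by positivity),
        ENNReal.ofReal_le_ofReal_iff] at k1
      · calc (S.card : ℝ) * r ≤ C / ν * (216 * ∫ t in Ioo (T - 256 * r ^ 2 / ν) T,
              (ν * (T - t) / r ^ 2) ^ (1 / 1152 : ℝ) * enstrophy (u t)) := k1
          _ = _ := by ring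
      · have h3 : 0 ≤ ∫ t in Ioo (T - 256 * r ^ 2 / ν) T,
            (ν * (T - t) / r ^ 2) ^ (1 / 1152 : ℝ) * enstrophy (u t) :=
          setIntegral_nonneg measurableSet_Ioo fun t ht => mul_nonneg (hw0 t ht) (hen0 t)
        positivity
    · refine a3.trans (le_of_eq ?_)
      rw [hconv1 _ _ hpos le_rfl, ← ENNReal.ofReal_mul (by positivity)]
      congr 1
      ring
  · intro M hM hfr S hS
    have key := hc (216 * M) (by positivity) ?_ S
      (fun x hx => ⟨cube_sub (hS x hx).1, (hS x hx).2⟩)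
    · calc (S.card : ℝ) ≤ C * (216 * M) / (ν * √ν) := key
        _ = 216 * C * M / (ν * √ν) := by ring
    · have hev : ∀ᶠ h in 𝓝[>] (0 : ℝ), 0 < h ∧ h < T := by
        filter_upwards [Ioo_mem_nhdsGT hT] with h hh
        exact hh
      refine hfr.imp (fun hfr => ?_) (fun hfr => ?_)
      · refine (hfr.and_eventually hev).mono fun h hh => ?_
        obtain ⟨h1, h2, h3⟩ := hh
        have hw : Continuous fun t : ℝ => ((T - t) / h) ^ (1 / 1152 : ℝ) := by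
          apply Continuous.rpow_const
          · fun_prop
          · intro t
            right
            norm_num
        have hw0 : ∀ t ∈ Ioo (T - h) T, 0 ≤ ((T - t) / h) ^ (1 / 1152 : ℝ) := fun t ht =>
          Real.rpow_nonneg (div_nonneg (by linarith [ht.2]) h2.le) _
        rw [hconv _ _ _ (by linarith) le_rfl hw hw0]
        apply ENNReal.ofReal_le_ofReal
        linarith
      · refine (hfr.and_eventually hev).mono fun h hh => ?_
        obtain ⟨h1, h2, h3⟩ := hh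
        have h4 : 0 < h ^ 577 := by positivity
        rw [hconv1 _ _ (by linarith) (by linarith)]
        apply ENNReal.ofReal_le_ofReal
        linarith

end Pool.Agent.TH305.LW
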