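import Pool.Agent.TH305.LW.Abs
import Pool.Agent.W221.NS.Fin2

/-!
Hausdorff measures with a gauge (helper305).
-/

set_option autoImplicit false

open MeasureTheory Set Metric Filter Topology
open scoped ENNReal NNReal

namespace Pool.Agent.TH305.LW

section
variable {Z : Set (Fin 3 → ℝ)}

lemma NN_ne_top {r r₀ : ℝ} (hr : 0 < r) (hrr : r ≤ r₀)
    (hfin : ∫⁻ ρ in Ioo 0 r₀, NN Z ρ ≠ ⊤) : NN Z r ≠ ⊤ := by
  intro h
  have h1 := NN_int (Z := Z) hr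
  rw [h, ENNReal.top_mul (by rw [ENNReal.ofReal_ne_zero_iff]; exact hr)] at h1
  apply hfin
  exact top_le_iff.1 (h1.trans (lintegral_mono_set (Ioo_subset_Ioo_right hrr)))

/-- Good scales. -/
lemma good_scale {r₀ : ℝ} (hr₀ : 0 < r₀) (hfin : ∫⁻ ρ in Ioo 0 r₀, NN Z ρ ≠ ⊤)
    {h : ℝ≥0∞ → ℝ≥0∞} (hmono : Monotone h)
    (hdiv : ∫⁻ r in Ioo (0 : ℝ) 1, (h (ENNReal.ofReal r))⁻¹ = ⊤) {ε : ℝ≥0∞} (hε : 0 < ε)
    (hεt : ε ≠ ⊤) : ∃ᶠ r in 𝓝[>] (0 : ℝ), NN Z r * h (ENNReal.ofReal (2 * r)) ≤ ε := by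
  intro hcon
  obtain ⟨r1, hr1, hsub⟩ := mem_nhdsGT_iff_exists_Ioo_subset.1 hcon
  have hr1' : 0 < r1 := hr1
  obtain ⟨r2, hr2⟩ : ∃ r2, r2 = min (min r1 r₀) (1 / 2) := ⟨_, rfl⟩
  have hr20 : 0 < r2 := by rw [hr2]; positivity
  have a1 : r2 ≤ r1 := by rw [hr2]; exact (min_le_left _ _).trans (min_le_left _ _)
  have a2 : r2 ≤ r₀ := by rw [hr2]; exact (min_le_left _ _).trans (min_le_right _ _)
  have a3 : r2 ≤ 1 / 2 := by rw [hr2]; exact min_le_right _ _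
  have hlt : ∀ r ∈ Ioo 0 r2, ε < NN Z r * h (ENNReal.ofReal (2 * r)) := by
    intro r hr
    have := hsub ⟨hr.1, hr.2.trans_le a1⟩
    exact not_le.1 this
  have h0 : h (ENNReal.ofReal r2) ≠ 0 := by
    intro h0
    have := hlt (r2 / 2) ⟨by positivity, by linarith⟩
    have e : 2 * (r2 / 2) = r2 := by ring
    rw [e, h0, mul_zero] at this
    exact absurd this (not_lt.2 bot_le)
  have hmeas : Measurable (fun r : ℝ => (h (ENNReal.ofReal r))⁻¹) := by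
    have : Antitone (fun r : ℝ => (h (ENNReal.ofReal r))⁻¹) := fun a b hab =>
      ENNReal.inv_le_inv.2 (hmono (ENNReal.ofReal_le_ofReal hab))
    exact this.measurable
  have h1 : ε * ∫⁻ r in Ioo 0 r2, (h (ENNReal.ofReal (2 * r)))⁻¹ ≤ ∫⁻ ρ in Ioo 0 r₀, NN Z ρ := by
    rw [← lintegral_const_mul' _ _ hεt]
    refine le_trans ?_ (lintegral_mono_set (Ioo_subset_Ioo_right a2))
    apply setLIntegral_mono' measurableSet_Ioo
    intro r hr
    rw [← div_eq_mul_inv]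
    exact ENNReal.div_le_of_le_mul (hlt r hr).le
  have h2 : ∫⁻ r in Ioo 0 r2, (h (ENNReal.ofReal (2 * r)))⁻¹ ≠ ⊤ := by
    intro h2
    rw [h2, ENNReal.mul_top hε.ne'] at h1
    exact hfin (top_le_iff.1 h1)
  have h3 := W221.NS.lint_scale (ν := 1 / 2) (by norm_num)
    (fun r => (h (ENNReal.ofReal r))⁻¹) 0 (2 * r2)
  have e1 : (1 / 2 : ℝ) * 0 = 0 := by norm_num
  have e2 : (1 / 2 : ℝ) * (2 * r2) = r2 := by ring
  have e3 : ∀ t : ℝ, t / (1 / 2) = 2 * t := fun t => by ring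
  simp only [e1, e2, e3] at h3
  rw [h3] at h2
  have h4 : ∫⁻ r in Ioo 0 (2 * r2), (h (ENNReal.ofReal r))⁻¹ ≠ ⊤ := by
    intro h4
    apply h2
    rw [h4, ENNReal.mul_top (by simp)]
  have h5 : ∫⁻ r in Ioo (0 : ℝ) 1, (h (ENNReal.ofReal r))⁻¹ ≤
      (∫⁻ r in Ioo 0 (2 * r2), (h (ENNReal.ofReal r))⁻¹) +
        ∫⁻ r in Ico (2 * r2) 1, (h (ENNReal.ofReal r))⁻¹ := by
    have hs : Ioo (0 : ℝ) 1 ⊆ Ioo 0 (2 * r2) ∪ Ico (2 * r2) 1 := by
      intro x hx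
      rcases lt_or_ge x (2 * r2) with h | h
      · exact Or.inl ⟨hx.1, h⟩
      · exact Or.inr ⟨h, hx.2⟩
    exact (lintegral_mono_set hs).trans (lintegral_union_le _ _ _)
  have h6 : ∫⁻ r in Ico (2 * r2) 1, (h (ENNReal.ofReal r))⁻¹ ≠ ⊤ := by
    have h7 : ∫⁻ r in Ico (2 * r2) 1, (h (ENNReal.ofReal r))⁻¹ ≤
        ∫⁻ _ in Ico (2 * r2) 1, (h (ENNReal.ofReal r2))⁻¹ := by
      apply setLIntegral_mono' measurableSet_Ico
      intro r hr
      apply ENNReal.inv_le_inv.2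
      apply hmono
      apply ENNReal.ofReal_le_ofReal
      linarith [hr.1]
    refine ne_top_of_le_ne_top ?_ h7
    rw [setLIntegral_const]
    apply ENNReal.mul_ne_top
    · exact ENNReal.inv_ne_top.2 h0
    · rw [Real.volume_Ico]
      exact ENNReal.ofReal_ne_top
  rw [hdiv] at h5
  exact (ENNReal.add_ne_top.2 ⟨h4, h6⟩) (top_le_iff.1 h5)

/-- Zero Hausdorff measure for every gauge `h` with `∫ dr / h(r) = ∞`. -/
theorem gauge_zero {r₀ : ℝ} (hr₀ : 0 < r₀) (hfin : ∫⁻ ρ in Ioo 0 r₀, NN Z ρ ≠ ⊤)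
    {h : ℝ≥0∞ → ℝ≥0∞} (hmono : Monotone h)
    (hdiv : ∫⁻ r in Ioo (0 : ℝ) 1, (h (ENNReal.ofReal r))⁻¹ = ⊤) :
    Measure.mkMetric h Z = 0 := by
  refine le_antisymm ?_ bot_le
  apply ENNReal.le_of_forall_pos_le_add
  intro ε hε _
  rw [zero_add]
  have hfr := good_scale hr₀ hfin hmono hdiv (ε := (ε : ℝ≥0∞)) (by exact_mod_cast hε)
    ENNReal.coe_ne_top
  have hev : ∀ n : ℕ, ∀ᶠ r in 𝓝[>] (0 : ℝ), 0 < r ∧ r < r₀ ∧ r < 1 / ((n : ℝ) + 1) := by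
    intro n
    have hn : (0 : ℝ) < 1 / ((n : ℝ) + 1) := by positivity
    filter_upwards [self_mem_nhdsWithin, Ioo_mem_nhdsGT hr₀, Ioo_mem_nhdsGT hn] with r h1 h2 h3
    exact ⟨h1, h2.2, h3.2⟩
  have hex : ∀ n : ℕ, ∃ (r : ℝ) (F : Finset (Fin 3 → ℝ)), 0 < r ∧ r < 1 / ((n : ℝ) + 1) ∧
      (F.card : ℝ≥0∞) * h (ENNReal.ofReal (2 * r)) ≤ ε ∧ ∀ x ∈ Z, ∃ y ∈ F, dist x y < r := by
    intro n
    obtain ⟨r, h1, h2, h3, h4⟩ := (hfr.and_eventually (hev n)).exists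
    obtain ⟨F, hF1, hF2⟩ := NN_cover h2 (NN_ne_top h2 h3.le hfin)
    exact ⟨r, F, h2, h4, (mul_le_mul_left hF1 _).trans h1, hF2⟩
  choose r F hr0 hrn hF hcov using hex
  have hlim : Tendsto (fun n => ENNReal.ofReal (2 * r n)) atTop (𝓝 0) := by
    have h1 : Tendsto (fun n : ℕ => 2 * (1 / ((n : ℝ) + 1))) atTop (𝓝 (2 * 0)) :=
      tendsto_one_div_add_atTop_nhds_zero_nat.const_mul 2
    rw [mul_zero] at h1
    have h2 : Tendsto (fun n => 2 * r n) atTop (𝓝 0) :=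
      squeeze_zero (fun n => by have := hr0 n; positivity) (fun n => by
        have := (hrn n).le
        linarith) h1
    have h3 := (ENNReal.continuous_ofReal.tendsto 0).comp h2
    rw [ENNReal.ofReal_zero] at h3
    exact h3
  have hd : ∀ n, ∀ i : F n, Metric.ediam (ball (i : Fin 3 → ℝ) (r n)) ≤ ENNReal.ofReal (2 * r n) := by
    intro n i
    apply Metric.ediam_le_of_forall_dist_le
    intro x hx y hy
    rw [mem_ball] at hx hy
    have := dist_triangle_right x y (i : Fin 3 → ℝ)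
    linarith
  have key := Measure.mkMetric_le_liminf_sum (ι := fun n => F n) Z (l := atTop)
    (fun n => ENNReal.ofReal (2 * r n)) hlim (fun n i => ball (i : Fin 3 → ℝ) (r n))
    (Eventually.of_forall hd) (Eventually.of_forall fun n => by
      intro x hx
      obtain ⟨y, hy, hxy⟩ := hcov n x hx
      exact mem_iUnion.2 ⟨⟨y, hy⟩, hxy⟩) h
  refine key.trans (liminf_le_of_frequently_le' (Eventually.frequently
    (Eventually.of_forall fun n => ?_)))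
  calc ∑ i : F n, h (Metric.ediam (ball (i : Fin 3 → ℝ) (r n)))
      ≤ ∑ _i : F n, h (ENNReal.ofReal (2 * r n)) :=
        Finset.sum_le_sum fun i _ => hmono (hd n i)
    _ = (F n).card * h (ENNReal.ofReal (2 * r n)) := by
        rw [Finset.sum_const, nsmul_eq_mul, Finset.card_univ, Fintype.card_coe]
    _ ≤ ε := hF n

end

end Pool.Agent.TH305.LW
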