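import Pool.Agent.TH305.LW.Gen1
import Pool.Agent.TH305.LW.Chg2

/-!
Late window lemma (helper305): generations.
-/

set_option autoImplicit false

open MeasureTheory Set Metric Filter Topology
open scoped ContDiff

namespace Pool.Agent.TH305.LW

open H459R3.NS W221.NS W221.NS.B Pool.Agent.W12.MD

/-- The conclusion of `chg`. -/
def ChgP (C' ε1 ε2 : ℝ) (k1 : ℕ) : Prop :=
  ∀ (n : ℕ) (T κ E F : ℝ) (O : Set V) (u : ℝ → V → V) (p : ℝ → V → ℝ), 0 ≤ F →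
      LSol3 T κ E F O u p → ∀ α β r : ℝ, 0 < α → β < T → 0 < r → r ≤ 1 →
      α ≤ β - (1 / 2) ^ (63 * n + 28 * k1) * r ^ 2 - r ^ 2 → ∀ X Y : ℝ → V, Pth r u α β X →
      Pth (rr (4 * n + 2 * k1 + 5) * r) u α β Y →
      (∀ t ∈ Ioo (β - (1 / 2) ^ (63 * n + 28 * k1) * r ^ 2 - r ^ 2) β, ball (X t) (8 * r) ⊆ O) →
      C' * (r ^ 3 * F + ms u r X (β - (1 / 2) ^ (63 * n + 28 * k1) * r ^ 2 - r ^ 2)
        (β - (1 / 2) ^ (63 * n + 28 * k1) * r ^ 2)) ≤ ε1 →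
      C' * (r ^ 3 * F + ms u r X (β - r ^ 2) β) ≤ 2 ^ n → ‖Y β - X β‖ < r / 8 →
      ms u (rr (4 * n + 2 * k1 + 5) * r) Y (β - (rr (4 * n + 2 * k1 + 5) * r) ^ 2) β ≤ ε2

/-- The conclusion of `late_disp`. -/
def LateP (C : ℝ) : Prop :=
  ∀ (T : ℝ) (u : ℝ → V → V),
    ContDiffOn ℝ ∞ (fun z : ℝ × V => u z.1 z.2) (Ioo 0 T ×ˢ univ) → ∀ (α β r ρ : ℝ), 0 < α →
    β < T → 0 < r → 0 < ρ → ρ ≤ 1 → ∀ X Y : ℝ → V, Pth r u α β X → Pth (ρ * r) u α β Y →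
    ∀ p ∈ Icc α β, ∀ l : ℝ, 0 < l →
    C * (ρ ^ 3)⁻¹ * (l * ms u r X p β + (β - p) / (r ^ 2 * l)) ≤ 1 / 4 → ‖Y β - X β‖ ≤ r / 4 →
    ∀ τ ∈ Icc p β, ‖(Y τ - X τ) - (Y β - X β)‖
      ≤ r * (C * (ρ ^ 3)⁻¹ * (l * ms u r X p β + (β - p) / (r ^ 2 * l)))

/-- The conclusion of `moll3`. -/
def MollP (C : ℝ) : Prop :=
  ∀ (T κ E F : ℝ) (O : Set V) (u : ℝ → V → V) (p : ℝ → V → ℝ),
    0 ≤ κ → 0 ≤ E → LSol3 T κ E F O u p → ∀ r : ℝ, 0 < r →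
      ∃ L : ℝ, Good2 T (C * E / √(r ^ 3)) L (C * κ / √(r ^ 3)) (mol r u)

/-- The statement at generation `j`. -/
def PP (u : ℝ → V → V) (r ε2 : ℝ) (k1 J : ℕ) (α s : ℝ) (X : ℝ → V) (j : ℕ) : Prop :=
  ∀ Y : ℝ → V, Pth (rr (KK k1 j) * r) u α (sg k1 J s r j) Y →
    ‖Y (sg k1 J s r j) - X (sg k1 J s r j)‖ ≤ (1 / 16 + (1 / 2) ^ (j + 4)) * r →
    ms u (rr (KK k1 j) * r) Y (sg k1 J s r j - (rr (KK k1 j) * r) ^ 2) (sg k1 J s r j) ≤ ε2

section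
variable {C' ε1 ε2 CD CM : ℝ} {k1 : ℕ} {T κ E F : ℝ} {O : Set V} {u : ℝ → V → V}
  {p : ℝ → V → ℝ}

lemma gen_base (hchg : ChgP C' ε1 ε2 k1) (hC' : 0 < C') (hk1 : 1 ≤ k1) (hε1 : ε1 ≤ 1)
    (hε2 : C' * ε2 ≤ ε1 / 2) (hF : 0 ≤ F) (hL : LSol3 T κ E F O u p)
    {α s r : ℝ} (hα : 0 < α) (hs : s < T) (hr : 0 < r) (hr1 : r ≤ 1) (hαs : α ≤ s - 2 * r ^ 2)
    (hFr : C' * (r ^ 3 * F) ≤ ε1 / 2) {X : ℝ → V} (hX : Pth r u α s X)
    (hOX : ∀ t ∈ Ioo (s - 2 * r ^ 2) s, ball (X t) (8 * r) ⊆ O) (J : ℕ)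
    (h0 : ms u r X (s - 2 * r ^ 2) (s - (1 / 2) ^ dd k1 0 * r ^ 2) ≤ ε2)
    (h1 : ms u r X (s - 2 * r ^ 2) (sg k1 J s r 1) ≤ 1 / C') :
    PP u r ε2 k1 J α s X 1 := by
  intro Y hY hYX
  have hu := hL.smooth_u
  have hr2 : 0 < r ^ 2 := by positivity
  have e1 : KK k1 1 = 4 * k1 + 2 * k1 + 5 := by
    show 9 * 0 + 6 * k1 + 5 = _
    omega
  have e2 : dd k1 0 = 63 * k1 + 28 * k1 := by
    show 128 * 0 + 91 * k1 = _
    omega
  have hsg0 := sg_succ (k1 := k1) (J := J) (j := 0) s r (Nat.zero_le _)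
  have hsg0' := sg_le' (k1 := k1) (J := J) (j := 0) s r (Nat.zero_le _)
  have hge := sg_ge hk1 J 0 s r
  rw [zero_add] at hsg0
  obtain ⟨σ, hσ⟩ : ∃ σ, σ = sg k1 J s r 1 := ⟨_, rfl⟩
  obtain ⟨σ0, hσ0⟩ : ∃ σ0, σ0 = sg k1 J s r 0 := ⟨_, rfl⟩
  have hσs : σ ≤ s := by rw [hσ]; exact sg_le k1 J 1 s r
  rw [← hσ] at hY hYX h1 hsg0 ⊢
  rw [← hσ0] at hsg0 hsg0' hge
  rw [e1] at hY ⊢
  rw [e2] at hsg0 hsg0' h0
  have hc0 : 0 < (1 / 2 : ℝ) ^ (63 * k1 + 28 * k1) * r ^ 2 := by positivity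
  apply hchg k1 T κ E F O u p hF hL α σ r hα (by linarith) hr hr1 (by linarith) X Y
    (hX.mono le_rfl hσs) hY
  · intro t ht
    exact hOX t ⟨by linarith [ht.1], by linarith [ht.2]⟩
  · rw [← hsg0]
    have h2 : ms u r X (σ0 - r ^ 2) σ0 ≤ ε2 := by
      refine le_trans ?_ h0
      exact ms_mono hu hα hs hX.cont hr hαs (by linarith) (by linarith) hsg0' (by linarith)
    rw [mul_add]
    have := mul_le_mul_of_nonneg_left h2 hC'.le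
    linarith
  · have h2 : ms u r X (σ - r ^ 2) σ ≤ 1 / C' := by
      refine le_trans ?_ h1
      exact ms_mono hu hα hs hX.cont hr hαs (by linarith) (by linarith) le_rfl (by linarith)
    rw [mul_add]
    have h3 := mul_le_mul_of_nonneg_left h2 hC'.le
    rw [mul_one_div_cancel hC'.ne'] at h3
    have h4 : (2 : ℝ) ≤ 2 ^ k1 := by
      calc (2 : ℝ) = 2 ^ 1 := (pow_one _).symm
        _ ≤ 2 ^ k1 := pow_le_pow_right₀ (by norm_num) hk1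
    linarith
  · norm_num at hYX
    linarith

lemma rr_add (a b : ℕ) : rr a * rr b = rr (a + b) := by
  unfold rr
  rw [pow_add]

lemma disp_num {CD C' : ℝ} {K k1 j : ℕ} {m : ℝ} (hCD : 0 < CD) (hC' : 0 < C')
    (hk1 : CD * (1 + 1 / C') ≤ 2 ^ k1) (hm : m ≤ 2 ^ K / C') (hK : 11 ≤ K) (hj : j ≤ K) :
    CD * (rr K ^ 3)⁻¹ * ((1 / 2) ^ (64 * K + 45 * k1) * m
      + (1 / 2) ^ (128 * K + 91 * k1) / (1 / 2) ^ (64 * K + 45 * k1)) ≤ (1 / 2) ^ (j + 5) := by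
  have hl0 : (0 : ℝ) < (1 / 2) ^ (64 * K + 45 * k1) := by positivity
  have e1 : (1 / 2 : ℝ) ^ (128 * K + 91 * k1) / (1 / 2) ^ (64 * K + 45 * k1)
      ≤ (1 / 2) ^ (63 * K + 45 * k1) := by
    rw [div_le_iff₀ hl0, ← pow_add]
    exact pow_le_pow_of_le_one (by norm_num) (by norm_num) (by omega)
  have e2 : (1 / 2 : ℝ) ^ (64 * K + 45 * k1) * m ≤ (1 / 2) ^ (63 * K + 45 * k1) * (1 / C') := by
    have h1 := mul_le_mul_of_nonneg_left hm hl0.le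
    have h2 : (1 / 2 : ℝ) ^ (64 * K + 45 * k1) * 2 ^ K = (1 / 2) ^ (63 * K + 45 * k1) := by
      have h3 : (1 / 2 : ℝ) ^ (64 * K + 45 * k1)
          = (1 / 2) ^ (63 * K + 45 * k1) * (1 / 2) ^ K := by
        rw [← pow_add]
        congr 1
        ring
      rw [h3, mul_assoc, ← mul_pow]
      norm_num
    calc (1 / 2 : ℝ) ^ (64 * K + 45 * k1) * m ≤ (1 / 2) ^ (64 * K + 45 * k1) * (2 ^ K / C') := h1
      _ = ((1 / 2) ^ (64 * K + 45 * k1) * 2 ^ K) * (1 / C') := by ring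
      _ = _ := by rw [h2]
  have e3 : (rr K ^ 3)⁻¹ * (1 / 2 : ℝ) ^ (63 * K + 45 * k1) = (1 / 2) ^ (60 * K + 45 * k1) := by
    unfold rr
    have h4 : (1 / 2 : ℝ) ^ (63 * K + 45 * k1)
        = ((1 / 2) ^ K) ^ 3 * (1 / 2) ^ (60 * K + 45 * k1) := by
      rw [← pow_mul, ← pow_add]
      congr 1
      ring
    rw [h4, ← mul_assoc, inv_mul_cancel₀ (by positivity), one_mul]
  have hR : 0 < (rr K ^ 3)⁻¹ := by have := rr_pos' K; positivity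
  calc CD * (rr K ^ 3)⁻¹ * ((1 / 2) ^ (64 * K + 45 * k1) * m
      + (1 / 2) ^ (128 * K + 91 * k1) / (1 / 2) ^ (64 * K + 45 * k1))
      ≤ CD * (rr K ^ 3)⁻¹ * ((1 + 1 / C') * (1 / 2) ^ (63 * K + 45 * k1)) := by
        apply mul_le_mul_of_nonneg_left _ (by positivity)
        linarith
    _ = CD * (1 + 1 / C') * ((rr K ^ 3)⁻¹ * (1 / 2) ^ (63 * K + 45 * k1)) := by ring
    _ = CD * (1 + 1 / C') * (1 / 2) ^ (60 * K + 45 * k1) := by rw [e3]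
    _ ≤ 2 ^ k1 * (1 / 2) ^ (60 * K + 45 * k1) :=
        mul_le_mul_of_nonneg_right hk1 (by positivity)
    _ = (1 / 2) ^ (60 * K + 44 * k1) := by
        have h5 : (1 / 2 : ℝ) ^ (60 * K + 45 * k1) = (1 / 2) ^ k1 * (1 / 2) ^ (60 * K + 44 * k1) := by
          rw [← pow_add]
          congr 1
          ring
        rw [h5, ← mul_assoc, ← mul_pow]
        norm_num
    _ ≤ (1 / 2) ^ (j + 5) := pow_le_pow_of_le_one (by norm_num) (by norm_num) (by omega)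

lemma gen_step (hchg : ChgP C' ε1 ε2 k1) (hlate : LateP CD) (hmol : MollP CM) (hC' : 0 < C')
    (hCD : 0 < CD) (hCM : 0 < CM) (hk1 : 1 ≤ k1) (hk1' : CD * (1 + 1 / C') ≤ 2 ^ k1)
    (hε1 : ε1 ≤ 1) (hε2 : C' * ε2 ≤ ε1 / 2) (hκ : 0 ≤ κ) (hE : 0 ≤ E) (hF : 0 ≤ F)
    (hL : LSol3 T κ E F O u p)
    {α s r : ℝ} (hα : 0 < α) (hs : s < T) (hr : 0 < r) (hr1 : r ≤ 1) (hαs : α < s - 2 * r ^ 2)
    (hFr : C' * (r ^ 3 * F) ≤ ε1 / 2) {X : ℝ → V} (hX : Pth r u α s X)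
    (hO : ball (X s) (10 * r + 4 * CM * E * √r) ⊆ O) (J j : ℕ) (hj : 1 ≤ j) (hjJ : j ≤ J)
    (h1 : ms u r X (s - 2 * r ^ 2) (sg k1 J s r (j + 1)) ≤ 2 ^ KK k1 j / C')
    (hP : PP u r ε2 k1 J α s X j) : PP u r ε2 k1 J α s X (j + 1) := by
  intro Y hY hYX
  have hu := hL.smooth_u
  have hr2 : 0 < r ^ 2 := by positivity
  obtain ⟨K, hK⟩ : ∃ K, K = KK k1 j := ⟨_, rfl⟩
  have hjK : j ≤ K := by rw [hK]; exact KK_ge k1 j
  have hK11 : 11 ≤ K := by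
    obtain ⟨i, rfl⟩ : ∃ i, j = i + 1 := ⟨j - 1, by omega⟩
    rw [hK]
    show 11 ≤ 9 * KK k1 i + 6 * k1 + 5
    omega
  have e1 : KK k1 (j + 1) = (4 * (2 * K + k1) + 2 * k1 + 5) + K := by
    show 9 * KK k1 j + 6 * k1 + 5 = _
    rw [← hK]
    omega
  have e2 : dd k1 j = 128 * K + 91 * k1 := by
    unfold dd
    rw [← hK]
  have hsg := sg_succ (k1 := k1) (J := J) (j := j) s r hjJ
  have hge := sg_ge hk1 J j s r
  obtain ⟨σ, hσ⟩ : ∃ σ, σ = sg k1 J s r (j + 1) := ⟨_, rfl⟩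
  obtain ⟨σ', hσ'⟩ : ∃ σ', σ' = sg k1 J s r j := ⟨_, rfl⟩
  have hσs : σ ≤ s := by rw [hσ]; exact sg_le k1 J (j + 1) s r
  unfold PP at hP
  rw [← hσ] at hY hYX h1 hsg ⊢
  rw [← hσ', ← hK] at hP
  rw [← hσ'] at hsg hge
  rw [e1] at hY ⊢
  rw [e2] at hsg
  rw [← hK] at h1
  obtain ⟨R, hR⟩ : ∃ R, R = rr K := ⟨_, rfl⟩
  have hR0 : 0 < R := by rw [hR]; exact rr_pos' K
  have hRs : 2048 * R ≤ 1 := by
    have h2 : rr K ≤ rr 11 := W612.MD.rr_le hK11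
    have h3 : rr 11 = 1 / 2048 := by unfold rr; norm_num
    rw [hR]
    linarith
  have hRr : 0 < R * r := by positivity
  have hRrr : R * r ≤ r := by nlinarith only [hR0, hRs, hr]
  have hRr1 : R * r ≤ 1 := hRrr.trans hr1
  have hRr2 : (R * r) ^ 2 ≤ r ^ 2 := pow_le_pow_left₀ hRr.le hRrr 2
  have hRr20 : 0 < (R * r) ^ 2 := by positivity
  -- the constant c
  have ec : (1 / 2 : ℝ) ^ (63 * (2 * K + k1) + 28 * k1) * (R * r) ^ 2
      = (1 / 2) ^ (128 * K + 91 * k1) * r ^ 2 := by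
    rw [hR]
    unfold rr
    rw [mul_pow, ← pow_mul, ← mul_assoc, ← pow_add]
    congr 2
    ring
  have hsg2 : σ' = σ - (1 / 2) ^ (63 * (2 * K + k1) + 28 * k1) * (R * r) ^ 2 := by
    rw [ec]; exact hsg
  have hc0 : 0 < (1 / 2 : ℝ) ^ (63 * (2 * K + k1) + 28 * k1) * (R * r) ^ 2 := by positivity
  have hc1 : (1 / 2 : ℝ) ^ (63 * (2 * K + k1) + 28 * k1) * (R * r) ^ 2 ≤ (R * r) ^ 2 := by
    apply mul_le_of_le_one_left hRr20.le
    exact pow_le_one₀ (by norm_num) (by norm_num)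
  have hσσ : σ' < σ := by linarith
  have hασ' : α < σ' - r ^ 2 := by linarith
  have hασ : α < σ := by linarith
  have hσT : σ < T := by linarith
  -- the path at scale R r
  obtain ⟨Z, hZ, hZσ⟩ := pth_exists hmol hκ hE hL hRr hα hασ hσT (Y σ)
  have hXσ : Pth r u α σ X := hX.mono le_rfl hσs
  -- the late displacement
  have hm1 : ms u r X σ' σ ≤ 2 ^ K / C' := by
    refine le_trans ?_ h1
    exact ms_mono hu hα hs hX.cont hr hαs.le (by linarith) hσσ.le le_rfl hσs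
  have hb := disp_num (j := j) hCD hC' hk1' hm1 hK11 hjK
  have hb4 : (1 / 2 : ℝ) ^ (j + 5) ≤ 1 / 4 := by
    calc (1 / 2 : ℝ) ^ (j + 5) ≤ (1 / 2) ^ 2 :=
          pow_le_pow_of_le_one (by norm_num) (by norm_num) (by omega)
      _ = 1 / 4 := by norm_num
  have hh4 : (1 / 2 : ℝ) ^ (j + 1 + 4) ≤ 1 / 16 := by
    calc (1 / 2 : ℝ) ^ (j + 1 + 4) ≤ (1 / 2) ^ 4 :=
          pow_le_pow_of_le_one (by norm_num) (by norm_num) (by omega)
      _ = 1 / 16 := by norm_num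
  have hh4r := mul_le_mul_of_nonneg_right hh4 hr.le
  have hl0 : (0 : ℝ) < (1 / 2) ^ (64 * K + 45 * k1) := by positivity
  have hbb : CD * (R ^ 3)⁻¹ * ((1 / 2) ^ (64 * K + 45 * k1) * ms u r X σ' σ
      + (σ - σ') / (r ^ 2 * (1 / 2) ^ (64 * K + 45 * k1))) ≤ (1 / 2) ^ (j + 5) := by
    have e3 : (σ - σ') / (r ^ 2 * (1 / 2) ^ (64 * K + 45 * k1))
        = (1 / 2) ^ (128 * K + 91 * k1) / (1 / 2) ^ (64 * K + 45 * k1) := by
      have : σ - σ' = r ^ 2 * (1 / 2) ^ (128 * K + 91 * k1) := by rw [hsg]; ring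
      rw [this, mul_div_mul_left _ _ hr2.ne']
    rw [e3, hR]
    exact hb
  have hdz : ∀ τ ∈ Icc σ' σ, ‖(Z τ - X τ) - (Z σ - X σ)‖ ≤ r * (1 / 2) ^ (j + 5) := by
    intro τ hτ
    refine (hlate T u hu α σ r R hα hσT hr hR0 (by linarith) X Z hXσ hZ σ'
      ⟨by linarith, hσσ.le⟩ _ hl0 (hbb.trans hb4) ?_ τ hτ).trans ?_
    · rw [hZσ]
      refine hYX.trans ?_
      linarith
    · exact mul_le_mul_of_nonneg_left hbb hr.le
  have hZX : ∀ τ ∈ Icc σ' σ, ‖Z τ - X τ‖ ≤ (1 / 16 + (1 / 2) ^ (j + 4)) * r := by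
    intro τ hτ
    have h2 := hdz τ hτ
    rw [hZσ] at h2
    have h3 : ‖Z τ - X τ‖ ≤ ‖(Z τ - X τ) - (Y σ - X σ)‖ + ‖Y σ - X σ‖ := by
      calc ‖Z τ - X τ‖ = ‖((Z τ - X τ) - (Y σ - X σ)) + (Y σ - X σ)‖ := by rw [sub_add_cancel]
        _ ≤ _ := norm_add_le _ _
    have e4 : (1 / 2 : ℝ) ^ (j + 4) = (1 / 2) ^ (j + 5) + (1 / 2) ^ (j + 1 + 4) := by
      rw [show j + 1 + 4 = j + 5 by omega, show j + 5 = (j + 4) + 1 by omega, pow_succ]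
      ring
    rw [e4]
    linarith
  -- early
  have hZ' : Pth (R * r) u α σ' Z := hZ.mono le_rfl hσσ.le
  have hearly : ms u (R * r) Z (σ' - (R * r) ^ 2) σ' ≤ ε2 := by
    rw [hR] at hZ' ⊢
    exact hP Z hZ' (hZX σ' ⟨le_rfl, hσσ.le⟩)
  -- late
  have hB2Z : ∀ a b : ℝ, α ≤ a → a ≤ b → b ≤ σ →
      IntervalIntegrable (fun τ => B2 (Z τ) (8 * (R * r)) (u τ)) volume a b :=
    fun a b h2 h3 h4 => B2_ii hu hα hσT hZ.cont _ h2 h3 h4
  have hj4 : (1 / 2 : ℝ) ^ (j + 4) ≤ 1 / 16 := by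
    calc (1 / 2 : ℝ) ^ (j + 4) ≤ (1 / 2) ^ 4 :=
          pow_le_pow_of_le_one (by norm_num) (by norm_num) (by omega)
      _ = 1 / 16 := by norm_num
  have hj4r := mul_le_mul_of_nonneg_right hj4 hr.le
  have hlate2 : ms u (R * r) Z σ' σ ≤ R⁻¹ * ms u r X σ' σ := by
    unfold ms
    have h2 : ∫ τ in σ'..σ, B2 (Z τ) (8 * (R * r)) (u τ)
        ≤ ∫ τ in σ'..σ, B2 (X τ) (8 * r) (u τ) := by
      apply intervalIntegral.integral_mono_on hσσ.le (hB2Z σ' σ (by linarith) hσσ.le le_rfl)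
        (B2_ii hu hα hσT hXσ.cont _ (by linarith) hσσ.le le_rfl)
      intro τ hτ
      have hτT : τ ∈ Ioo 0 T := ⟨by linarith [hτ.1], by linarith [hτ.2]⟩
      apply B2_mono (W382.ME.cd_slice hu hτT)
      apply ball_subset_ball'
      rw [dist_eq_norm]
      have h3 := hZX τ hτ
      have h4 : 8 * (R * r) ≤ 7 * r := by nlinarith only [hRs, hr, hR0]
      linarith
    rw [mul_inv, mul_assoc]
    apply mul_le_mul_of_nonneg_left _ (by positivity)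
    exact mul_le_mul_of_nonneg_left h2 (by positivity)
  have htotal : ms u (R * r) Z (σ - (R * r) ^ 2) σ ≤ ε2 + R⁻¹ * (2 ^ K / C') := by
    have h2 : ms u (R * r) Z (σ - (R * r) ^ 2) σ ≤ ms u (R * r) Z (σ' - (R * r) ^ 2) σ :=
      ms_mono hu hα hσT hZ.cont hRr (by linarith) (by linarith) (by linarith) le_rfl le_rfl
    have h3 : ms u (R * r) Z (σ' - (R * r) ^ 2) σ
        = ms u (R * r) Z (σ' - (R * r) ^ 2) σ' + ms u (R * r) Z σ' σ := by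
      unfold ms
      rw [← mul_add, intervalIntegral.integral_add_adjacent_intervals
        (hB2Z _ _ (by linarith) (by linarith) hσσ.le) (hB2Z _ _ (by linarith) hσσ.le le_rfl)]
    have h4 := mul_le_mul_of_nonneg_left hm1 (inv_nonneg.2 hR0.le)
    linarith
  -- the force
  have hRF : C' * ((R * r) ^ 3 * F) ≤ ε1 / 2 := by
    refine le_trans ?_ hFr
    apply mul_le_mul_of_nonneg_left _ hC'.le
    apply mul_le_mul_of_nonneg_right _ hF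
    exact pow_le_pow_left₀ hRr.le hRrr 3
  -- conclusion
  have hYY : Pth (rr (4 * (2 * K + k1) + 2 * k1 + 5) * (R * r)) u α σ Y := by
    rw [← mul_assoc, hR, rr_add]
    exact hY
  have hfin := hchg (2 * K + k1) T κ E F O u p hF hL α σ (R * r) hα hσT hRr hRr1
    (by rw [← hsg2]; linarith) Z Y hZ hYY (by
      rw [← hsg2]
      intro t ht
      have ht1 := ht.1
      have ht2 := ht.2
      have h2 := pth_speed2 hCM hmol hκ hE hL (ρ := R * r) (r := r) hRr hRrr hα hσT hZ (a := t)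
        (b := σ) (by linarith) ht2.le le_rfl (by linarith)
      have h3 := pth_speed2 hCM hmol hκ hE hL (ρ := r) (r := r) hr le_rfl hα hs hX (a := σ)
        (b := s) (by linarith) hσs le_rfl (by linarith)
      refine subset_trans ?_ hO
      apply ball_subset_ball'
      rw [dist_eq_norm]
      have h4 : ‖Z t - X s‖ ≤ ‖Z σ - Z t‖ + ‖Y σ - X σ‖ + ‖X s - X σ‖ := by
        calc ‖Z t - X s‖ = ‖(-(Z σ - Z t) + (Y σ - X σ)) - (X s - X σ)‖ := by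
              rw [hZσ]; congr 1; abel
          _ ≤ ‖-(Z σ - Z t) + (Y σ - X σ)‖ + ‖X s - X σ‖ := norm_sub_le _ _
          _ ≤ ‖-(Z σ - Z t)‖ + ‖Y σ - X σ‖ + ‖X s - X σ‖ := by gcongr; exact norm_add_le _ _
          _ = _ := by rw [norm_neg]
      have h5 : 8 * (R * r) ≤ 8 * r := by linarith
      linarith)
    (by
      rw [← hsg2, mul_add]
      have := mul_le_mul_of_nonneg_left hearly hC'.le
      linarith)
    (by
      rw [mul_add]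
      have h2 := mul_le_mul_of_nonneg_left htotal hC'.le
      have h3 : C' * (ε2 + R⁻¹ * (2 ^ K / C')) = C' * ε2 + R⁻¹ * 2 ^ K := by
        field_simp
      have h4 : R⁻¹ = 2 ^ K := by
        rw [hR]
        unfold rr
        rw [one_div, inv_pow, inv_inv]
      have h5 : (2 : ℝ) ^ (2 * K + k1) = 2 ^ K * 2 ^ K * 2 ^ k1 := by
        rw [← pow_add, ← pow_add]
        congr 1
        ring
      have h6 : (2 : ℝ) ≤ 2 ^ k1 := by
        calc (2 : ℝ) = 2 ^ 1 := (pow_one _).symm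
          _ ≤ 2 ^ k1 := pow_le_pow_right₀ (by norm_num) hk1
      have h7 : (1 : ℝ) ≤ 2 ^ K := one_le_pow₀ (by norm_num)
      have h8 : (1 : ℝ) ≤ 2 ^ K * 2 ^ K := one_le_mul_of_one_le_of_one_le h7 h7
      rw [h3, h4] at h2
      rw [h5]
      have h9 := mul_le_mul_of_nonneg_left h6 (show (0 : ℝ) ≤ 2 ^ K * 2 ^ K by positivity)
      linarith)
    (by rw [hZσ, sub_self, norm_zero]; positivity)
  rw [← mul_assoc, hR, rr_add] at hfin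
  exact hfin

end

end Pool.Agent.TH305.LW
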