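import Pool.Agent.TH305.LW.Disp2

/-!
Late window lemma (helper305): generations, preparations.
-/

set_option autoImplicit false

open MeasureTheory Set Metric Filter Topology
open scoped ContDiff

namespace Pool.Agent.TH305.LW

open H459R3.NS W221.NS W221.NS.B Pool.Agent.W12.MD

/-! ### Paths -/

lemma lsol_empty {T κ E F : ℝ} {O : Set V} {u : ℝ → V → V} {p : ℝ → V → ℝ}
    (hsol : LSol3 T κ E F O u p) : LSol T κ E ∅ u p :=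
  { openO := isOpen_empty
    smooth_u := hsol.smooth_u
    smooth_p := hsol.smooth_p
    divfree := fun t _ x hx => absurd hx (Set.notMem_empty x)
    momentum := fun t _ x hx => absurd hx (Set.notMem_empty x)
    en_int := hsol.en_int
    en := hsol.en
    dv_int := hsol.dv_int
    dvb := hsol.dvb }

/-- The mollified velocity is bounded and has a flow. -/
theorem moll3 : ∃ C : ℝ, 0 < C ∧ ∀ (T κ E F : ℝ) (O : Set V) (u : ℝ → V → V) (p : ℝ → V → ℝ),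
    0 ≤ κ → 0 ≤ E → LSol3 T κ E F O u p → ∀ r : ℝ, 0 < r →
      ∃ L : ℝ, Good2 T (C * E / √(r ^ 3)) L (C * κ / √(r ^ 3)) (mol r u) := by
  obtain ⟨CM, hCM, hmol⟩ := p_moll2
  exact ⟨CM, hCM, fun T κ E F O u p hκ hE hL r hr => hmol T κ E ∅ u p hκ hE (lsol_empty hL) r hr⟩

lemma pth_speed {M : ℝ} {ρ : ℝ} {u : ℝ → V → V} {α β : ℝ} {Z : ℝ → V} (hZ : Pth ρ u α β Z)
    (hM : ∀ t ∈ Ioo α β, ∀ x, ‖mol ρ u t x‖ ≤ M) {a b : ℝ} (ha : α < a) (hab : a ≤ b)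
    (hb : b ≤ β) : ‖Z b - Z a‖ ≤ M * (b - a) := by
  have hc : ContinuousOn Z (Icc a b) := hZ.cont.mono (Icc_subset_Icc ha.le hb)
  have h := norm_image_sub_le_of_norm_deriv_right_le_segment (f' := fun τ => mol ρ u τ (Z τ))
    (C := M) hc
    (fun τ hτ => (hZ.ode τ ⟨ha.trans_le hτ.1, hτ.2.trans_le hb⟩).hasDerivWithinAt)
    (fun τ hτ => hM τ ⟨ha.trans_le hτ.1, hτ.2.trans_le hb⟩ _)
  exact h b ⟨hab, le_rfl⟩

lemma sqrt_cube {ρ : ℝ} (hρ : 0 < ρ) : √(ρ ^ 3) = ρ * √ρ := by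
  rw [show ρ ^ 3 = ρ ^ 2 * ρ by ring, Real.sqrt_mul (by positivity), Real.sqrt_sq hρ.le]

lemma speed_num {C E ρ : ℝ} (hρ : 0 < ρ) : C * E / √(ρ ^ 3) * ρ ^ 2 = C * E * √ρ := by
  have hs : √ρ * √ρ = ρ := Real.mul_self_sqrt hρ.le
  have hs0 : 0 < √ρ := Real.sqrt_pos.2 hρ
  rw [sqrt_cube hρ, div_mul_eq_mul_div, div_eq_iff (by positivity)]
  calc C * E * ρ ^ 2 = C * E * (ρ * (√ρ * √ρ)) := by rw [hs]; ring
    _ = _ := by ring

/-- The displacement along a path over two units of time. -/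
lemma pth_speed2 {C : ℝ} (hC : 0 < C) (hmol : ∀ (T κ E F : ℝ) (O : Set V) (u : ℝ → V → V)
    (p : ℝ → V → ℝ),
    0 ≤ κ → 0 ≤ E → LSol3 T κ E F O u p → ∀ r : ℝ, 0 < r →
      ∃ L : ℝ, Good2 T (C * E / √(r ^ 3)) L (C * κ / √(r ^ 3)) (mol r u))
    {T κ E F : ℝ} {O : Set V} {u : ℝ → V → V} {p : ℝ → V → ℝ} (hκ : 0 ≤ κ) (hE : 0 ≤ E)
    (hL : LSol3 T κ E F O u p) {ρ r α β : ℝ} (hρ : 0 < ρ) (hρr : ρ ≤ r) (hα : 0 < α) (hβ : β < T)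
    {Z : ℝ → V} (hZ : Pth ρ u α β Z) {a b : ℝ} (ha : α < a) (hab : a ≤ b) (hb : b ≤ β)
    (h2 : b - a ≤ 2 * ρ ^ 2) : ‖Z b - Z a‖ ≤ 2 * C * E * √r := by
  obtain ⟨L, hg⟩ := hmol T κ E F O u p hκ hE hL ρ hρ
  have h1 := pth_speed hZ (fun t ht x => hg.bd t ⟨hα.trans ht.1, ht.2.trans hβ⟩ x) ha hab hb
  have hM0 : 0 ≤ C * E / √(ρ ^ 3) := by positivity
  have h3 : C * E / √(ρ ^ 3) * (b - a) ≤ C * E / √(ρ ^ 3) * (2 * ρ ^ 2) :=
    mul_le_mul_of_nonneg_left h2 hM0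
  have h4 := speed_num (C := C) (E := E) hρ
  have h5 : √ρ ≤ √r := Real.sqrt_le_sqrt hρr
  have h6 : C * E * √ρ ≤ C * E * √r := mul_le_mul_of_nonneg_left h5 (by positivity)
  calc ‖Z b - Z a‖ ≤ C * E / √(ρ ^ 3) * (2 * ρ ^ 2) := h1.trans h3
    _ = 2 * (C * E / √(ρ ^ 3) * ρ ^ 2) := by ring
    _ = 2 * (C * E * √ρ) := by rw [h4]
    _ ≤ 2 * (C * E * √r) := by linarith
    _ = _ := by ring

/-- Existence of a path. -/
lemma pth_exists {C : ℝ} (hmol : ∀ (T κ E F : ℝ) (O : Set V) (u : ℝ → V → V) (p : ℝ → V → ℝ),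
    0 ≤ κ → 0 ≤ E → LSol3 T κ E F O u p → ∀ r : ℝ, 0 < r →
      ∃ L : ℝ, Good2 T (C * E / √(r ^ 3)) L (C * κ / √(r ^ 3)) (mol r u))
    {T κ E F : ℝ} {O : Set V} {u : ℝ → V → V} {p : ℝ → V → ℝ} (hκ : 0 ≤ κ) (hE : 0 ≤ E)
    (hL : LSol3 T κ E F O u p) {ρ α β : ℝ} (hρ : 0 < ρ) (hα : 0 < α) (hαβ : α < β) (hβ : β < T)
    (z : V) : ∃ Z : ℝ → V, Pth ρ u α β Z ∧ Z β = z := by
  obtain ⟨L, hg⟩ := hmol T κ E F O u p hκ hE hL ρ hρ
  obtain ⟨X, hX⟩ := p_flowx2 T _ L _ (mol ρ u) hg α β hα hαβ hβ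
  exact ⟨fun t => X t z, Pth.ofFlow hX z, hX.fin z⟩

/-! ### The sequences -/

/-- The scales. -/
def KK (k1 : ℕ) : ℕ → ℕ
  | 0 => 0
  | (j + 1) => 9 * KK k1 j + 6 * k1 + 5

/-- The exponents of the times. -/
def dd (k1 j : ℕ) : ℕ := 128 * KK k1 j + 91 * k1

lemma KK_ge (k1 j : ℕ) : j ≤ KK k1 j := by
  induction j with
  | zero => exact le_rfl
  | succ j ih =>
    show j + 1 ≤ 9 * KK k1 j + 6 * k1 + 5
    omega

lemma dd_ge {k1 : ℕ} (h : 1 ≤ k1) (j : ℕ) : j + 1 ≤ dd k1 j := by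
  have := KK_ge k1 j
  unfold dd
  omega

/-- The times. -/
noncomputable def sg (k1 J : ℕ) (s r : ℝ) (j : ℕ) : ℝ :=
  s - r ^ 2 * ∑ i ∈ Finset.Ico j (J + 1), (1 / 2 : ℝ) ^ dd k1 i

lemma sg_top (k1 J : ℕ) (s r : ℝ) : sg k1 J s r (J + 1) = s := by
  unfold sg
  simp

lemma sg_succ {k1 J j : ℕ} (s r : ℝ) (h : j ≤ J) :
    sg k1 J s r j = sg k1 J s r (j + 1) - (1 / 2) ^ dd k1 j * r ^ 2 := by
  unfold sg
  rw [Finset.sum_eq_sum_Ico_succ_bot (by omega)]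
  ring

lemma sg_le (k1 J j : ℕ) (s r : ℝ) : sg k1 J s r j ≤ s := by
  unfold sg
  have : 0 ≤ r ^ 2 * ∑ i ∈ Finset.Ico j (J + 1), (1 / 2 : ℝ) ^ dd k1 i :=
    mul_nonneg (sq_nonneg _) (Finset.sum_nonneg fun _ _ => by positivity)
  linarith

lemma sg_le' {k1 J j : ℕ} (s r : ℝ) (h : j ≤ J) :
    sg k1 J s r j ≤ s - (1 / 2) ^ dd k1 j * r ^ 2 := by
  rw [sg_succ s r h]
  have := sg_le k1 J (j + 1) s r
  linarith

lemma sum_half (N : ℕ) : ∑ i ∈ Finset.range N, (1 / 2 : ℝ) ^ (i + 1) = 1 - (1 / 2) ^ N := by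
  induction N with
  | zero => simp
  | succ N ih =>
    rw [Finset.sum_range_succ, ih]
    ring

lemma sg_ge {k1 : ℕ} (hk : 1 ≤ k1) (J j : ℕ) (s r : ℝ) : s - r ^ 2 ≤ sg k1 J s r j := by
  unfold sg
  have h1 : ∑ i ∈ Finset.Ico j (J + 1), (1 / 2 : ℝ) ^ dd k1 i
      ≤ ∑ i ∈ Finset.range (J + 1), (1 / 2 : ℝ) ^ (i + 1) := by
    calc ∑ i ∈ Finset.Ico j (J + 1), (1 / 2 : ℝ) ^ dd k1 i
        ≤ ∑ i ∈ Finset.Ico j (J + 1), (1 / 2 : ℝ) ^ (i + 1) := by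
          apply Finset.sum_le_sum
          intro i _
          exact pow_le_pow_of_le_one (by norm_num) (by norm_num) (dd_ge hk i)
      _ ≤ _ := by
          apply Finset.sum_le_sum_of_subset_of_nonneg
          · intro i hi
            rw [Finset.mem_Ico] at hi
            exact Finset.mem_range.2 hi.2
          · intro i _ _
            positivity
  rw [sum_half] at h1
  have h2 : (0 : ℝ) ≤ (1 / 2) ^ (J + 1) := by positivity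
  have h3 := mul_le_mul_of_nonneg_left (h1.trans (by linarith : 1 - (1 / 2 : ℝ) ^ (J + 1) ≤ 1))
    (sq_nonneg r)
  linarith

end Pool.Agent.TH305.LW
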