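import Pool.Agent.TH305.LW.Gen

/-!
Late window lemma (helper305): all generations.
-/

set_option autoImplicit false

open MeasureTheory Set Metric Filter Topology
open scoped ContDiff

namespace Pool.Agent.TH305.LW

open H459R3.NS W221.NS W221.NS.B Pool.Agent.W12.MD

lemma rpow_low' {q m N : ℕ} (hq : q ≠ 0) (h : m ≤ q * N) :
    (1 / 2 : ℝ) ^ N ≤ ((1 / 2 : ℝ) ^ m) ^ (1 / (q : ℝ)) := by
  have h1 : (((1 / 2 : ℝ) ^ N) ^ q) ^ (1 / (q : ℝ)) = (1 / 2) ^ N := by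
    have h0 : (0 : ℝ) ≤ (1 / 2) ^ N := by positivity
    rw [one_div (q : ℝ)]
    exact Real.pow_rpow_inv_natCast h0 hq
  rw [← h1, ← pow_mul]
  apply Real.rpow_le_rpow (by positivity) _ (by positivity)
  apply pow_le_pow_of_le_one (by norm_num) (by norm_num)
  rw [mul_comm]
  exact h

lemma rpow_low {m N : ℕ} (h : m ≤ 1152 * N) :
    (1 / 2 : ℝ) ^ N ≤ ((1 / 2 : ℝ) ^ m) ^ (1 / 1152 : ℝ) := by
  have h1 := rpow_low' (q := 1152) (by norm_num) h
  rwa [Nat.cast_ofNat] at h1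

/-- The local regularity statement with a weight in time: if the weighted dissipation along a path
is small, the dissipation at a small scale is small. -/
theorem gen_all : ∃ CM : ℝ, 0 < CM ∧ MollP CM ∧ ∀ εt : ℝ, 0 < εt → ∃ (k1 : ℕ) (ε0 : ℝ),
    1 ≤ k1 ∧ 0 < ε0 ∧ ∀ (T κ E F : ℝ) (O : Set V) (u : ℝ → V → V) (p : ℝ → V → ℝ), 0 ≤ κ →
    0 ≤ E → 0 ≤ F → LSol3 T κ E F O u p → ∀ α s r : ℝ, 0 < α → s < T → 0 < r → r ≤ 1 →
    α < s - 2 * r ^ 2 → r ^ 3 * F ≤ ε0 → ∀ X : ℝ → V, Pth r u α s X →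
    ball (X s) (10 * r + 4 * CM * E * √r) ⊆ O →
    (∀ θ ∈ Ioo (0 : ℝ) 1, θ ^ (1 / 1152 : ℝ) * ms u r X (s - 2 * r ^ 2) (s - θ * r ^ 2) ≤ ε0) →
    ∀ J : ℕ, ms u r X (s - 2 * r ^ 2) s ≤ ε0 * 2 ^ KK k1 J →
    ∀ Y : ℝ → V, Pth (rr (KK k1 (J + 1)) * r) u α s Y → ‖Y s - X s‖ ≤ r / 16 →
      ms u (rr (KK k1 (J + 1)) * r) Y (s - (rr (KK k1 (J + 1)) * r) ^ 2) s ≤ εt := by
  obtain ⟨g, Cg, hCg, hg⟩ := p_green
  obtain ⟨C', hC', hhyp⟩ := p_hyp3 g Cg hg
  obtain ⟨CM, hCM, hmol⟩ := moll3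
  obtain ⟨CD, hCD, hlate⟩ := late_disp
  obtain ⟨ε1, hε1, hε11, hchg⟩ := chg hC' hhyp
  refine ⟨CM, hCM, hmol, ?_⟩
  intro εt hεt
  obtain ⟨ε2, hε2⟩ : ∃ ε2, ε2 = min εt (ε1 / (2 * C')) := ⟨_, rfl⟩
  have hε20 : 0 < ε2 := by rw [hε2]; positivity
  have hε2t : ε2 ≤ εt := by rw [hε2]; exact min_le_left _ _
  have hε2C : C' * ε2 ≤ ε1 / 2 := by
    have h1 : ε2 ≤ ε1 / (2 * C') := by rw [hε2]; exact min_le_right _ _
    have h2 := mul_le_mul_of_nonneg_left h1 hC'.le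
    have h3 : C' * (ε1 / (2 * C')) = ε1 / 2 := by field_simp
    linarith
  obtain ⟨k0, hk0⟩ := hchg ε2 hε20
  obtain ⟨k2, hk2⟩ := pow_unbounded_of_one_lt (CD * (1 + 1 / C')) (show (1 : ℝ) < 2 by norm_num)
  obtain ⟨k1, hk1⟩ : ∃ k1, k1 = max (max k0 k2) 1 := ⟨_, rfl⟩
  have hk11 : 1 ≤ k1 := by rw [hk1]; exact le_max_right _ _
  have hk01 : k0 ≤ k1 := by rw [hk1]; exact (le_max_left _ _).trans (le_max_left _ _)
  have hk21 : k2 ≤ k1 := by rw [hk1]; exact (le_max_right _ _).trans (le_max_left _ _)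
  have hCP : ChgP C' ε1 ε2 k1 := hk0 k1 hk01
  have hCk : CD * (1 + 1 / C') ≤ 2 ^ k1 :=
    hk2.le.trans (pow_le_pow_right₀ (by norm_num) hk21)
  obtain ⟨ε0, hε0⟩ : ∃ ε0, ε0 = min (ε1 / (2 * C')) (min (ε2 / 2 ^ k1) (1 / (C' * 2 ^ (k1 + 1)))) :=
    ⟨_, rfl⟩
  have hε00 : 0 < ε0 := by rw [hε0]; positivity
  have a1 : ε0 ≤ ε1 / (2 * C') := by rw [hε0]; exact min_le_left _ _
  have a2 : ε0 ≤ ε2 / 2 ^ k1 := by rw [hε0]; exact (min_le_right _ _).trans (min_le_left _ _)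
  have a3 : ε0 ≤ 1 / (C' * 2 ^ (k1 + 1)) := by
    rw [hε0]; exact (min_le_right _ _).trans (min_le_right _ _)
  refine ⟨k1, ε0, hk11, hε00, ?_⟩
  intro T κ E F O u p hκ hE hF hL α s r hα hs hr hr1 hαs hFr X hX hO hw J hJ Y hY hYX
  have hu := hL.smooth_u
  have hr2 : 0 < r ^ 2 := by positivity
  have hFr' : C' * (r ^ 3 * F) ≤ ε1 / 2 := by
    have h2 := mul_le_mul_of_nonneg_left (hFr.trans a1) hC'.le
    have h3 : C' * (ε1 / (2 * C')) = ε1 / 2 := by field_simp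
    linarith
  have hms0 : ∀ b, s - 2 * r ^ 2 ≤ b → 0 ≤ ms u r X (s - 2 * r ^ 2) b := fun b hb =>
    ms_nonneg hr hb
  -- the weighted bound at dyadic times
  have key : ∀ m N : ℕ, 1 ≤ m → m ≤ 1152 * N →
      ms u r X (s - 2 * r ^ 2) (s - (1 / 2) ^ m * r ^ 2) ≤ 2 ^ N * ε0 := by
    intro m N hm hmN
    have hθ0 : (0 : ℝ) < (1 / 2) ^ m := by positivity
    have hθ1 : (1 / 2 : ℝ) ^ m < 1 := pow_lt_one₀ (by norm_num) (by norm_num) (by omega)
    have h1 := hw _ ⟨hθ0, hθ1⟩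
    have h2 := rpow_low hmN
    have h3 : 0 ≤ ms u r X (s - 2 * r ^ 2) (s - (1 / 2) ^ m * r ^ 2) := by
      apply hms0
      nlinarith only [hθ1, hr2]
    have h4 := (mul_le_mul_of_nonneg_right h2 h3).trans h1
    have h5 : (2 : ℝ) ^ N * (1 / 2) ^ N = 1 := by rw [← mul_pow]; norm_num
    have h6 := mul_le_mul_of_nonneg_left h4 (show (0 : ℝ) ≤ 2 ^ N by positivity)
    rw [← mul_assoc, h5, one_mul] at h6
    exact h6
  -- the hypothesis of the first generation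
  have h0 : ms u r X (s - 2 * r ^ 2) (s - (1 / 2) ^ dd k1 0 * r ^ 2) ≤ ε2 := by
    have e : dd k1 0 = 91 * k1 := by
      show 128 * 0 + 91 * k1 = _
      omega
    refine (key (dd k1 0) k1 (by omega) (by omega)).trans ?_
    rw [le_div_iff₀ (by positivity)] at a2
    linarith
  -- the dissipation up to the times of the generations
  have hj : ∀ j ≤ J, ms u r X (s - 2 * r ^ 2) (sg k1 J s r (j + 1)) ≤ 2 ^ KK k1 j / C' := by
    intro j hj
    have hK0 : (0 : ℝ) < 2 ^ KK k1 j := by positivity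
    rcases hj.lt_or_eq with h | h
    · have h1 := sg_le' (k1 := k1) (J := J) (j := j + 1) s r h
      have h2 := sg_ge hk11 J (j + 1) s r
      have h3 : dd k1 (j + 1) ≤ 1152 * (KK k1 j + k1 + 1) := by
        show 128 * (9 * KK k1 j + 6 * k1 + 5) + 91 * k1 ≤ _
        omega
      have h4 := key (dd k1 (j + 1)) (KK k1 j + k1 + 1)
        (by have := dd_ge hk11 (j + 1); omega) h3
      have hd0 : 0 < (1 / 2 : ℝ) ^ dd k1 (j + 1) * r ^ 2 := by positivity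
      have h5 : ms u r X (s - 2 * r ^ 2) (sg k1 J s r (j + 1))
          ≤ ms u r X (s - 2 * r ^ 2) (s - (1 / 2) ^ dd k1 (j + 1) * r ^ 2) :=
        ms_mono hu hα hs hX.cont hr hαs.le le_rfl (by linarith) h1 (by linarith)
      refine h5.trans (h4.trans ?_)
      have h6 := mul_le_mul_of_nonneg_left a3
        (show (0 : ℝ) ≤ 2 ^ (KK k1 j + k1 + 1) by positivity)
      refine h6.trans (le_of_eq ?_)
      rw [add_assoc, pow_add]
      field_simp
    · rw [h, sg_top]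
      refine hJ.trans ?_
      have h7 : ε0 ≤ 1 / C' := by
        refine a3.trans ?_
        apply one_div_le_one_div_of_le hC'
        exact le_mul_of_one_le_right hC'.le (one_le_pow₀ (by norm_num))
      have h8 := mul_le_mul_of_nonneg_right h7 (show (0 : ℝ) ≤ 2 ^ KK k1 J by positivity)
      refine h8.trans (le_of_eq ?_)
      ring
  have hOX : ∀ t ∈ Ioo (s - 2 * r ^ 2) s, ball (X t) (8 * r) ⊆ O := by
    intro t ht
    have h2 := pth_speed2 hCM hmol hκ hE hL (ρ := r) (r := r) hr le_rfl hα hs hX (a := t)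
        (b := s) (by linarith [ht.1]) ht.2.le le_rfl (by linarith [ht.1])
    refine subset_trans ?_ hO
    apply ball_subset_ball'
    rw [dist_comm, dist_eq_norm]
    have h3 : 0 ≤ CM * E * √r := by positivity
    linarith
  have hall : ∀ i, i ≤ J → PP u r ε2 k1 J α s X (i + 1) := by
    intro i
    induction i with
    | zero =>
      intro _
      apply gen_base hCP hC' hk11 hε11 hε2C hF hL hα hs hr hr1 hαs.le hFr' hX hOX J h0
      have := hj 0 (Nat.zero_le _)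
      have e : KK k1 0 = 0 := rfl
      rw [e, pow_zero] at this
      exact this
    | succ i ih =>
      intro hi
      exact gen_step hCP hlate hmol hC' hCD hCM hk11 hCk hε11 hε2C hκ hE hF hL hα hs hr hr1 hαs
        hFr' hX hO J (i + 1) (by omega) hi (hj (i + 1) hi) (ih (by omega))
  have hfin := hall J le_rfl
  unfold PP at hfin
  rw [sg_top] at hfin
  refine (hfin Y hY (hYX.trans ?_)).trans hε2t
  have h9 : 0 ≤ (1 / 2 : ℝ) ^ (J + 1 + 4) * r := by positivity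
  linarith

end Pool.Agent.TH305.LW
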