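import Pool.Agent.TH305.LW.Early

/-!
Late window lemma (helper305): the rate at late times.
-/

set_option autoImplicit false

open MeasureTheory Set Metric
open scoped ContDiff

namespace Pool.Agent.TH305.LW

open H459R3.NS W221.NS W221.NS.B

lemma B2_mono {W : V → V} (hW : ContDiff ℝ ∞ W) {a b : V} {ρ σ : ℝ} (h : ball a ρ ⊆ ball b σ) :
    B2 a ρ W ≤ B2 b σ W := by
  unfold B2
  apply setIntegral_mono_set (Pool.Agent.W386.MD.iob (W612.MD.gsq_cont hW) _ _)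
  · exact Filter.Eventually.of_forall fun z => W612.MD.gsq_nonneg W z
  · exact h.eventuallyLE

lemma sqrt_le_z {g h L : ℝ} (hg : 0 ≤ g) (hh : 0 < h) (hL : 1 / h ≤ L) : √g ≤ h * g + L := by
  have h1 := Real.sq_sqrt hg
  have h2 := Real.sqrt_nonneg g
  have h3 : 0 ≤ (h * √g - 1) ^ 2 / h := by positivity
  have h4 : (h * √g - 1) ^ 2 / h = h * √g ^ 2 - 2 * √g + 1 / h := by
    field_simp
    ring
  rw [h4, h1] at h3
  linarith

lemma late_alg {g A b Y p N2 s T z CR CL CW E : ℝ} (hg : 0 ≤ g) (hb : 0 ≤ b)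
    (hA0 : 0 ≤ A) (hY0 : 0 ≤ Y) (hz : 1 ≤ z) (hsz : √g ≤ z) (hN : 1 ≤ N2)
    (hs1 : 1 ≤ s) (hsE : s * s = E) (hET : E ≤ T) (hCR : 1 ≤ CR) (hCL : 0 < CL) (hCW : 0 < CW)
    (hA : A ≤ CR * N2 ^ 2) (hbA : b ≤ A) (hY : Y ≤ E * A)
    (hp : p ≤ T * (CL * ((CR + CW) * N2 ^ 2 * z))) {T16 : ℝ} (h16 : T16 ≤ T) (h160 : 0 ≤ T16) :
    T * b + √g * (T16 * b) + g * √A + √g * A + √b * p + g * (√b * s) + √g * Y + (√g + g) * √Y
      ≤ (5 * CR + CR * CL * (CR + CW)) * (N2 * s * g + T * N2 ^ 3 * z) := by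
  have hE1 : 1 ≤ E := by nlinarith
  have hsE' : s ≤ E := by nlinarith
  have hT1 : 1 ≤ T := by linarith
  have hT0 : 0 < T := by linarith
  have hN0 : 0 < N2 := by linarith
  have hz0 : 0 < z := by linarith
  have hCR0 : 0 < CR := by linarith
  have hs0 : 0 < s := by linarith
  have sg0 : 0 ≤ √g := Real.sqrt_nonneg _
  have hbq : b ≤ CR * N2 ^ 2 := hbA.trans hA
  have hq : ∀ x : ℝ, x ≤ CR * N2 ^ 2 → √x ≤ CR * N2 := by
    intro x hx
    rw [Real.sqrt_le_left (by positivity)]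
    nlinarith [sq_nonneg N2, mul_nonneg (sub_nonneg.2 hCR) (mul_nonneg hCR0.le (sq_nonneg N2))]
  have hsA := hq A hA
  have hsb := hq b hbq
  have hsY : √Y ≤ s * (CR * N2) := by
    have h1 : √Y ≤ √(E * A) := Real.sqrt_le_sqrt hY
    have h2 : √(E * A) = s * √A := by
      rw [← hsE, Real.sqrt_mul (by positivity), Real.sqrt_mul_self hs0.le]
    rw [h2] at h1
    exact h1.trans (mul_le_mul_of_nonneg_left hsA hs0.le)
  have hN23 : N2 ^ 2 ≤ N2 ^ 3 := pow_le_pow_right₀ hN (by norm_num)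
  have hN13 : N2 ≤ N2 ^ 3 := by
    calc N2 = N2 ^ 1 := (pow_one _).symm
      _ ≤ N2 ^ 3 := pow_le_pow_right₀ hN (by norm_num)
  obtain ⟨R2, hR2⟩ : ∃ R, R = T * N2 ^ 3 * z := ⟨_, rfl⟩
  obtain ⟨R1, hR1⟩ : ∃ R, R = N2 * s * g := ⟨_, rfl⟩
  have hR20 : 0 ≤ R2 := by rw [hR2]; positivity
  have hR10 : 0 ≤ R1 := by rw [hR1]; positivity
  have key : ∀ x y : ℝ, 0 ≤ x → x ≤ z → 0 ≤ y → y ≤ T * (CR * N2 ^ 3) → x * y ≤ CR * R2 := by
    intro x y hx hxz hy hyT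
    have h1 := mul_le_mul hxz hyT hy hz0.le
    rw [hR2]
    linarith
  have hqT : CR * N2 ^ 2 ≤ CR * N2 ^ 3 := mul_le_mul_of_nonneg_left hN23 hCR0.le
  have x1 : T * b ≤ CR * R2 := by
    have := key 1 (T * b) (by norm_num) hz (by positivity)
      (mul_le_mul_of_nonneg_left (hbq.trans hqT) hT0.le)
    linarith
  have x2 : √g * (T16 * b) ≤ CR * R2 :=
    key _ _ sg0 hsz (by positivity) (mul_le_mul h16 (hbq.trans hqT) hb hT0.le)
  have x3 : g * √A ≤ CR * R1 := by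
    have h1 := mul_le_mul_of_nonneg_left hsA hg
    have h2 : 0 ≤ CR * (N2 * g * (s - 1)) := by
      have : 0 ≤ s - 1 := by linarith
      positivity
    rw [hR1]
    nlinarith
  have x4 : √g * A ≤ CR * R2 := by
    apply key _ _ sg0 hsz hA0
    have h1 : CR * N2 ^ 3 ≤ T * (CR * N2 ^ 3) := le_mul_of_one_le_left (by positivity) hT1
    linarith
  have x5 : √b * p ≤ CR * CL * (CR + CW) * R2 := by
    have h1 : √b * p ≤ √b * (T * (CL * ((CR + CW) * N2 ^ 2 * z))) :=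
      mul_le_mul_of_nonneg_left hp (Real.sqrt_nonneg _)
    have h2 : √b * (T * (CL * ((CR + CW) * N2 ^ 2 * z)))
        ≤ (CR * N2) * (T * (CL * ((CR + CW) * N2 ^ 2 * z))) :=
      mul_le_mul_of_nonneg_right hsb (by positivity)
    refine h1.trans (h2.trans (le_of_eq ?_))
    rw [hR2]; ring
  have x6 : g * (√b * s) ≤ CR * R1 := by
    have h1 : g * (√b * s) ≤ g * ((CR * N2) * s) :=
      mul_le_mul_of_nonneg_left (mul_le_mul_of_nonneg_right hsb hs0.le) hg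
    refine h1.trans (le_of_eq ?_)
    rw [hR1]; ring
  have x7 : √g * Y ≤ CR * R2 := by
    apply key _ _ sg0 hsz hY0
    refine hY.trans ?_
    exact mul_le_mul hET (hA.trans hqT) hA0 hT0.le
  have x8 : √g * √Y ≤ CR * R2 := by
    apply key _ _ sg0 hsz (Real.sqrt_nonneg _)
    refine hsY.trans ?_
    exact mul_le_mul (hsE'.trans hET) (mul_le_mul_of_nonneg_left hN13 hCR0.le) (by positivity)
      hT0.le
  have x9 : g * √Y ≤ CR * R1 := by
    have h1 := mul_le_mul_of_nonneg_left hsY hg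
    refine h1.trans (le_of_eq ?_)
    rw [hR1]; ring
  rw [← hR2, ← hR1]
  have y1 : 0 ≤ CR * R1 := by positivity
  have y2 : 0 ≤ CR * CL * (CR + CW) * R1 := by positivity
  nlinarith

lemma PS_late {v W N : V → V} {P : V → ℝ} {g CL CW : ℝ} (hCW : 0 < CW)
    (hCL : 0 < CL)
    (hL4 : ∀ v : V → V, ContDiff ℝ ∞ v → ∀ (a : V) (j k : ℕ), j ≤ k →
      √(L4 a (rr (j + 1)) v) ≤ CL * √(rr k) * (4 ^ k * A2 a (rr j) v + B2 a (rr j) v))
    (hwb : B2 0 1 W ≤ CW * g) (hs : Slice2 v W N P g) {a : V} (ha : a ∈ ball (0 : V) (1 / 8))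
    {k l : ℕ} (hk : 5 ≤ k) (hkl : k ≤ 2 * l) :
    PS a W k ≤ 32 ^ k * (CL * (8 ^ l * A2 0 (3 / 4) W + CW * ((1 / 2) ^ l * g))) := by
  have hW := hs.sW
  have hg : 0 ≤ g := W356.ME.G_nonneg2 hs
  have hA0 : 0 ≤ A2 0 (3 / 4) W := W612.MD.A2_nonneg _ _ _
  obtain ⟨lam, hlam⟩ : ∃ lam, lam = CL * (8 ^ l * A2 0 (3 / 4) W + CW * ((1 / 2) ^ l * g)) :=
    ⟨_, rfl⟩
  have hlam0 : 0 ≤ lam := by rw [hlam]; positivity
  have ha' : dist a 0 < 1 / 8 := mem_ball.1 ha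
  have hL : ∀ j, 3 ≤ j → j ≤ 2 * l → √(L4 a (rr j) W) ≤ lam := by
    intro j hj hjl
    obtain ⟨i, rfl⟩ : ∃ i, j = i + 1 := ⟨j - 1, by omega⟩
    have h1 := hL4 W hW a i (2 * l) (by omega)
    have hrr : rr i ≤ 1 / 4 := by
      rw [← W612.MD.rr_two]
      exact W612.MD.rr_le (by omega)
    have h2 : A2 a (rr i) W ≤ A2 0 (3 / 4) W := by
      apply Pool.Agent.W386.MD.A2_mono hW
      apply ball_subset_ball'
      linarith
    have h3 : B2 a (rr i) W ≤ B2 0 1 W := by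
      apply B2_mono hW
      apply ball_subset_ball'
      linarith
    have e1 : √(rr (2 * l)) = (1 / 2) ^ l := by
      unfold rr
      rw [mul_comm, pow_mul, Real.sqrt_sq (by positivity)]
    have e2 : (4 : ℝ) ^ (2 * l) = 16 ^ l := by
      rw [pow_mul]; norm_num
    rw [e1, e2] at h1
    have h4 : (16 : ℝ) ^ l * A2 a (rr i) W + B2 a (rr i) W
        ≤ 16 ^ l * A2 0 (3 / 4) W + CW * g := by
      have := mul_le_mul_of_nonneg_left h2 (show (0 : ℝ) ≤ 16 ^ l by positivity)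
      linarith
    have h5 := mul_le_mul_of_nonneg_left h4 (show 0 ≤ CL * (1 / 2 : ℝ) ^ l by positivity)
    have e3 : ((1 / 2 : ℝ)) ^ l * 16 ^ l = 8 ^ l := by
      rw [← mul_pow]; norm_num
    refine h1.trans (h5.trans (le_of_eq ?_))
    rw [hlam, ← e3]
    ring
  have e8 : ∀ j ∈ Finset.Ico 3 (k - 2), √(32 ^ j) * √(8 ^ k) * √(L4 a (rr j) W)
      ≤ 16 ^ k * lam := by
    intro j hj
    rw [Finset.mem_Ico] at hj
    have h1 : √((32 : ℝ) ^ j) * √(8 ^ k) ≤ 16 ^ k := by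
      rw [← Real.sqrt_mul (by positivity), Real.sqrt_le_left (by positivity)]
      have : ((16 : ℝ) ^ k) ^ 2 = 32 ^ k * 8 ^ k := by
        rw [← pow_mul, mul_comm k 2, pow_mul, ← mul_pow]; norm_num
      rw [this]
      apply mul_le_mul_of_nonneg_right _ (by positivity)
      exact pow_le_pow_right₀ (by norm_num) (by omega)
    exact mul_le_mul h1 (hL j hj.1 (by omega)) (Real.sqrt_nonneg _) (by positivity)
  have hsum : ∑ j ∈ Finset.Ico 3 (k - 2), √(32 ^ j) * √(8 ^ k) * √(L4 a (rr j) W)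
      ≤ (k - 1) * (16 ^ k * lam) := by
    refine (Finset.sum_le_card_nsmul _ _ _ e8).trans ?_
    rw [nsmul_eq_mul, Nat.card_Ico]
    apply mul_le_mul_of_nonneg_right _ (by positivity)
    have h1 : k - 2 - 3 ≤ k - 1 := by omega
    calc ((k - 2 - 3 : ℕ) : ℝ) ≤ ((k - 1 : ℕ) : ℝ) := by exact_mod_cast h1
      _ = (k : ℝ) - 1 := by rw [Nat.cast_sub (by omega)]; norm_num
  have h2k : (k : ℝ) ≤ 2 ^ k := by exact_mod_cast (Nat.lt_two_pow_self (n := k)).le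
  have hfirst : 16 ^ k * √(L4 a (rr (k - 2)) W) ≤ 16 ^ k * lam :=
    mul_le_mul_of_nonneg_left (hL (k - 2) (by omega) (by omega)) (by positivity)
  unfold PS
  rw [← hlam]
  have e32 : (32 : ℝ) ^ k = 2 ^ k * 16 ^ k := by
    rw [← mul_pow]; norm_num
  have h0 : 0 ≤ 16 ^ k * lam := by positivity
  have h3 := mul_le_mul_of_nonneg_right h2k h0
  rw [e32]
  linarith

/-- The rate at late times. -/
theorem late : ∀ CR : ℝ, 1 ≤ CR → ∃ K : ℝ, 0 < K ∧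
    ∀ (v W N : V → V) (P : V → ℝ) (g : ℝ), Slice2 v W N P g → ∀ a ∈ ball (0 : V) (1 / 8),
      ∀ k l : ℕ, 5 ≤ k → k ≤ 2 * l → ∀ n : ℕ, A2 0 (3 / 4) W ≤ CR * 4 ^ n →
      RR g (A2 0 (3 / 4) W) (A2 a (rr k) W) (∫ z, nsq W z * tf k a z) (PS a W k) k
        ≤ K * (2 ^ n * √(8 ^ k) * g + 32 ^ k * 8 ^ n * ((1 / 2) ^ l * g + 8 ^ l)) := by
  intro CR hCR
  obtain ⟨CL, hCL, hL4⟩ := p_l4
  obtain ⟨CW, hCW, hwb⟩ := p_wb
  refine ⟨5 * CR + CR * CL * (CR + CW), by positivity, ?_⟩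
  intro v W N P g hs a ha k l hk hkl n hA
  have hW := hs.sW
  have hg : 0 ≤ g := W356.ME.G_nonneg2 hs
  have ha' : dist a 0 < 1 / 8 := mem_ball.1 ha
  obtain ⟨-, hwB, -, -⟩ := hwb v W N P g hs
  have hp := PS_late hCW hCL hL4 hwB hs ha hk hkl
  have hbA : A2 a (rr k) W ≤ A2 0 (3 / 4) W := by
    apply Pool.Agent.W386.MD.A2_mono hW
    apply ball_subset_ball'
    have : rr k ≤ 1 / 4 := by
      rw [← W612.MD.rr_two]
      exact W612.MD.rr_le (by omega)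
    linarith
  have hY := Y_le hW a k
  have hY2 : ∫ z, nsq W z * tf k a z ≤ 8 ^ k * A2 0 (3 / 4) W :=
    hY.trans (mul_le_mul_of_nonneg_left hbA (by positivity))
  have e4 : (4 : ℝ) ^ n = (2 ^ n) ^ 2 := by
    rw [← pow_mul, mul_comm, pow_mul]; norm_num
  have e8 : (8 : ℝ) ^ n = (2 ^ n) ^ 3 := by
    rw [← pow_mul, mul_comm, pow_mul]; norm_num
  rw [e4] at hA
  rw [e8]
  have hN : (1 : ℝ) ≤ 2 ^ n := one_le_pow₀ (by norm_num)
  have hz : (1 : ℝ) ≤ (1 / 2) ^ l * g + 8 ^ l := by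
    have h1 : (1 : ℝ) ≤ 8 ^ l := one_le_pow₀ (by norm_num)
    have h2 : 0 ≤ (1 / 2 : ℝ) ^ l * g := by positivity
    linarith
  have hsz : √g ≤ (1 / 2) ^ l * g + 8 ^ l := by
    apply sqrt_le_z hg (by positivity)
    have : 1 / (1 / 2 : ℝ) ^ l = 2 ^ l := by
      rw [one_div, ← inv_pow]; norm_num
    rw [this]
    exact pow_le_pow_left₀ (by norm_num) (by norm_num) l
  have hlg : 0 ≤ (1 / 2 : ℝ) ^ l * g := by positivity
  have hp2 : PS a W k ≤ 32 ^ k * (CL * ((CR + CW) * (2 ^ n) ^ 2 * ((1 / 2) ^ l * g + 8 ^ l))) := by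
    refine hp.trans ?_
    apply mul_le_mul_of_nonneg_left _ (by positivity)
    apply mul_le_mul_of_nonneg_left _ hCL.le
    have h1 : (8 : ℝ) ^ l * A2 0 (3 / 4) W ≤ 8 ^ l * (CR * (2 ^ n) ^ 2) :=
      mul_le_mul_of_nonneg_left hA (by positivity)
    have h2 : (1 : ℝ) ≤ (2 ^ n) ^ 2 := one_le_pow₀ hN
    obtain ⟨q, hq⟩ : ∃ q : ℝ, q = (2 ^ n) ^ 2 := ⟨_, rfl⟩
    rw [← hq] at h1 h2 ⊢
    obtain ⟨m, hm⟩ : ∃ m : ℝ, m = (1 / 2) ^ l * g := ⟨_, rfl⟩
    rw [← hm] at hlg ⊢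
    have h3 : 0 ≤ CW * (m * (q - 1)) := by
      have : 0 ≤ q - 1 := by linarith
      positivity
    have h4 : 0 ≤ CR * q * m := by positivity
    have h5 : 0 ≤ CW * q * 8 ^ l := by positivity
    linarith
  exact late_alg hg (W612.MD.A2_nonneg _ _ _) (W612.MD.A2_nonneg _ _ _)
    (integral_nonneg fun z => mul_nonneg (W612.MD.nsq_nonneg _ z) (tf_nonneg k a z)) hz hsz hN
    (by rw [Real.one_le_sqrt]; exact one_le_pow₀ (by norm_num))
    (Real.mul_self_sqrt (by positivity)) (pow_le_pow_left₀ (by norm_num) (by norm_num) k)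
    hCR hCL hCW hA hbA hY2 hp2 (pow_le_pow_left₀ (by norm_num) (by norm_num) k) (by positivity)

end Pool.Agent.TH305.LW
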