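import Pool.Agent.TH305.LW.Small2

/-!
Late window lemma (helper305): paths of the mollified velocity and the dissipation along them.
-/

set_option autoImplicit false

open MeasureTheory Set Metric Filter Topology
open scoped ContDiff

namespace Pool.Agent.TH305.LW

open H459R3.NS W221.NS W221.NS.B

/-- A path of the velocity mollified at scale `ρ`. -/
structure Pth (ρ : ℝ) (u : ℝ → V → V) (α β : ℝ) (Y : ℝ → V) : Prop where
  cont : ContinuousOn Y (Icc α β)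
  ode : ∀ t ∈ Ioo α β, HasDerivAt Y (mol ρ u t (Y t)) t
  smooth : ContDiffOn ℝ ∞ Y (Ioo α β)

lemma Pth.mono {ρ : ℝ} {u : ℝ → V → V} {α β α' β' : ℝ} {Y : ℝ → V} (h : Pth ρ u α β Y)
    (h1 : α ≤ α') (h2 : β' ≤ β) : Pth ρ u α' β' Y where
  cont := h.cont.mono (Icc_subset_Icc h1 h2)
  ode := fun t ht => h.ode t ⟨h1.trans_lt ht.1, ht.2.trans_le h2⟩
  smooth := h.smooth.mono (Ioo_subset_Ioo h1 h2)

lemma Pth.ofFlow {ρ : ℝ} {u : ℝ → V → V} {α β : ℝ} {X : ℝ → V → V}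
    (h : Flow2 (mol ρ u) α β X) (x : V) : Pth ρ u α β (fun t => X t x) where
  cont := h.cont.comp (f := fun τ : ℝ => (τ, x)) (by fun_prop) (fun τ hτ => ⟨hτ, mem_univ _⟩)
  ode := fun t ht => h.ode x t ht
  smooth := h.smooth x

section
variable {T : ℝ} {u : ℝ → V → V}

lemma mass_cont (hu : ContDiffOn ℝ ∞ (fun z : ℝ × V => u z.1 z.2) (Ioo 0 T ×ˢ univ)) {α β : ℝ}
    (hα : 0 < α) (hβ : β < T) (hαβ : α ≤ β) {Y : ℝ → V} (hY : ContinuousOn Y (Icc α β)) (R : ℝ) :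
    ContinuousOn (fun τ => B2 (Y τ) R (u τ)) (Icc α β) := by
  have hgs : ContinuousOn (fun z : ℝ × V => gsq (u z.1) z.2) (Ioo 0 T ×ˢ univ) :=
    W335.MD.gsq_cont hu
  obtain ⟨cl, hcl⟩ : ∃ cl : ℝ → ℝ, cl = fun t => max α (min β t) := ⟨_, rfl⟩
  have hclc : Continuous cl := by rw [hcl]; fun_prop
  have hclm : ∀ t, cl t ∈ Icc α β := by
    intro t
    rw [hcl]
    exact ⟨le_max_left _ _, max_le hαβ (min_le_left _ _)⟩
  have hcleq : ∀ t ∈ Icc α β, cl t = t := by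
    intro t ht
    rw [hcl]
    simp only
    rw [min_eq_right ht.2, max_eq_right ht.1]
  have hYc : Continuous (fun t => Y (cl t)) := hY.comp_continuous hclc hclm
  have hF : ContinuousOn (fun z : ℝ × V => gsq (u (cl z.1)) (Y (cl z.1) + z.2))
      (Ioo (α - 1) (β + 1) ×ˢ univ) := by
    apply Continuous.continuousOn
    have h1 : Continuous (fun z : ℝ × V => (cl z.1, Y (cl z.1) + z.2)) :=
      (hclc.comp continuous_fst).prodMk ((hYc.comp continuous_fst).add continuous_snd)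
    have h2 : ∀ z : ℝ × V, (cl z.1, Y (cl z.1) + z.2) ∈ Ioo 0 T ×ˢ (univ : Set V) := fun z =>
      ⟨⟨hα.trans_le (hclm z.1).1, (hclm z.1).2.trans_lt hβ⟩, mem_univ _⟩
    exact ContinuousOn.comp_continuous (g := fun z : ℝ × V => gsq (u z.1) z.2)
      (f := fun z : ℝ × V => (cl z.1, Y (cl z.1) + z.2)) hgs h1 h2
  have h2 := p_pcont (α - 1) (β + 1) (fun t z => gsq (u (cl t)) (Y (cl t) + z)) 0 R hF
  have h3 : Icc α β ⊆ Ioo (α - 1) (β + 1) := fun t ht => ⟨by linarith [ht.1], by linarith [ht.2]⟩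
  refine (h2.mono h3).congr fun t ht => ?_
  simp only [hcleq t ht]
  exact Pool.Agent.W298.ME.CTM.shift (gsq (u t)) (Y t) R

lemma B2_frv_a {r s t R : ℝ} {X : ℝ → V} (hr : 0 < r) (a : V)
    (hv : ContDiff ℝ ∞ (u (s + r ^ 2 * t))) :
    B2 a R (frv r s X u t) = r * B2 (X (s + r ^ 2 * t) + r • a) (r * R) (u (s + r ^ 2 * t)) := by
  unfold B2
  rw [Pool.Agent.W298.ME.CTM.shift]
  have h : ∀ z, gsq (frv r s X u t) (a + z)
      = r ^ 4 * gsq (u (s + r ^ 2 * t)) ((X (s + r ^ 2 * t) + r • a) + r • z) := by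
    intro z
    rw [W382.ME.gsq_frv hv, smul_add, add_assoc]
  simp_rw [h]
  rw [integral_const_mul, W382.ME.cov _ _ hr]
  field_simp

lemma mass_cov (hu : ContDiffOn ℝ ∞ (fun z : ℝ × V => u z.1 z.2) (Ioo 0 T ×ˢ univ)) {r s p q : ℝ}
    (hr : 0 < r) (hpq : p ≤ q) (hp : 0 < s + r ^ 2 * p) (hq : s + r ^ 2 * q < T) (X : ℝ → V) (a : V)
    (R : ℝ) : ∫ t in p..q, B2 a R (frv r s X u t)
      = r⁻¹ * ∫ τ in (s + r ^ 2 * p)..(s + r ^ 2 * q), B2 (X τ + r • a) (r * R) (u τ) := by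
  have hr2 : 0 < r ^ 2 := by positivity
  have h1 : ∫ t in p..q, B2 a R (frv r s X u t)
      = ∫ t in p..q, r * B2 (X (s + r ^ 2 * t) + r • a) (r * R) (u (s + r ^ 2 * t)) := by
    apply intervalIntegral.integral_congr
    intro t ht
    rw [uIcc_of_le hpq] at ht
    apply B2_frv_a hr a
    apply W382.ME.cd_slice hu
    exact ⟨hp.trans_le (by nlinarith [ht.1]), lt_of_le_of_lt (by nlinarith [ht.2]) hq⟩
  rw [h1, intervalIntegral.integral_const_mul]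
  have h2 := intervalIntegral.integral_comp_add_mul (a := p) (b := q)
    (fun τ => B2 (X τ + r • a) (r * R) (u τ)) hr2.ne' s
  rw [h2, smul_eq_mul, ← mul_assoc]
  congr 1
  field_simp

/-- The dissipation along a path. -/
noncomputable def ms (u : ℝ → V → V) (ρ : ℝ) (Y : ℝ → V) (a b : ℝ) : ℝ :=
  ρ⁻¹ * ∫ τ in a..b, B2 (Y τ) (8 * ρ) (u τ)

lemma ms_eq (hu : ContDiffOn ℝ ∞ (fun z : ℝ × V => u z.1 z.2) (Ioo 0 T ×ˢ univ)) {r s : ℝ}
    (hr : 0 < r) (hs : 0 < s - r ^ 2) (hsT : s < T) (X : ℝ → V) :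
    ∫ t in Ioo (-1 : ℝ) 0, B2 0 8 (frv r s X u t) = ms u r X (s - r ^ 2) s := by
  rw [← integral_Ioc_eq_integral_Ioo, ← intervalIntegral.integral_of_le (by norm_num)]
  rw [mass_cov hu hr (by norm_num) (by linarith) (by linarith) X 0 8]
  unfold ms
  have e1 : s + r ^ 2 * (-1) = s - r ^ 2 := by ring
  have e2 : s + r ^ 2 * 0 = s := by ring
  rw [e1, e2, mul_comm r 8]
  simp only [smul_zero, add_zero]

lemma frame_int (hu : ContDiffOn ℝ ∞ (fun z : ℝ × V => u z.1 z.2) (Ioo 0 T ×ˢ univ))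
    {α β r s : ℝ} (hr : 0 < r) (hα : 0 < α) (hs : α ≤ s - r ^ 2) (hsβ : s ≤ β) (hβ : β < T)
    {X : ℝ → V} (hX : ContinuousOn X (Icc α β)) :
    IntegrableOn (fun t => B2 0 8 (frv r s X u t)) (Ioo (-1) 0) := by
  have hr2 : 0 < r ^ 2 := by positivity
  have hm := mass_cont hu hα hβ (by linarith) hX (r * 8)
  have h1 : ContinuousOn (fun t => r * B2 (X (s + r ^ 2 * t)) (r * 8) (u (s + r ^ 2 * t)))
      (Icc (-1) 0) := by
    apply continuousOn_const.mul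
    refine hm.comp (f := fun t : ℝ => s + r ^ 2 * t) (by fun_prop) ?_
    intro t ht
    exact ⟨by nlinarith [ht.1], by nlinarith [ht.2]⟩
  have h2 : ContinuousOn (fun t => B2 0 8 (frv r s X u t)) (Icc (-1) 0) := by
    refine h1.congr fun t ht => ?_
    show B2 0 8 (frv r s X u t) = _
    rw [B2_frv_a hr 0, smul_zero, add_zero]
    apply W382.ME.cd_slice hu
    exact ⟨by nlinarith [ht.1], by nlinarith [ht.2]⟩
  exact (h2.integrableOn_compact isCompact_Icc).mono_set Ioo_subset_Icc_self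

end

/-- From a path to the hypothesis of the local regularity theorem. -/
lemma pth_hyp {g : V → ℝ} {C' : ℝ} (hC' : ∀ (F : ℝ) (v : ℝ → V → V) (q : ℝ → V → ℝ), 0 ≤ F →
    Loc3 F v q → ∀ ε : ℝ, IntegrableOn (fun t => B2 0 8 (v t)) (Ioo (-1) 0) →
    C' * (F + ∫ t in Ioo (-1) 0, B2 0 8 (v t)) ≤ ε →
      Hyp2 v (fun t => TT g (v t)) (fun t => C' * (F + B2 0 8 (v t))) ε)
    {T κ E F : ℝ} {O : Set V} {u : ℝ → V → V} {p : ℝ → V → ℝ} (hF : 0 ≤ F)
    (hL : LSol3 T κ E F O u p) {α β r s ε : ℝ} (hr : 0 < r) (hr1 : r ≤ 1) (hα : 0 < α)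
    (hs : α ≤ s - r ^ 2) (hsβ : s ≤ β) (hβ : β < T) {X : ℝ → V} (hX : Pth r u α β X)
    (hO : ∀ t ∈ Ioo (s - r ^ 2) s, ball (X t) (8 * r) ⊆ O)
    (hm : C' * (r ^ 3 * F + ms u r X (s - r ^ 2) s) ≤ ε) :
    Hyp2 (frv r s X u) (fun t => TT g (frv r s X u t))
      (fun t => C' * (r ^ 3 * F + B2 0 8 (frv r s X u t))) ε := by
  have hL3 := p_frame3 T κ E F O u p hF hL r s hr hr1 (by linarith) (by linarith) X
    (hX.smooth.mono (Ioo_subset_Ioo hs hsβ))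
    (fun t ht => hX.ode t ⟨hs.trans_lt ht.1, ht.2.trans_le hsβ⟩) hO
  apply hC' (r ^ 3 * F) _ _ (by positivity) hL3 ε (frame_int hL.smooth_u hr hα hs hsβ hβ hX.cont)
  rw [ms_eq hL.smooth_u hr (by linarith) (by linarith)]
  exact hm

end Pool.Agent.TH305.LW
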