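import Pool.Agent.TH305.LW.Rough

/-!
Late window lemma (helper305): the energy inequality with the test function at one scale.
-/

set_option autoImplicit false

open MeasureTheory Set Metric
open scoped ContDiff

namespace Pool.Agent.TH305.LW

open H459R3.NS W221.NS W221.NS.B

/-- The right-hand side of the energy inequality. -/
noncomputable def RR (g A b Y p : ℝ) (k : ℕ) : ℝ :=
  32 ^ k * b + √g * (16 ^ k * b) + g * √A + √g * A + √b * p + g * (√b * √(8 ^ k)) + √g * Y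
    + (√g + g) * √Y

lemma wt_bound {W : V → V} (hW : ContDiff ℝ ∞ W) {F : V → ℝ} (hF : Continuous F) {a : V} {ρ B : ℝ}
    (h0 : ∀ z ∉ ball a ρ, F z = 0) (hB : ∀ z, |F z| ≤ B) :
    |∫ z, nsq W z * F z| ≤ B * A2 a ρ W := by
  have e : ∫ z, nsq W z * F z = ∫ z in ball a ρ, nsq W z * F z :=
    (setIntegral_eq_integral_of_forall_compl_eq_zero fun z hz => by rw [h0 z hz, mul_zero]).symm
  rw [e]
  have hn := W612.MD.nsq_cont hW
  calc |∫ z in ball a ρ, nsq W z * F z| ≤ ∫ z in ball a ρ, |nsq W z * F z| :=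
        abs_integral_le_integral_abs
    _ ≤ ∫ z in ball a ρ, B * nsq W z := by
        apply setIntegral_mono (Pool.Agent.W386.MD.iob (hn.mul hF).abs a ρ)
          (Pool.Agent.W386.MD.iob (continuous_const.mul hn) a ρ)
        intro z
        show |nsq W z * F z| ≤ B * nsq W z
        rw [abs_mul, abs_of_nonneg (W612.MD.nsq_nonneg W z), mul_comm]
        exact mul_le_mul_of_nonneg_right (hB z) (W612.MD.nsq_nonneg W z)
    _ = B * A2 a ρ W := by unfold A2; exact integral_const_mul _ _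

lemma ball_rr_sub {a : V} (ha : a ∈ ball (0 : V) (1 / 8)) {k : ℕ} (hk : 3 ≤ k) :
    ball a (rr k) ⊆ ball (0 : V) (1 / 4) := by
  apply ball_subset_ball'
  have h1 : rr k ≤ rr 3 := W612.MD.rr_le hk
  have h2 : rr 3 = 1 / 8 := by unfold rr; norm_num
  rw [mem_ball] at ha
  linarith

theorem rate : ∃ C : ℝ, 0 < C ∧ ∀ (v W : ℝ → V → V) (G : ℝ → ℝ) (ε : ℝ), Hyp2 v W G ε →
    ∀ k : ℕ, 5 ≤ k → ∀ a ∈ ball (0 : V) (1 / 8), ∀ t ∈ Ioo (-1 : ℝ) 0,
      ∃ E' : ℝ, HasDerivAt (fun s => ∫ z, nsq (W s) z * tf k a z) E' t ∧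
        E' ≤ -2 * (∫ z, gsq (W t) z * tf k a z)
          + C * RR (G t) (A2 0 (3 / 4) (W t)) (A2 a (rr k) (W t)) (∫ z, nsq (W t) z * tf k a z)
            (PS a (W t) k) k := by
  obtain ⟨CE, hCE, hEN⟩ := p_en2
  obtain ⟨Cd, hCd, hpd⟩ := tf_pd
  obtain ⟨CL, hCL, hlap⟩ := tf_lap
  obtain ⟨M, hM⟩ : ∃ M : ℝ, M = Cd + 8 := ⟨_, rfl⟩
  have hM1 : 1 ≤ M := by rw [hM]; linarith
  obtain ⟨CP, hCP, hPK⟩ := p_pk2 M hM1
  refine ⟨CL + 3 * Cd + 3 * CP + 4 * CE, by positivity, ?_⟩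
  intro v W G ε hyp k hk a ha t ht
  have hyp' := hyp
  obtain ⟨hvsm, hWsm, hslice, hGi, hGε⟩ := hyp
  obtain ⟨P, hsl⟩ := hslice t ht
  have hGt : 0 ≤ G t := W356.ME.G_nonneg2 hsl
  have hvt := hsl.sv
  have hWt := hsl.sW
  have hsub : ball a (rr k) ⊆ ball (0 : V) (1 / 4) := ball_rr_sub ha (by omega)
  have h1s : ∀ z ∉ ball (0 : V) 1, tf k a z = 0 := by
    intro z hz
    apply tf_zero
    intro h
    exact hz (ball_subset_ball (by norm_num) (hsub h))
  obtain ⟨E', hE', hle⟩ := hEN v W G ε hyp' (-1) 0 le_rfl le_rfl (fun _ z => tf k a z)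
    (((tf_smooth k a).comp contDiff_snd).contDiffOn) (fun _ _ z hz => h1s z hz) t ht
    (fun z => tf_nonneg k a z) P hsl
  refine ⟨E', hE', hle.trans ?_⟩
  -- the heat term
  obtain ⟨b, hb⟩ : ∃ b, b = A2 a (rr k) (W t) := ⟨_, rfl⟩
  obtain ⟨A, hA⟩ : ∃ A, A = A2 0 (3 / 4) (W t) := ⟨_, rfl⟩
  obtain ⟨Y, hY⟩ : ∃ Y, Y = ∫ z, nsq (W t) z * tf k a z := ⟨_, rfl⟩
  obtain ⟨p, hp⟩ : ∃ p, p = PS a (W t) k := ⟨_, rfl⟩
  obtain ⟨g, hg⟩ : ∃ g, g = G t := ⟨_, rfl⟩
  have hb0 : 0 ≤ b := by rw [hb]; exact W612.MD.A2_nonneg _ _ _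
  have hA0 : 0 ≤ A := by rw [hA]; exact W612.MD.A2_nonneg _ _ _
  have hY0 : 0 ≤ Y := by
    rw [hY]
    exact integral_nonneg fun z => mul_nonneg (W612.MD.nsq_nonneg _ z) (tf_nonneg k a z)
  have hp0 : 0 ≤ p := by
    rw [hp]
    unfold PS
    have : 0 ≤ ∑ j ∈ Finset.Ico 3 (k - 2), √(32 ^ j) * √(8 ^ k) * √(L4 a (rr j) (W t)) :=
      Finset.sum_nonneg fun _ _ => by positivity
    positivity
  have t1 : ∫ z, nsq (W t) z * (deriv (fun _ : ℝ => tf k a z) t + lap (fun z => tf k a z) z)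
      ≤ CL * (32 ^ k * b) := by
    have e : ∀ z, deriv (fun _ : ℝ => tf k a z) t + lap (fun z => tf k a z) z = lap (tf k a) z := by
      intro z
      rw [deriv_const, zero_add]
    simp_rw [e]
    refine (le_abs_self _).trans ((wt_bound hWt (W605.MD.lap_cont (tf_smooth k a))
      (fun z hz => lap_tf_zero k a hz) (hlap k a)).trans (le_of_eq ?_))
    rw [hb]; ring
  -- transport by the constant vector
  obtain ⟨d, hd⟩ : ∃ d : V, d = fun i => v t a i - W t a i := ⟨_, rfl⟩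
  have ha1 : a ∈ ball (0 : V) 1 := ball_subset_ball (by norm_num) ha
  have hdi : ∀ i, |d i| ≤ √g := by
    intro i
    rw [hd, hg]
    exact hsl.dD a ha1 i
  have hpc : ∀ j, Continuous (pd j (tf k a)) := fun j => W612.MD.pd_cont (tf_smooth k a) j
  have hpz : ∀ j, ∀ z ∉ ball a (rr k), pd j (tf k a) z = 0 := fun j =>
    Pool.Agent.W386.MD.pd_zero (tf_smooth k a) (rr_pos' k) (tf_zero k a) j
  have t2 : ∫ z, nsq (W t) z * (∑ j, d j * pd j (tf k a) z) ≤ 3 * Cd * (√g * (16 ^ k * b)) := by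
    refine (le_abs_self _).trans ((wt_bound hWt (F := fun z => ∑ j, d j * pd j (tf k a) z)
      (by fun_prop) (a := a) (ρ := rr k) (B := 3 * (√g * (Cd * 16 ^ k)))
      (fun z hz => by simp [hpz _ z hz]) ?_).trans (le_of_eq ?_))
    · intro z
      refine (Finset.abs_sum_le_sum_abs _ _).trans ?_
      have h1 : ∀ j ∈ Finset.univ, |d j * pd j (tf k a) z| ≤ √g * (Cd * 16 ^ k) := by
        intro j _
        rw [abs_mul]
        exact mul_le_mul (hdi j) (hpd k a z j) (abs_nonneg _) (Real.sqrt_nonneg _)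
      refine (Finset.sum_le_card_nsmul _ _ _ h1).trans (le_of_eq ?_)
      simp
    · rw [hb]; ring
  have t3 : ∫ z, nsq (W t) z * adv (v t) (tf k a) z
      = (∫ z, nsq (W t) z * adv (fun y i => v t y i - d i) (tf k a) z)
        + ∫ z, nsq (W t) z * (∑ j, d j * pd j (tf k a) z) := by
    have hn := W612.MD.nsq_cont hWt
    have hvc : ∀ j, Continuous (fun y => v t y j) := fun j =>
      (W612.MD.comp_smooth hvt j).continuous
    have hz : ∀ z ∉ ball (0 : V) 1, ∀ j, pd j (tf k a) z = 0 := by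
      intro z hz j
      apply hpz j z
      intro h
      exact hz (ball_subset_ball (by norm_num) (hsub h))
    have hz' : ∀ z ∉ closedBall (0 : V) 1, ∀ j, pd j (tf k a) z = 0 := fun z h =>
      hz z fun h' => h (ball_subset_closedBall h')
    rw [← integral_add]
    · congr 1
      funext z
      unfold adv
      simp only [sub_mul, Finset.sum_sub_distrib]
      ring
    · apply W372.ME.int_cl
      · unfold adv
        fun_prop
      · intro z h
        unfold adv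
        simp [hz' z h]
    · apply W372.ME.int_cl
      · fun_prop
      · intro z h
        simp [hz' z h]
  have hPKt := hPK (v t) (W t) (fun x i => deriv (fun s => W s x i) t) P (G t) hsl a
    (ball_subset_ball (by norm_num) ha) {k} (1 / 2 ^ k) (fun _ => tf k a) (by positivity) (by
      intro k' hk'
      rw [Finset.mem_singleton] at hk'
      subst hk'
      have h8 : (0 : ℝ) < 8 ^ k' := by positivity
      have h16 : (0 : ℝ) < 16 ^ k' := by positivity
      have e2 : (2 : ℝ) ^ k' * (1 / 2 ^ k') = 1 := by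
        field_simp
      have hab : ∀ z, |tf k' a z| ≤ M * 8 ^ k' := by
        intro z
        rw [abs_of_nonneg (tf_nonneg k' a z)]
        refine (tf_le k' a z).trans ?_
        nlinarith
      refine ⟨by omega, by rw [e2]; norm_num, tf_smooth k' a, tf_zero k' a, hab, ?_, ?_⟩
      · intro z
        rw [e2, mul_one]
        exact hab z
      · intro z i
        refine (hpd k' a z i).trans ?_
        rw [hM]
        nlinarith)
    (by intro z; simp only [Finset.sum_singleton]; exact tf_nonneg k a z)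
    (by
      intro z
      have : ({k} : Finset ℕ).filter (fun k => 5 ≤ k) = {k} := by
        ext j
        simp only [Finset.mem_filter, Finset.mem_singleton]
        constructor
        · exact fun h => h.1
        · rintro rfl; exact ⟨rfl, hk⟩
      rw [this]
      simp only [Finset.sum_singleton]
      rw [abs_of_nonneg (tf_nonneg k a z)])
    (by
      simp only [Finset.sum_singleton]
      refine (tf_int_le k a).trans ?_
      rw [hM]; linarith)
  have hfil : ({k} : Finset ℕ).filter (fun k => 5 ≤ k) = {k} := by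
    ext j
    simp only [Finset.mem_filter, Finset.mem_singleton]
    constructor
    · exact fun h => h.1
    · rintro rfl; exact ⟨rfl, hk⟩
  rw [hfil] at hPKt
  simp only [Finset.sum_singleton] at hPKt
  have e2 : (2 : ℝ) ^ k * (1 / 2 ^ k) = 1 := by field_simp
  have hadv : ∀ u : V → V, adv u (fun y => tf k a y) = adv u (tf k a) := fun u => rfl
  rw [e2, mul_one, ← hb, ← hA, ← hY, ← hp, ← hg] at hPKt
  simp only [hadv] at hPKt
  have hPK2 := (le_abs_self _).trans hPKt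
  have hdd : (fun (y : V) (i : Fin 3) => v t y i - (v t a i - W t a i))
      = fun y i => v t y i - d i := by rw [hd]
  rw [hdd] at hPK2
  -- the last term
  have hcs := W372.ME.cs_w hWt (tf_smooth k a).continuous (tf_nonneg k a) h1s
  rw [← hY] at hcs
  have h3 : √(∫ z, tf k a z) ≤ 3 := by
    rw [Real.sqrt_le_left (by norm_num)]
    linarith [tf_int_le k a]
  have hcs2 : ∫ z, √(nsq (W t) z) * tf k a z ≤ 3 * √Y :=
    hcs.trans (mul_le_mul_of_nonneg_right h3 (Real.sqrt_nonneg _))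
  have hg0 : 0 ≤ g := by rw [hg]; exact hGt
  have t5 : CE * (√g * Y + (√g + g) * ∫ z, √(nsq (W t) z) * tf k a z)
      ≤ CE * (√g * Y + (√g + g) * (3 * √Y)) := by
    apply mul_le_mul_of_nonneg_left _ hCE.le
    have h1 : 0 ≤ √g + g := add_nonneg (Real.sqrt_nonneg _) hg0
    have h2 := mul_le_mul_of_nonneg_left hcs2 h1
    linarith
  have hadv2 : ∀ u : V → V, adv u ((fun _ z => tf k a z : ℝ → V → ℝ) t) = adv u (tf k a) :=
    fun u => rfl
  simp only [hadv2]
  rw [t3, ← hb, ← hA, ← hY, ← hp, ← hg]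
  have hsg : 0 ≤ √g := Real.sqrt_nonneg _
  have hsA : 0 ≤ √A := Real.sqrt_nonneg _
  have hsb : 0 ≤ √b := Real.sqrt_nonneg _
  have hsY : 0 ≤ √Y := Real.sqrt_nonneg _
  have hs8 : 0 ≤ √((8 : ℝ) ^ k) := Real.sqrt_nonneg _
  have hs28 : √((2 : ℝ) ^ k) ≤ √(8 ^ k) := by
    apply Real.sqrt_le_sqrt
    exact pow_le_pow_left₀ (by norm_num) (by norm_num) k
  have h816 : (8 : ℝ) ^ k ≤ 16 ^ k := pow_le_pow_left₀ (by norm_num) (by norm_num) k
  -- the terms
  obtain ⟨x1, hx1⟩ : ∃ x, x = 32 ^ k * b := ⟨_, rfl⟩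
  obtain ⟨x2, hx2⟩ : ∃ x, x = √g * (16 ^ k * b) := ⟨_, rfl⟩
  obtain ⟨x3, hx3⟩ : ∃ x, x = g * √A := ⟨_, rfl⟩
  obtain ⟨x4, hx4⟩ : ∃ x, x = √g * A := ⟨_, rfl⟩
  obtain ⟨x5, hx5⟩ : ∃ x, x = √b * p := ⟨_, rfl⟩
  obtain ⟨x6, hx6⟩ : ∃ x, x = g * (√b * √(8 ^ k)) := ⟨_, rfl⟩
  obtain ⟨x7, hx7⟩ : ∃ x, x = √g * Y := ⟨_, rfl⟩
  obtain ⟨x8, hx8⟩ : ∃ x, x = (√g + g) * √Y := ⟨_, rfl⟩
  have n1 : 0 ≤ x1 := by rw [hx1]; positivity
  have n2 : 0 ≤ x2 := by rw [hx2]; positivity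
  have n3 : 0 ≤ x3 := by rw [hx3]; positivity
  have n4 : 0 ≤ x4 := by rw [hx4]; positivity
  have n5 : 0 ≤ x5 := by rw [hx5]; positivity
  have n6 : 0 ≤ x6 := by rw [hx6]; positivity
  have n7 : 0 ≤ x7 := by rw [hx7]; positivity
  have n8 : 0 ≤ x8 := by rw [hx8]; positivity
  have m1 : g * √Y ≤ x8 := by
    rw [hx8]
    apply mul_le_mul_of_nonneg_right _ hsY
    linarith
  have m2 : √g * (8 ^ k * b) ≤ x2 := by
    rw [hx2]
    apply mul_le_mul_of_nonneg_left _ hsg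
    exact mul_le_mul_of_nonneg_right h816 hb0
  have m3 : g * (√b * (√(2 ^ k) + √(8 ^ k))) ≤ 2 * x6 := by
    have h5 : √b * (√(2 ^ k) + √(8 ^ k)) ≤ √b * (2 * √(8 ^ k)) :=
      mul_le_mul_of_nonneg_left (by linarith) hsb
    have h6 := mul_le_mul_of_nonneg_left h5 hg0
    rw [hx6]
    linarith
  have m4 : CP * (g * √A + √g * A + g * √Y + (√b * p + √g * (8 ^ k * b)
      + g * (√b * (√(2 ^ k) + √(8 ^ k))))) ≤ CP * (x3 + x4 + x8 + x5 + x2 + 2 * x6) := by
    apply mul_le_mul_of_nonneg_left _ hCP.le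
    linarith
  have m5 : CE * (√g * Y + (√g + g) * (3 * √Y)) = CE * (x7 + 3 * x8) := by
    rw [hx7, hx8]; ring
  have hRR : RR g A b Y p k = x1 + x2 + x3 + x4 + x5 + x6 + x7 + x8 := by
    unfold RR
    rw [hx1, hx2, hx3, hx4, hx5, hx6, hx7, hx8]
  rw [hRR]
  rw [← hx1] at t1
  rw [← hx2] at t2
  rw [m5] at t5
  have hadv3 : (∫ z, nsq (W t) z * (deriv (fun s => (fun _ z => tf k a z : ℝ → V → ℝ) s z) t
      + lap ((fun _ z => tf k a z : ℝ → V → ℝ) t) z)) ≤ CL * x1 := t1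
  have hfin : CL * x1 + 3 * Cd * x2 + CP * (x3 + x4 + x8 + x5 + x2 + 2 * x6) + CE * (x7 + 3 * x8)
      ≤ (CL + 3 * Cd + 3 * CP + 4 * CE) * (x1 + x2 + x3 + x4 + x5 + x6 + x7 + x8) := by
    have q1 : 0 ≤ CL * (x2 + x3 + x4 + x5 + x6 + x7 + x8) := by positivity
    have q2 : 0 ≤ Cd * (x1 + x3 + x4 + x5 + x6 + x7 + x8) := by positivity
    have q3 : 0 ≤ CP * (3 * x1 + 2 * x2 + 2 * x3 + 2 * x4 + 2 * x5 + x6 + 3 * x7 + 2 * x8) := by
      positivity
    have q4 : 0 ≤ CE * (4 * x1 + 4 * x2 + 4 * x3 + 4 * x4 + 4 * x5 + 4 * x6 + 3 * x7 + x8) := by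
      positivity
    linarith
  linarith

end Pool.Agent.TH305.LW
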