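import Pool.Agent.TH305.LW.Tf

/-!
Late window lemma (helper305): the rough energy bound.
-/

set_option autoImplicit false

open MeasureTheory Set Metric
open scoped ContDiff

namespace Pool.Agent.TH305.LW

open H459R3.NS W221.NS W221.NS.B

lemma G_nonneg {v W : ℝ → V → V} {G : ℝ → ℝ} {ε : ℝ} (h : Hyp2 v W G ε) {t : ℝ}
    (ht : t ∈ Ioo (-1 : ℝ) 0) : 0 ≤ G t := by
  obtain ⟨P, hP⟩ := h.2.2.1 t ht
  exact W356.ME.G_nonneg2 hP

lemma A2_le_EE {W : ℝ → V → V} {t : ℝ} (hW : ContDiff ℝ ∞ (W t)) (ht : -9 / 16 ≤ t) :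
    A2 0 (3 / 4) (W t) ≤ W605.MD.EE W t := by
  have hk : W605.MD.EE W t = ∫ z, nsq (W t) z * W605.MD.k2 z := by
    rw [W605.MD.EE_eq, W605.MD.chi_one ht]
    simp [W605.MD.k2]
  rw [hk]
  have hcs : HasCompactSupport W605.MD.k2 :=
    HasCompactSupport.of_support_subset_isCompact (isCompact_closedBall (0 : V) 1)
      ((subset_tsupport _).trans W605.MD.k2_tsupport)
  have hint2 : Integrable (fun z => nsq (W t) z * W605.MD.k2 z) :=
    ((W605.MD.nsq_cont hW).mul W605.MD.k2_cont).integrable_of_hasCompactSupport hcs.mul_left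
  have e1 : A2 0 (3 / 4) (W t) = ∫ z in ball (0 : V) (3 / 4), nsq (W t) z * W605.MD.k2 z := by
    unfold A2
    apply setIntegral_congr_fun measurableSet_ball
    intro z hz
    simp only
    rw [W605.MD.k2_one hz, mul_one]
  rw [e1]
  exact setIntegral_le_integral hint2
    (Filter.Eventually.of_forall fun z => mul_nonneg (W605.MD.nsq_nonneg _ z) (W605.MD.k2_nonneg z))

lemma EE_rough : ∃ C₁ : ℝ, 0 < C₁ ∧
    ∀ (v W : ℝ → V → V) (G : ℝ → ℝ) (ε : ℝ), Hyp2 v W G ε → ∀ t ∈ Ioo (-7 / 8 : ℝ) 0,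
      W605.MD.EE W t ≤ (1 + C₁ * ε) ^ 2 := by
  obtain ⟨C₁, hC₁, hD⟩ := W356.ME.deriv_bound2 p_en2 p_cut2 p_wb
  refine ⟨C₁, hC₁, ?_⟩
  intro v W G ε hyp t ht
  have hG0 : ∀ t ∈ Ioo (-1 : ℝ) 0, 0 ≤ G t := fun t ht => G_nonneg hyp ht
  have hyp' := hyp
  obtain ⟨-, -, hsl, hGi, hGe⟩ := hyp
  have hsub : Icc (-7 / 8 : ℝ) t ⊆ Ioo (-1) 0 := by
    intro x hx
    exact ⟨by linarith [hx.1], by linarith [hx.2, ht.2]⟩
  choose! D hD1 hD2 using hD v W G ε hyp'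
  obtain ⟨f, hf⟩ : ∃ f : ℝ → ℝ, f = fun x => √(1 + W605.MD.EE W x) := ⟨_, rfl⟩
  have hE0 : ∀ x, 0 ≤ W605.MD.EE W x := fun x => W605.MD.EE_nonneg W x
  have hfd : ∀ x ∈ Ioo (-1 : ℝ) 0, HasDerivAt f (D x / (2 * √(1 + W605.MD.EE W x))) x := by
    intro x hx
    rw [hf]
    have h1 : HasDerivAt (fun x => 1 + W605.MD.EE W x) (D x) x := (hD1 x hx).const_add 1
    have h2 := h1.sqrt (by linarith [hE0 x])
    exact h2
  have hfle : ∀ x ∈ Ioo (-1 : ℝ) 0, D x / (2 * √(1 + W605.MD.EE W x)) ≤ C₁ * G x := by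
    intro x hx
    have h1 := hE0 x
    have h2 : 0 < √(1 + W605.MD.EE W x) := Real.sqrt_pos.2 (by linarith)
    rw [div_le_iff₀ (by positivity)]
    refine (hD2 x hx).trans ?_
    have h3 : 1 ≤ √(1 + W605.MD.EE W x) := by
      rw [Real.one_le_sqrt]; linarith
    have h4 : √(W605.MD.EE W x) ≤ √(1 + W605.MD.EE W x) := Real.sqrt_le_sqrt (by linarith)
    have h5 : 0 ≤ C₁ * G x := mul_nonneg hC₁.le (hG0 x hx)
    exact mul_le_mul_of_nonneg_left (by linarith) h5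
  have hkey : f t - f (-7 / 8) ≤ ∫ y in (-7 / 8)..t, C₁ * G y := by
    apply intervalIntegral.sub_le_integral_of_hasDeriv_right_of_le
      (g' := fun x => D x / (2 * √(1 + W605.MD.EE W x))) ht.1.le
    · intro x hx
      exact (hfd x (hsub hx)).continuousAt.continuousWithinAt
    · intro x hx
      exact (hfd x (hsub (Ioo_subset_Icc_self hx))).hasDerivWithinAt
    · exact (hGi.mono_set hsub).const_mul _
    · intro x hx
      exact hfle x (hsub (Ioo_subset_Icc_self hx))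
  have hint : ∫ y in (-7 / 8)..t, G y ≤ ε := by
    rw [intervalIntegral.integral_of_le ht.1.le]
    refine le_trans ?_ hGe
    apply setIntegral_mono_set hGi
    · exact (ae_restrict_iff' measurableSet_Ioo).2 (Filter.Eventually.of_forall hG0)
    · exact (Ioc_subset_Icc_self.trans hsub).eventuallyLE
  have hf0 : f (-7 / 8) = 1 := by
    rw [hf]
    simp only
    rw [W605.MD.EE_eq, W605.MD.chi_zero (by norm_num)]
    norm_num
  rw [intervalIntegral.integral_const_mul, hf0] at hkey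
  have h6 : f t ≤ 1 + C₁ * ε := by
    have := mul_le_mul_of_nonneg_left hint hC₁.le
    linarith
  have h7 : W605.MD.EE W t ≤ f t ^ 2 := by
    rw [hf]
    simp only
    rw [Real.sq_sqrt (by linarith [hE0 t])]
    linarith
  have h8 : 0 ≤ f t := by rw [hf]; exact Real.sqrt_nonneg _
  exact h7.trans (pow_le_pow_left₀ h8 h6 2)

/-- The rough energy bound. -/
theorem rough : ∃ C : ℝ, 1 ≤ C ∧
    ∀ (v W : ℝ → V → V) (G : ℝ → ℝ) (n : ℕ), Hyp2 v W G (2 ^ n) → ∀ t ∈ Ioo (-9 / 16 : ℝ) 0,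
      A2 0 (3 / 4) (W t) ≤ C * 4 ^ n := by
  obtain ⟨C₁, hC₁, h⟩ := EE_rough
  refine ⟨(1 + C₁) ^ 2, by nlinarith, fun v W G n hyp t ht => ?_⟩
  have h1 := h v W G _ hyp t ⟨by linarith [ht.1], ht.2⟩
  have hsW : ContDiff ℝ ∞ (W t) := by
    obtain ⟨P, hP⟩ := hyp.2.2.1 t ⟨by linarith [ht.1], ht.2⟩
    exact hP.sW
  refine (A2_le_EE hsW ht.1.le).trans (h1.trans ?_)
  have h2 : (1 : ℝ) ≤ 2 ^ n := one_le_pow₀ (by norm_num)
  have h3 : 1 + C₁ * 2 ^ n ≤ (1 + C₁) * 2 ^ n := by nlinarith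
  have h4 : (4 : ℝ) ^ n = (2 ^ n) ^ 2 := by
    rw [← pow_mul, mul_comm, pow_mul]; norm_num
  rw [h4, ← mul_pow]
  exact pow_le_pow_left₀ (by positivity) h3 2

end Pool.Agent.TH305.LW
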