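import Pool.Agent.TH305.LW.Late

/-!
Late window lemma (helper305): smallness of the dissipation at a small scale.
-/

set_option autoImplicit false

open MeasureTheory Set Metric
open scoped ContDiff

namespace Pool.Agent.TH305.LW

open H459R3.NS W221.NS W221.NS.B

/-! ### Comparison of the two fields -/

lemma gsq_cmp {v W N : V → V} {P : V → ℝ} {g : ℝ} (hs : Slice2 v W N P g) {z : V}
    (hz : z ∈ ball (0 : V) 1) : gsq v z ≤ 2 * gsq W z + 18 * g := by
  have hg : 0 ≤ g := W356.ME.G_nonneg2 hs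
  unfold gsq
  have h1 : ∀ i j, pd j (fun y => v y i) z ^ 2 ≤ 2 * pd j (fun y => W y i) z ^ 2 + 2 * g := by
    intro i j
    have h2 := hs.gD z hz i j
    have e : pd j (fun y => v y i - W y i) z = pd j (fun y => v y i) z - pd j (fun y => W y i) z := by
      unfold pd
      rw [fderiv_fun_sub ((W612.MD.comp_smooth hs.sv i).differentiable (by simp) z)
        ((W612.MD.comp_smooth hs.sW i).differentiable (by simp) z)]
      simp
    rw [e] at h2
    have h3 : (pd j (fun y => v y i) z - pd j (fun y => W y i) z) ^ 2 ≤ g := by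
      rw [← sq_abs]
      calc |pd j (fun y => v y i) z - pd j (fun y => W y i) z| ^ 2 ≤ √g ^ 2 :=
            pow_le_pow_left₀ (abs_nonneg _) h2 2
        _ = g := Real.sq_sqrt hg
    nlinarith [sq_nonneg (pd j (fun y => v y i) z - 2 * pd j (fun y => W y i) z)]
  calc ∑ i, ∑ j, pd j (fun y => v y i) z ^ 2
      ≤ ∑ i, ∑ j, (2 * pd j (fun y => W y i) z ^ 2 + 2 * g) :=
        Finset.sum_le_sum fun i _ => Finset.sum_le_sum fun j _ => h1 i j
    _ = 2 * (∑ i, ∑ j, pd j (fun y => W y i) z ^ 2) + 18 * g := by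
        simp only [Fin.sum_univ_three]
        ring

lemma B2_cmp {v W N : V → V} {P : V → ℝ} {g : ℝ} (hs : Slice2 v W N P g) {a : V}
    (ha : a ∈ ball (0 : V) (1 / 8)) {k : ℕ} (hk : 5 ≤ k) :
    8 ^ k * B2 a (rr (k + 1)) (v) ≤ 2 * (∫ z, gsq W z * tf k a z) + 18 * g := by
  have hg : 0 ≤ g := W356.ME.G_nonneg2 hs
  have hsub : ball a (rr (k + 1)) ⊆ ball (0 : V) 1 :=
    (ball_rr_sub ha (by omega)).trans (ball_subset_ball (by norm_num))
  have h1 : B2 a (rr (k + 1)) v ≤ ∫ z in ball a (rr (k + 1)), (2 * gsq W z + 18 * g) := by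
    unfold B2
    refine setIntegral_mono_on (Pool.Agent.W386.MD.iob (W612.MD.gsq_cont hs.sv) _ _)
      (Pool.Agent.W386.MD.iob (f := fun z => 2 * gsq W z + 18 * g) ?_ _ _) measurableSet_ball
      fun z hz => gsq_cmp hs (hsub hz)
    exact (continuous_const.mul (W612.MD.gsq_cont hs.sW)).add continuous_const
  have i1 : IntegrableOn (fun z => 2 * gsq W z) (ball a (rr (k + 1))) :=
    Pool.Agent.W386.MD.iob (continuous_const.mul (W612.MD.gsq_cont hs.sW)) _ _
  have i2 : IntegrableOn (fun _ : V => 18 * g) (ball a (rr (k + 1))) :=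
    Pool.Agent.W386.MD.iob continuous_const _ _
  have h2 : ∫ z in ball a (rr (k + 1)), (2 * gsq W z + 18 * g)
      = 2 * (∫ z in ball a (rr (k + 1)), gsq W z) + (2 * rr (k + 1)) ^ 3 * (18 * g) := by
    rw [integral_add i1 i2, integral_const_mul, setIntegral_const, Measure.real,
      Real.volume_pi_ball _ (rr_pos' (k + 1)), smul_eq_mul,
      ENNReal.toReal_ofReal (by have := rr_pos' (k + 1); positivity)]
    simp only [Fintype.card_fin]
  have h3 : 8 ^ k * (∫ z in ball a (rr (k + 1)), gsq W z) ≤ ∫ z, gsq W z * tf k a z := by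
    refine W612.MD.low_term (W612.MD.gsq_cont hs.sW) (W612.MD.gsq_nonneg W)
      (tf_smooth k a).continuous (tf_nonneg k a) ?_ (fun z hz => (tf_one k a z hz).ge)
    intro z hz
    apply tf_zero
    intro h
    exact hz (ball_subset_ball (by norm_num) (ball_rr_sub ha (by omega) h))
  have h4 : (8 : ℝ) ^ k * (2 * rr (k + 1)) ^ 3 = 1 := by
    have h5 := eight_rr (k + 1)
    rw [pow_succ] at h5
    calc (8 : ℝ) ^ k * (2 * rr (k + 1)) ^ 3 = 8 ^ k * 8 * rr (k + 1) ^ 3 := by ring
      _ = 1 := h5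
  rw [h2] at h1
  have h6 := mul_le_mul_of_nonneg_left h1 (show (0 : ℝ) ≤ 8 ^ k by positivity)
  have h7 : (8 : ℝ) ^ k * (2 * (∫ z in ball a (rr (k + 1)), gsq W z)
      + (2 * rr (k + 1)) ^ 3 * (18 * g))
      = 2 * (8 ^ k * (∫ z in ball a (rr (k + 1)), gsq W z))
        + (8 ^ k * (2 * rr (k + 1)) ^ 3) * (18 * g) := by ring
  rw [h7, h4] at h6
  linarith

/-! ### The integrated inequality -/

lemma step_ineq {y y' D G : ℝ → ℝ} {p q α β : ℝ} (hpq : p ≤ q) (hp : -1 < p) (hq : q < 0)
    (hy : ContinuousOn y (Ioo (-1) 0)) (hD : ContinuousOn D (Ioo (-1) 0))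
    (hG : IntegrableOn G (Ioo (-1) 0))
    (hd : ∀ t ∈ Ioo p q, HasDerivAt y (y' t) t ∧ y' t ≤ -2 * D t + (α + β * G t)) :
    y q + 2 * (∫ t in p..q, D t) ≤ y p + (α * (q - p) + β * ∫ t in p..q, G t) := by
  have hsub : Icc p q ⊆ Ioo (-1) 0 := fun t ht => ⟨hp.trans_le ht.1, ht.2.trans_lt hq⟩
  have iD : IntervalIntegrable D volume p q := by
    apply ContinuousOn.intervalIntegrable
    rw [uIcc_of_le hpq]
    exact hD.mono hsub
  have iG : IntervalIntegrable G volume p q := by
    rw [intervalIntegrable_iff_integrableOn_Ioc_of_le hpq]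
    exact hG.mono_set (Ioc_subset_Icc_self.trans hsub)
  have h1 : y q - y p ≤ ∫ t in p..q, (-2 * D t + (α + β * G t)) := by
    apply intervalIntegral.sub_le_integral_of_hasDeriv_right_of_le (g' := y') hpq (hy.mono hsub)
    · intro t ht
      exact (hd t ht).1.hasDerivWithinAt
    · rw [← intervalIntegrable_iff_integrableOn_Icc_of_le hpq]
      exact (iD.const_mul (-2)).add ((intervalIntegrable_const).add (iG.const_mul β))
    · intro t ht
      exact (hd t ht).2
  have h2 : ∫ t in p..q, (-2 * D t + (α + β * G t))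
      = -2 * (∫ t in p..q, D t) + (α * (q - p) + β * ∫ t in p..q, G t) := by
    rw [intervalIntegral.integral_add (iD.const_mul (-2))
      ((intervalIntegrable_const).add (iG.const_mul β)),
      intervalIntegral.integral_add intervalIntegrable_const (iG.const_mul β),
      intervalIntegral.integral_const_mul, intervalIntegral.integral_const_mul,
      intervalIntegral.integral_const, smul_eq_mul]
    ring
  rw [h2] at h1
  linarith

end Pool.Agent.TH305.LW
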