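import Pool.Agent.TH305.LW.Small

/-!
Late window lemma (helper305): the main estimate.
-/

set_option autoImplicit false

open MeasureTheory Set Metric Filter Topology
open scoped ContDiff

namespace Pool.Agent.TH305.LW

open H459R3.NS W221.NS W221.NS.B

/-! ### Powers of two -/

lemma pw_M (n k1 : ℕ) : (4 : ℝ) ^ (4 * n + 2 * k1) * (1 / 2) ^ k1 = 2 ^ (8 * n + 3 * k1) := by
  have : (4 : ℝ) ^ (4 * n + 2 * k1) = 2 ^ (8 * n + 3 * k1) * 2 ^ k1 := by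
    rw [← pow_add, show (4 : ℝ) = 2 ^ 2 by norm_num, ← pow_mul]
    congr 1; ring
  rw [this, mul_assoc, ← mul_pow]; norm_num

lemma pw_1 (n k1 : ℕ) : (32 : ℝ) ^ (4 * n + 2 * k1) * 8 ^ n * 8 ^ (16 * n + 7 * k1)
    * (1 / 2) ^ (63 * n + 28 * k1) = 2 ^ (8 * n + 3 * k1) := by
  have : (32 : ℝ) ^ (4 * n + 2 * k1) * 8 ^ n * 8 ^ (16 * n + 7 * k1)
      = 2 ^ (8 * n + 3 * k1) * 2 ^ (63 * n + 28 * k1) := by
    rw [show (32 : ℝ) = 2 ^ 5 by norm_num, show (8 : ℝ) = 2 ^ 3 by norm_num, ← pow_mul, ← pow_mul,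
      ← pow_mul, ← pow_add, ← pow_add, ← pow_add]
    congr 1; ring
  rw [this, mul_assoc, ← mul_pow]; norm_num

lemma pw_2 (n k1 : ℕ) : (2 : ℝ) ^ n * √(8 ^ (4 * n + 2 * k1)) * 2 ^ n = 2 ^ (8 * n + 3 * k1) := by
  have e1 : √((8 : ℝ) ^ (4 * n + 2 * k1)) = 8 ^ (2 * n + k1) := by
    have : (8 : ℝ) ^ (4 * n + 2 * k1) = (8 ^ (2 * n + k1)) ^ 2 := by
      rw [← pow_mul]; congr 1; ring
    rw [this, Real.sqrt_sq (by positivity)]
  rw [e1, show (8 : ℝ) = 2 ^ 3 by norm_num, ← pow_mul, ← pow_add, ← pow_add]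
  congr 1; ring

lemma pw_3 (n k1 : ℕ) : (32 : ℝ) ^ (4 * n + 2 * k1) * 8 ^ n * (1 / 2) ^ (16 * n + 7 * k1) * 2 ^ n
    = 2 ^ (8 * n + 3 * k1) := by
  have : (32 : ℝ) ^ (4 * n + 2 * k1) * 8 ^ n * 2 ^ n
      = 2 ^ (8 * n + 3 * k1) * 2 ^ (16 * n + 7 * k1) := by
    rw [show (32 : ℝ) = 2 ^ 5 by norm_num, show (8 : ℝ) = 2 ^ 3 by norm_num, ← pow_mul, ← pow_mul,
      ← pow_add, ← pow_add, ← pow_add]
    congr 1; ring
  calc (32 : ℝ) ^ (4 * n + 2 * k1) * 8 ^ n * (1 / 2) ^ (16 * n + 7 * k1) * 2 ^ n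
      = (32 : ℝ) ^ (4 * n + 2 * k1) * 8 ^ n * 2 ^ n * (1 / 2) ^ (16 * n + 7 * k1) := by ring
    _ = 2 ^ (8 * n + 3 * k1) := by rw [this, mul_assoc, ← mul_pow]; norm_num

lemma pw_4 (n k1 : ℕ) : (2 : ℝ) ^ (4 * n + 2 * k1) * 2 ^ n ≤ 2 ^ (8 * n + 3 * k1) := by
  rw [← pow_add]
  exact pow_le_pow_right₀ (by norm_num) (by omega)

lemma pw_5 (n k1 : ℕ) : (4 : ℝ) ^ n ≤ 2 ^ (4 * n + 2 * k1) := by
  rw [show (4 : ℝ) = 2 ^ 2 by norm_num, ← pow_mul]
  exact pow_le_pow_right₀ (by norm_num) (by omega)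

lemma pw_6 (n k1 : ℕ) : (2 : ℝ) ^ n ≤ 2 ^ (8 * n + 3 * k1) :=
  pow_le_pow_right₀ (by norm_num) (by omega)

lemma pw_7 (k : ℕ) : (4 : ℝ) ^ k * rr k ^ 2 = 1 := by
  unfold rr
  rw [← pow_mul, mul_comm k 2, pow_mul, ← mul_pow]; norm_num

lemma pw_8 {n k1 : ℕ} (h : 3 ≤ k1) : (1 / 2 : ℝ) ^ (63 * n + 28 * k1) < rr (4 * n + 2 * k1) ^ 2 := by
  unfold rr
  rw [← pow_mul]
  exact pow_lt_pow_right_of_lt_one₀ (by norm_num) (by norm_num) (by omega)

lemma rr_sq_16 {k : ℕ} (h : 5 ≤ k) : rr k ^ 2 < 1 / 16 := by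
  have h1 : rr k ≤ rr 5 := W612.MD.rr_le h
  have h2 : rr 5 = 1 / 32 := by unfold rr; norm_num
  have h3 := rr_pos' k
  nlinarith

/-! ### The estimate -/

/-- Smallness of the dissipation at a small scale, if the field is bounded until shortly before
the final time. -/
theorem small : ∀ B : ℝ, 1 ≤ B → ∃ K : ℝ, 0 < K ∧ ∀ n k1 : ℕ, 3 ≤ k1 →
    ∀ (v W : ℝ → V → V) (G : ℝ → ℝ), Hyp2 v W G (2 ^ n) →
    (∀ t ∈ Ioo (-1 / 16 : ℝ) (-(1 / 2) ^ (63 * n + 28 * k1)), ∀ z ∈ ball (0 : V) (1 / 4), ∀ i,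
      |W t z i| ≤ B) →
    ∀ a ∈ ball (0 : V) (1 / 8), ∀ t1 ∈ Ioo (-(1 / 2 : ℝ) ^ (63 * n + 28 * k1)) 0,
      ∫ t in (-(rr (4 * n + 2 * k1)) ^ 2)..t1, B2 a (rr (4 * n + 2 * k1 + 1)) (v t)
        ≤ K * (1 / 2) ^ k1 * rr (4 * n + 2 * k1) := by
  intro B hB
  obtain ⟨CR, hCR, hrough⟩ := rough
  obtain ⟨CA, hCA, hrate⟩ := rate
  obtain ⟨K1, hK1, hearly⟩ := early B CR hB hCR
  obtain ⟨K2, hK2, hlate⟩ := late CR hCR
  refine ⟨24 * B ^ 2 + 5 * (CA * K1) + 3 * (CA * K2) + 18, by positivity, ?_⟩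
  intro n k1 hk1 v W G hyp hWB a ha t1 ht1
  obtain ⟨k, hk⟩ : ∃ k, k = 4 * n + 2 * k1 := ⟨_, rfl⟩
  obtain ⟨l, hl⟩ : ∃ l, l = 16 * n + 7 * k1 := ⟨_, rfl⟩
  obtain ⟨c, hc⟩ : ∃ c : ℝ, c = (1 / 2) ^ (63 * n + 28 * k1) := ⟨_, rfl⟩
  obtain ⟨M, hM⟩ : ∃ M : ℝ, M = 2 ^ (8 * n + 3 * k1) := ⟨_, rfl⟩
  have e0 := pw_M n k1
  have e1 := pw_1 n k1
  have e2 := pw_2 n k1
  have e3 := pw_3 n k1
  have e4 := pw_4 n k1
  have e5 := pw_5 n k1
  have e6 := pw_6 n k1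
  have e7 := pw_7 k
  have e8 := pw_8 (n := n) hk1
  have hk5 : 5 ≤ k := by omega
  have hkl : k ≤ 2 * l := by omega
  rw [← hk, ← hM] at e0
  rw [← hk, ← hl, ← hc, ← hM] at e1
  rw [← hk, ← hM] at e2
  rw [← hk, ← hl, ← hM] at e3
  rw [← hk, ← hM] at e4
  rw [← hk] at e5
  rw [← hM] at e6
  rw [← hk, ← hc] at e8
  rw [← hk]
  rw [← hc] at ht1 hWB
  have e9 := rr_sq_16 hk5
  have hc0 : 0 < c := by rw [hc]; positivity
  have hM1 : 1 ≤ M := by rw [hM]; exact one_le_pow₀ (by norm_num)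
  obtain ⟨t0, ht0⟩ : ∃ t0 : ℝ, t0 = -rr k ^ 2 := ⟨_, rfl⟩
  have ht0' : -(rr k) ^ 2 = t0 := by rw [ht0]
  rw [ht0']
  have htc : t0 < -c := by rw [ht0]; linarith
  have ht016 : -1 / 16 < t0 := by rw [ht0]; linarith
  have hyp' := hyp
  obtain ⟨hvsm, hWsm, hslice, hGi, hGe⟩ := hyp
  have hG0 : ∀ t ∈ Ioo (-1 : ℝ) 0, 0 ≤ G t := fun t ht => G_nonneg hyp' ht
  obtain ⟨y, hy⟩ : ∃ y : ℝ → ℝ, y = fun t => ∫ z, nsq (W t) z * tf k a z := ⟨_, rfl⟩
  obtain ⟨D, hD⟩ : ∃ D : ℝ → ℝ, D = fun t => ∫ z, gsq (W t) z * tf k a z := ⟨_, rfl⟩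
  have h1s : ∀ z ∉ ball (0 : V) 1, tf k a z = 0 := by
    intro z hz
    apply tf_zero
    intro h
    exact hz (ball_subset_ball (by norm_num) (ball_rr_sub ha (by omega) h))
  obtain ⟨hyc, hDc⟩ := (p_ct (-1) 0 W hWsm).2 (fun _ z => tf k a z)
    (((tf_smooth k a).comp contDiff_snd).contDiffOn) (fun _ _ z hz => h1s z hz)
  have hyc' : ContinuousOn y (Ioo (-1) 0) := by rw [hy]; exact hyc
  have hDc' : ContinuousOn D (Ioo (-1) 0) := by rw [hD]; exact hDc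
  clear hyc hDc
  have hy0 : ∀ t, 0 ≤ y t := by
    intro t
    rw [hy]
    exact integral_nonneg fun z => mul_nonneg (W612.MD.nsq_nonneg _ z) (tf_nonneg k a z)
  -- the initial value
  have hyt0 : y t0 ≤ 24 * B ^ 2 := by
    have hW0 : ContDiff ℝ ∞ (W t0) := by
      obtain ⟨P, hP⟩ := hslice t0 ⟨by linarith, by linarith⟩
      exact hP.sW
    rw [hy]
    refine (Y_le hW0 a k).trans ?_
    have h1 : 8 ^ k * A2 a (rr k) (W t0) ≤ 8 * (3 * B ^ 2) := by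
      refine int_small (W612.MD.nsq_cont hW0) k ?_
      intro z hz
      exact nsq_bd (hWB t0 ⟨ht016, htc⟩ z (ball_rr_sub ha (by omega) hz))
    linarith
  choose! y' hy1 hy2 using hrate v W G _ hyp' k hk5 a ha
  have hyD : ∀ t ∈ Ioo (-1 : ℝ) 0, HasDerivAt y (y' t) t := by
    intro t ht
    rw [hy]
    exact hy1 t ht
  -- early times
  have hE := step_ineq (y := y) (y' := y') (D := D) (G := G) (p := t0) (q := -c)
    (α := CA * K1 * (4 ^ k + (2 ^ k + 4 ^ n))) (β := CA * K1 * (2 ^ k + 4 ^ n)) htc.le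
    (by linarith) (by linarith) hyc' hDc' hGi (by
      intro t ht
      have ht' : t ∈ Ioo (-1 : ℝ) 0 := ⟨by linarith [ht.1], by linarith [ht.2]⟩
      refine ⟨hyD t ht', (hy2 t ht').trans ?_⟩
      obtain ⟨P, hP⟩ := hslice t ht'
      have h1 := hearly (W t) hP.sW a ha k hk5 (hWB t ⟨by linarith [ht.1], ht.2⟩) n (G t)
        (hG0 t ht') (hrough v W G n hyp' t ⟨by linarith [ht.1], ht'.2⟩)
      have h2 := mul_le_mul_of_nonneg_left h1 hCA.le
      rw [hD]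
      simp only
      linarith)
  -- late times
  have hL := step_ineq (y := y) (y' := y') (D := D) (G := G) (p := -c) (q := t1)
    (α := CA * K2 * (32 ^ k * 8 ^ n * 8 ^ l))
    (β := CA * K2 * (2 ^ n * √(8 ^ k) + 32 ^ k * 8 ^ n * (1 / 2) ^ l)) ht1.1.le
    (by linarith) (by linarith [ht1.2]) hyc' hDc' hGi (by
      intro t ht
      have ht' : t ∈ Ioo (-1 : ℝ) 0 := ⟨by linarith [ht.1], by linarith [ht.2, ht1.2]⟩
      refine ⟨hyD t ht', (hy2 t ht').trans ?_⟩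
      obtain ⟨P, hP⟩ := hslice t ht'
      have h1 := hlate _ _ _ P (G t) hP a ha k l hk5 hkl n
        (hrough v W G n hyp' t ⟨by linarith [ht.1], ht'.2⟩)
      have h2 := mul_le_mul_of_nonneg_left h1 hCA.le
      rw [hD]
      simp only
      linarith)
  -- integrals of G
  have hGint : ∀ p q : ℝ, -1 < p → p ≤ q → q < 0 → ∫ t in p..q, G t ≤ 2 ^ n := by
    intro p q hp hpq hq
    rw [intervalIntegral.integral_of_le hpq]
    refine le_trans ?_ hGe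
    apply setIntegral_mono_set hGi
    · exact (ae_restrict_iff' measurableSet_Ioo).2 (Filter.Eventually.of_forall hG0)
    · have hs : Ioc p q ⊆ Ioo (-1) 0 := fun t ht => ⟨hp.trans ht.1, ht.2.trans_lt hq⟩
      exact hs.eventuallyLE
  have hGE := hGint t0 (-c) (by linarith) htc.le (by linarith)
  have hGL := hGint (-c) t1 (by linarith) ht1.1.le ht1.2
  have hGT := hGint t0 t1 (by linarith) (by linarith [ht1.1]) ht1.2
  -- the bounds
  have b1 : CA * K1 * (4 ^ k + (2 ^ k + 4 ^ n)) * (-c - t0)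
      + CA * K1 * (2 ^ k + 4 ^ n) * (∫ t in t0..(-c), G t) ≤ 5 * (CA * K1) * M := by
    have hCK : 0 < CA * K1 := by positivity
    have h1 : -c - t0 ≤ rr k ^ 2 := by rw [ht0]; linarith
    have h24 : (2 : ℝ) ^ k ≤ 4 ^ k := pow_le_pow_left₀ (by norm_num) (by norm_num) k
    have h2 : (4 ^ k + (2 ^ k + 4 ^ n)) * (-c - t0) ≤ 3 := by
      have h3 : (4 : ℝ) ^ k + (2 ^ k + 4 ^ n) ≤ 3 * 4 ^ k := by linarith
      calc (4 ^ k + (2 ^ k + 4 ^ n)) * (-c - t0) ≤ (3 * 4 ^ k) * rr k ^ 2 :=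
            mul_le_mul h3 h1 (by linarith) (by positivity)
        _ = 3 * (4 ^ k * rr k ^ 2) := by ring
        _ = 3 := by rw [e7]; norm_num
    have h4 : (2 ^ k + 4 ^ n) * (∫ t in t0..(-c), G t) ≤ 2 * M := by
      calc (2 ^ k + 4 ^ n) * (∫ t in t0..(-c), G t) ≤ (2 * 2 ^ k) * 2 ^ n := by
            apply mul_le_mul (by linarith) hGE _ (by positivity)
            apply intervalIntegral.integral_nonneg htc.le
            intro t ht
            exact hG0 t ⟨by linarith [ht.1], by linarith [ht.2]⟩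
        _ = 2 * (2 ^ k * 2 ^ n) := by ring
        _ ≤ 2 * M := by linarith
    have h5 := mul_le_mul_of_nonneg_left (add_le_add h2 h4) hCK.le
    have h6 : CA * K1 * (3 + 2 * M) ≤ 5 * (CA * K1) * M := by nlinarith
    linarith
  have b2 : CA * K2 * (32 ^ k * 8 ^ n * 8 ^ l) * (t1 - -c)
      + CA * K2 * (2 ^ n * √(8 ^ k) + 32 ^ k * 8 ^ n * (1 / 2) ^ l) * (∫ t in (-c)..t1, G t)
        ≤ 3 * (CA * K2) * M := by
    have hCK : 0 < CA * K2 := by positivity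
    have h1 : t1 - -c ≤ c := by linarith [ht1.2]
    have h2 : (32 ^ k * 8 ^ n * 8 ^ l) * (t1 - -c) ≤ M := by
      rw [← e1]
      exact mul_le_mul_of_nonneg_left h1 (by positivity)
    have h4 : (2 ^ n * √(8 ^ k) + 32 ^ k * 8 ^ n * (1 / 2) ^ l) * (∫ t in (-c)..t1, G t)
        ≤ 2 * M := by
      calc (2 ^ n * √(8 ^ k) + 32 ^ k * 8 ^ n * (1 / 2) ^ l) * (∫ t in (-c)..t1, G t)
          ≤ (2 ^ n * √(8 ^ k) + 32 ^ k * 8 ^ n * (1 / 2) ^ l) * 2 ^ n :=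
            mul_le_mul_of_nonneg_left hGL (by positivity)
        _ = 2 ^ n * √(8 ^ k) * 2 ^ n + 32 ^ k * 8 ^ n * (1 / 2) ^ l * 2 ^ n := by ring
        _ = 2 * M := by rw [e2, e3]; ring
    have h5 := mul_le_mul_of_nonneg_left (add_le_add h2 h4) hCK.le
    linarith
  have hDint : 2 * ∫ t in t0..t1, D t ≤ (24 * B ^ 2 + 5 * (CA * K1) + 3 * (CA * K2)) * M := by
    have iD : ∀ p q : ℝ, -1 < p → p ≤ q → q < 0 → IntervalIntegrable D volume p q := by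
      intro p q hp hpq hq
      apply ContinuousOn.intervalIntegrable
      rw [uIcc_of_le hpq]
      exact hDc'.mono fun t ht => ⟨hp.trans_le ht.1, ht.2.trans_lt hq⟩
    have h1 := intervalIntegral.integral_add_adjacent_intervals
      (iD t0 (-c) (by linarith) htc.le (by linarith)) (iD (-c) t1 (by linarith) ht1.1.le ht1.2)
    have h2 : 24 * B ^ 2 ≤ 24 * B ^ 2 * M := le_mul_of_one_le_right (by positivity) hM1
    have h3 := hy0 t1
    rw [← h1]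
    linarith
  -- comparison
  have hBc : ContinuousOn (fun t => B2 a (rr (k + 1)) (v t)) (Ioo (-1) 0) :=
    ((p_ct (-1) 0 v hvsm).1 a (rr (k + 1))).2
  have hsub1 : Icc t0 t1 ⊆ Ioo (-1) 0 := fun t ht =>
    ⟨by linarith [ht.1], ht.2.trans_lt ht1.2⟩
  have h01 : t0 ≤ t1 := by linarith [ht1.1]
  have hcmp : ∫ t in t0..t1, 8 ^ k * B2 a (rr (k + 1)) (v t)
      ≤ ∫ t in t0..t1, (2 * D t + 18 * G t) := by
    have iG : IntervalIntegrable G volume t0 t1 := by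
      rw [intervalIntegrable_iff_integrableOn_Ioc_of_le h01]
      exact hGi.mono_set (Ioc_subset_Icc_self.trans hsub1)
    have iD : IntervalIntegrable D volume t0 t1 := by
      apply ContinuousOn.intervalIntegrable
      rw [uIcc_of_le h01]
      exact hDc'.mono hsub1
    apply intervalIntegral.integral_mono_on h01
    · apply ContinuousOn.intervalIntegrable
      rw [uIcc_of_le h01]
      exact continuousOn_const.mul (hBc.mono hsub1)
    · exact (iD.const_mul 2).add (iG.const_mul 18)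
    · intro t ht
      obtain ⟨P, hP⟩ := hslice t (hsub1 ht)
      rw [hD]
      exact B2_cmp hP ha hk5
  have hsplit : ∫ t in t0..t1, (2 * D t + 18 * G t)
      = 2 * (∫ t in t0..t1, D t) + 18 * ∫ t in t0..t1, G t := by
    have iG : IntervalIntegrable G volume t0 t1 := by
      rw [intervalIntegrable_iff_integrableOn_Ioc_of_le h01]
      exact hGi.mono_set (Ioc_subset_Icc_self.trans hsub1)
    have iD : IntervalIntegrable D volume t0 t1 := by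
      apply ContinuousOn.intervalIntegrable
      rw [uIcc_of_le h01]
      exact hDc'.mono hsub1
    rw [intervalIntegral.integral_add (iD.const_mul 2) (iG.const_mul 18),
      intervalIntegral.integral_const_mul, intervalIntegral.integral_const_mul]
  rw [hsplit, intervalIntegral.integral_const_mul] at hcmp
  obtain ⟨I, hI⟩ : ∃ I, I = ∫ t in t0..t1, B2 a (rr (k + 1)) (v t) := ⟨_, rfl⟩
  rw [← hI] at hcmp ⊢
  have hfin : 8 ^ k * I ≤ (24 * B ^ 2 + 5 * (CA * K1) + 3 * (CA * K2) + 18) * M := by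
    linarith
  obtain ⟨Q, hQ⟩ : ∃ Q, Q = 24 * B ^ 2 + 5 * (CA * K1) + 3 * (CA * K2) + 18 := ⟨_, rfl⟩
  rw [← hQ] at hfin ⊢
  have e10 : (8 : ℝ) ^ k * rr k = 4 ^ k := by
    unfold rr
    rw [← mul_pow]; norm_num
  have e11 : (8 : ℝ) ^ k * (Q * (1 / 2) ^ k1 * rr k) = Q * M := by
    rw [← e0, ← e10]; ring
  rw [← e11] at hfin
  exact le_of_mul_le_mul_left hfin (by positivity)

end Pool.Agent.TH305.LW
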