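import Pool.Agent.W221.NS.Asm3

/-!
Late window lemma (helper305): the test functions.
-/

set_option autoImplicit false

open MeasureTheory Set Metric
open scoped ContDiff

namespace Pool.Agent.TH305.LW

open H459R3.NS W221.NS

/-- The test function at scale `2⁻ᵏ` around `a`. -/
noncomputable def tf (k : ℕ) (a : V) (z : V) : ℝ := 8 ^ k * W605.MD.k2 ((2 : ℝ) ^ k • (z - a))

lemma rr_pos' (k : ℕ) : 0 < rr k := by unfold rr; positivity

lemma two_rr (k : ℕ) : (2 : ℝ) ^ k * rr k = 1 := by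
  unfold rr
  rw [← mul_pow]
  norm_num

lemma tf_arg_norm (k : ℕ) (a z : V) : ‖(2 : ℝ) ^ k • (z - a)‖ = 2 ^ k * dist z a := by
  rw [norm_smul, dist_eq_norm, Real.norm_of_nonneg (by positivity)]

lemma tf_smooth (k : ℕ) (a : V) : ContDiff ℝ ∞ (tf k a) := by
  unfold tf
  have h : ContDiff ℝ ∞ (fun z : V => (2 : ℝ) ^ k • (z - a)) := by fun_prop
  exact contDiff_const.mul (W605.MD.k2_smooth.comp h)

lemma tf_nonneg (k : ℕ) (a z : V) : 0 ≤ tf k a z := by
  unfold tf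
  have := W605.MD.k2_nonneg ((2 : ℝ) ^ k • (z - a))
  positivity

lemma tf_le (k : ℕ) (a z : V) : tf k a z ≤ 8 ^ k := by
  unfold tf
  have h1 := W605.MD.k2_le_one ((2 : ℝ) ^ k • (z - a))
  have h2 : (0 : ℝ) ≤ 8 ^ k := by positivity
  nlinarith

lemma tf_zero (k : ℕ) (a : V) : ∀ z ∉ ball a (rr k), tf k a z = 0 := by
  intro z hz
  unfold tf
  rw [W605.MD.k2_zero, mul_zero]
  intro h
  apply hz
  rw [mem_ball, dist_zero_right, tf_arg_norm] at h
  rw [mem_ball]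
  have h1 := two_rr k
  have h2 : (0 : ℝ) < 2 ^ k := by positivity
  by_contra hc
  rw [not_lt] at hc
  have := mul_le_mul_of_nonneg_left hc h2.le
  linarith

lemma tf_one (k : ℕ) (a : V) : ∀ z ∈ ball a (rr (k + 1)), tf k a z = 8 ^ k := by
  intro z hz
  unfold tf
  rw [W605.MD.k2_one, mul_one]
  rw [mem_ball, dist_zero_right, tf_arg_norm]
  rw [mem_ball] at hz
  have h1 := two_rr (k + 1)
  have h2 : (0 : ℝ) < 2 ^ k := by positivity
  have h3 := mul_lt_mul_of_pos_left hz h2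
  rw [pow_succ] at h1
  linarith

lemma pd_scal {f : V → ℝ} (hf : ContDiff ℝ ∞ f) (c l : ℝ) (a : V) (i : Fin 3) :
    pd i (fun z => c * f (l • (z - a))) = fun z => (c * l) * pd i f (l • (z - a)) := by
  funext z
  have h1 : HasFDerivAt f (fderiv ℝ f (l • (z - a))) (l • (z - a)) :=
    (hf.differentiable (by simp) _).hasFDerivAt
  have h2 : HasFDerivAt (fun y : V => l • (y - a)) (l • ContinuousLinearMap.id ℝ V) z :=
    ((hasFDerivAt_id z).sub_const a).const_smul l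
  have h3 := (h1.comp z h2).const_mul c
  unfold pd
  have h4 : fderiv ℝ (fun z => c * f (l • (z - a))) z = _ := h3.fderiv
  rw [h4]
  simp
  ring

lemma lap_scal {f : V → ℝ} (hf : ContDiff ℝ ∞ f) (c l : ℝ) (a z : V) :
    lap (fun z => c * f (l • (z - a))) z = (c * l * l) * lap f (l • (z - a)) := by
  unfold lap
  rw [Finset.mul_sum]
  refine Finset.sum_congr rfl fun i _ => ?_
  rw [pd_scal hf, pd_scal (W605.MD.pd_smooth i hf)]

lemma tf_pd : ∃ C : ℝ, 1 ≤ C ∧ ∀ (k : ℕ) (a z : V) (i : Fin 3), |pd i (tf k a) z| ≤ C * 16 ^ k := by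
  obtain ⟨C₀, hC₀, h⟩ := W162.MD.exists_bound
  refine ⟨2 * C₀ + 1, by linarith, fun k a z i => ?_⟩
  have e : pd i (tf k a) z = (8 ^ k * 2 ^ k) * pd i W605.MD.k2 ((2 : ℝ) ^ k • (z - a)) :=
    congrFun (pd_scal W605.MD.k2_smooth (8 ^ k) (2 ^ k) a i) z
  have h1 : ∀ y : V, |pd i W605.MD.k2 y| ≤ 2 * C₀ := by
    intro y
    have e1 : pd i W605.MD.k2 y = 2 * kap y * pd i (fun y : V => kap y) y :=
      W162.MD.pd_kap_sq i y
    rw [e1, abs_mul, abs_mul, abs_of_nonneg (kap.nonneg : 0 ≤ kap y)]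
    have h2 := h i y
    have h3 : kap y ≤ 1 := kap.le_one
    have h4 : 0 ≤ kap y := kap.nonneg
    have h5 : |(2 : ℝ)| = 2 := by norm_num
    rw [h5]
    have h6 := abs_nonneg (pd i (fun y : V => kap y) y)
    nlinarith
  rw [e, abs_mul]
  have e2 : |(8 : ℝ) ^ k * 2 ^ k| = 16 ^ k := by
    rw [← mul_pow]; norm_num
  rw [e2]
  have h3 := h1 ((2 : ℝ) ^ k • (z - a))
  have h4 : (0 : ℝ) < 16 ^ k := by positivity
  nlinarith

lemma tf_lap : ∃ C : ℝ, 0 ≤ C ∧ ∀ (k : ℕ) (a z : V), |lap (tf k a) z| ≤ C * 32 ^ k := by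
  obtain ⟨L, hL0, hL⟩ := W605.MD.lap_k2_bound
  refine ⟨L, hL0, fun k a z => ?_⟩
  have e : lap (tf k a) z = (8 ^ k * 2 ^ k * 2 ^ k) * lap W605.MD.k2 ((2 : ℝ) ^ k • (z - a)) :=
    lap_scal W605.MD.k2_smooth (8 ^ k) (2 ^ k) a z
  rw [e, abs_mul]
  have e2 : |(8 : ℝ) ^ k * 2 ^ k * 2 ^ k| = 32 ^ k := by
    rw [← mul_pow, ← mul_pow]; norm_num
  rw [e2, mul_comm]
  exact mul_le_mul_of_nonneg_right (hL _) (by positivity)

lemma lap_tf_zero (k : ℕ) (a : V) {z : V} (hz : z ∉ ball a (rr k)) : lap (tf k a) z = 0 := by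
  unfold lap
  apply Finset.sum_eq_zero
  intro i _
  exact Pool.Agent.W386.MD.pd_zero (W605.MD.pd_smooth i (tf_smooth k a)) (rr_pos' k)
    (Pool.Agent.W386.MD.pd_zero (tf_smooth k a) (rr_pos' k) (tf_zero k a) i) i z hz

lemma tf_cs (k : ℕ) (a : V) : HasCompactSupport (tf k a) :=
  Pool.Agent.W386.MD.hcs (tf_zero k a)

lemma tf_int_le (k : ℕ) (a : V) : ∫ z, tf k a z ≤ 8 := by
  have e : ∫ z, tf k a z = ∫ z in ball a (rr k), tf k a z :=
    (setIntegral_eq_integral_of_forall_compl_eq_zero fun z hz => tf_zero k a z hz).symm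
  rw [e]
  have h1 : ∫ z in ball a (rr k), tf k a z ≤ ∫ _z in ball a (rr k), (8 : ℝ) ^ k := by
    apply setIntegral_mono (Pool.Agent.W386.MD.iob (tf_smooth k a).continuous _ _)
      (Pool.Agent.W386.MD.iob continuous_const _ _)
    intro z
    exact tf_le k a z
  refine h1.trans (le_of_eq ?_)
  rw [setIntegral_const, Measure.real, Real.volume_pi_ball _ (rr_pos' k), smul_eq_mul,
    ENNReal.toReal_ofReal (by have := rr_pos' k; positivity)]
  simp only [Fintype.card_fin]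
  have h2 := two_rr k
  have h8 : (8 : ℝ) ^ k = (2 ^ k) ^ 3 := by
    rw [← pow_mul, mul_comm, pow_mul]; norm_num
  rw [h8]
  have e3 : (2 * rr k) ^ 3 * ((2 : ℝ) ^ k) ^ 3 = 8 * (2 ^ k * rr k) ^ 3 := by ring
  rw [e3, h2]
  norm_num

end Pool.Agent.TH305.LW
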