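import Pool.Agent.TH305.LW.Count4

/-!
Late window lemma (helper305): compact subsets of a domain and the whole space, viscosity one.
-/

set_option autoImplicit false

open MeasureTheory Set Metric Filter Topology
open scoped ContDiff ENNReal

namespace Pool.Agent.TH305.LW

open H459R3.NS W221.NS Pool.Agent.W349.MF Pool.Agent.W436.MH

/-- Separated singular points in a compact subset of a domain. -/
def S_OMEGA4 : Prop := ∃ C : ℝ, 0 < C ∧ ∀ (T E F : ℝ) (Ω : Set V) (u : ℝ → V → V)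
  (p : ℝ → V → ℝ) (f : ℝ → V → V),
  0 < T → 0 ≤ E → 0 ≤ F → OSolF 1 T E F Ω u p f → ∀ K : Set V, IsCompact K → K ⊆ Ω →
    ∃ r₀ : ℝ, 0 < r₀ ∧ ∀ r : ℝ, 0 < r → r < r₀ →
      ∫⁻ τ in Ioo (T - 256 * r ^ 2) T, ∫⁻ y in Ω, ENNReal.ofReal (gsq (u τ) y) ≠ ⊤ →
      ∀ S : Finset V, (∀ x ∈ S, x ∈ K ∧ Sing T u x) →
      (∀ x ∈ S, ∀ y ∈ S, x ≠ y → r ≤ ‖x - y‖) →
        ENNReal.ofReal (S.card * r) ≤ ENNReal.ofReal C *
          ∫⁻ τ in Ioo (T - 256 * r ^ 2) T,
            ENNReal.ofReal (((T - τ) / r ^ 2) ^ (1 / 1152 : ℝ)) *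
              ∫⁻ y in Ω, ENNReal.ofReal (gsq (u τ) y)

/-- Separated singular points in the whole space. -/
def S_WHOLE4 : Prop := ∃ C : ℝ, 0 < C ∧ ∀ (T E F : ℝ) (u : ℝ → V → V) (p : ℝ → V → ℝ)
  (f : ℝ → V → V), 0 < T → 0 ≤ E → 0 ≤ F → OSolF 1 T E F univ u p f → ∀ r : ℝ, 0 < r →
    C * r ≤ 1 → C * F * r ^ 3 ≤ 1 → 256 * r ^ 2 < T →
    ∫⁻ τ in Ioo (T - 256 * r ^ 2) T, ∫⁻ y, ENNReal.ofReal (gsq (u τ) y) ≠ ⊤ → ∀ S : Finset V,
    (∀ x ∈ S, Sing T u x) → (∀ x ∈ S, ∀ y ∈ S, x ≠ y → r ≤ ‖x - y‖) →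
      ENNReal.ofReal (S.card * r) ≤ ENNReal.ofReal C *
        ∫⁻ τ in Ioo (T - 256 * r ^ 2) T,
          ENNReal.ofReal (((T - τ) / r ^ 2) ^ (1 / 1152 : ℝ)) *
            ∫⁻ y, ENNReal.ofReal (gsq (u τ) y)

lemma wt_le {T τ r : ℝ} (hr : 0 < r) (hτ : τ < T) :
    ENNReal.ofReal (((T - τ) / (8 * r) ^ 2) ^ (1 / 1152 : ℝ))
      ≤ ENNReal.ofReal (((T - τ) / r ^ 2) ^ (1 / 1152 : ℝ)) := by
  apply ENNReal.ofReal_le_ofReal
  apply Real.rpow_le_rpow _ _ (by norm_num)
  · exact div_nonneg (by linarith) (by positivity)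
  · apply div_le_div_of_nonneg_left (by linarith) (by positivity)
    nlinarith only [hr]

theorem omega4 (h : S_COUNT4) : S_OMEGA4 := by
  obtain ⟨C, hC, h⟩ := h
  refine ⟨C, hC, fun T E F Ω u p f hT hE hF hS K hK hKΩ => ?_⟩
  obtain ⟨ζ, δ, hδ, hζ, hc, hts, h01, h1, hOΩ⟩ := cutoff hK hS.openO hKΩ
  obtain ⟨B, hB0, hB⟩ := pd_bd hζ hc
  set O : Set V := thickening δ K with hO
  have hOo : IsOpen O := isOpen_thickening
  have hL := cut_sol3 hE hS hζ hc hts h01 hOo hOΩ h1 hB0 hB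
  set κ : ℝ := 2 * B * E with hκ
  have hκ0 : 0 ≤ κ := by positivity
  -- small radii
  have c1 : Continuous fun r : ℝ => 4 * (8 * r) ^ 2 := by fun_prop
  have c2 : Continuous fun r : ℝ => C * κ * √(8 * r) := by fun_prop
  have c3 : Continuous fun r : ℝ => C * (8 * r + E * √(8 * r)) := by fun_prop
  have l1 : ∀ᶠ r : ℝ in 𝓝 0, 4 * (8 * r) ^ 2 < T := by
    have := c1.tendsto 0
    simp only [mul_zero, ne_eq, OfNat.ofNat_ne_zero, not_false_eq_true, zero_pow] at this
    exact this.eventually_lt_const hT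
  have l2 : ∀ᶠ r : ℝ in 𝓝 0, C * κ * √(8 * r) < 1 := by
    have := c2.tendsto 0
    simp only [mul_zero, Real.sqrt_zero] at this
    exact this.eventually_lt_const one_pos
  have l3 : ∀ᶠ r : ℝ in 𝓝 0, C * (8 * r + E * √(8 * r)) < δ := by
    have := c3.tendsto 0
    simp only [mul_zero, Real.sqrt_zero, add_zero] at this
    exact this.eventually_lt_const hδ
  have c4 : Continuous fun r : ℝ => 8 * r := by fun_prop
  have c5 : Continuous fun r : ℝ => C * F * (8 * r) ^ 3 := by fun_prop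
  have l4 : ∀ᶠ r : ℝ in 𝓝 0, 8 * r < 1 := by
    have := c4.tendsto 0
    simp only [mul_zero] at this
    exact this.eventually_lt_const one_pos
  have l5 : ∀ᶠ r : ℝ in 𝓝 0, C * F * (8 * r) ^ 3 < 1 := by
    have := c5.tendsto 0
    simp only [mul_zero, ne_eq, OfNat.ofNat_ne_zero, not_false_eq_true, zero_pow] at this
    exact this.eventually_lt_const one_pos
  obtain ⟨r₀, hr₀, hr⟩ := Metric.eventually_nhds_iff.1 (l1.and (l2.and (l3.and (l4.and l5))))
  refine ⟨r₀, hr₀, fun r hr0 hrr hfin S hSK hsep => ?_⟩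
  obtain ⟨m1, m2, m3, m4, m5⟩ := hr (show dist r 0 < r₀ by
    rw [Real.dist_eq, sub_zero, abs_of_pos hr0]; exact hrr)
  have hSing : ∀ x ∈ S, Sing T (fun t x => ζ x • u t x) x := by
    intro x hx ε hε M
    have hxO : x ∈ O := self_subset_thickening hδ K (hSK x hx).1
    obtain ⟨ρ, hρ, hρO⟩ := Metric.isOpen_iff.1 hOo x hxO
    obtain ⟨t, ht, y, hy, hM⟩ := (hSK x hx).2 (min ε ρ) (lt_min hε hρ) M
    refine ⟨t, ⟨by linarith [ht.1, min_le_left ε ρ], ht.2⟩, y,
      ball_subset_ball (min_le_left _ _) hy, ?_⟩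
    have hyO : y ∈ O := hρO (ball_subset_ball (min_le_right _ _) hy)
    show M < ‖ζ y • u t y‖
    rw [h1 y hyO, one_smul]
    exact hM
  have e : 4 * (8 * r) ^ 2 = 256 * r ^ 2 := by ring
  have hg : ∀ τ, ∀ y ∈ O, gsq (fun x => ζ x • u τ x) y = gsq (u τ) y := by
    intro τ y hy
    unfold gsq
    refine Finset.sum_congr rfl fun i _ => Finset.sum_congr rfl fun j _ => ?_
    have h2 : (fun y => (ζ y • u τ y) i) =ᶠ[𝓝 y] fun y => u τ y i := by
      filter_upwards [hOo.mem_nhds hy] with z hz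
      rw [h1 z hz, one_smul]
    rw [pd_congr' h2 j]
  have h3 : ∀ τ, ∫⁻ y in O, ENNReal.ofReal (gsq (fun x => ζ x • u τ x) y) ≤
      ∫⁻ y in Ω, ENNReal.ofReal (gsq (u τ) y) := by
    intro τ
    have : ∫⁻ y in O, ENNReal.ofReal (gsq (fun x => ζ x • u τ x) y) =
        ∫⁻ y in O, ENNReal.ofReal (gsq (u τ) y) :=
      setLIntegral_congr_fun hOo.measurableSet fun y hy => by
        simp only [hg τ y hy]
    rw [this]
    exact lintegral_mono_set hOΩ
  have hfin' : ∫⁻ τ in Ioo (T - 4 * (8 * r) ^ 2) T,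
      ∫⁻ y in O, ENNReal.ofReal (gsq (fun x => ζ x • u τ x) y) ≠ ⊤ := by
    rw [e]
    exact ne_top_of_le_ne_top hfin (lintegral_mono fun τ => h3 τ)
  have key := h T κ E F O _ _ hκ0 hE hF hL (8 * r) (by linarith) m4.le m1 m2.le m5.le hfin' S
    hSing (fun x hx => (ball_subset_ball m3.le).trans (ball_subset_thickening (hSK x hx).1 δ))
    (fun x hx y hy hxy => by
      have := hsep x hx y hy hxy
      linarith)
  rw [e] at key
  have hcard : (0 : ℝ) ≤ S.card := Nat.cast_nonneg _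
  refine (ENNReal.ofReal_le_ofReal (show (S.card : ℝ) * r ≤ S.card * (8 * r) by nlinarith)).trans
    (key.trans ?_)
  refine mul_le_mul_right (setLIntegral_mono' measurableSet_Ioo fun τ hτ => ?_) _
  exact mul_le_mul' (wt_le hr0 hτ.2) (h3 τ)

theorem whole4 (h : S_COUNT4) : S_WHOLE4 := by
  obtain ⟨C, hC, h⟩ := h
  refine ⟨512 * C + 8, by linarith,
    fun T E F u p f hT hE hF hS r hr hr1 hFr hrT hfin S hSing hsep => ?_⟩
  have hdv : ∀ t ∈ Ioo 0 T, ∀ x, dv (u t) x = 0 := fun t ht x => hS.divfree t ht x (mem_univ x)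
  have hres : ∀ t ∈ Ioo 0 T, res u p t = f t := by
    intro t ht
    funext x i
    have h1 := hS.momentum t ht x (mem_univ x) i
    show deriv (fun s => u s x i) t + (∑ j, u t x j * pd j (fun y => u t y i) x) -
      (∑ j, pd j (pd j (fun y => u t y i)) x) + pd i (p t) x = f t x i
    rw [h1]
    ring
  have hL : LSol3 T 0 E F univ u p :=
    { openO := isOpen_univ
      smooth_u := hS.smooth_u
      smooth_p := hS.smooth_p
      divfree := fun t ht x _ => hdv t ht x
      force := fun t ht => by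
        rw [hres t ht]
        exact hS.force t ht
      en_int := fun t ht => by
        have := hS.en_int t ht
        rwa [integrableOn_univ] at this
      en := fun t ht => by
        have := hS.en t ht
        rwa [Measure.restrict_univ] at this
      dv_int := fun t ht => by
        have : (fun x => dv (u t) x ^ 2) = fun _ => (0 : ℝ) := by
          funext x; rw [hdv t ht x]; norm_num
        rw [this]; exact integrable_zero _ _ _
      dvb := fun t ht => by
        have : (fun x => dv (u t) x ^ 2) = fun _ => (0 : ℝ) := by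
          funext x; rw [hdv t ht x]; norm_num
        rw [this]; simp }
  have e : 4 * (8 * r) ^ 2 = 256 * r ^ 2 := by ring
  have hCr : 0 < C * r := mul_pos hC hr
  have h4r : 8 * r ≤ 1 := by linarith
  have hFr0 : 0 ≤ F * r ^ 3 := mul_nonneg hF (pow_pos hr 3).le
  have hF4 : C * F * (8 * r) ^ 3 ≤ 1 := by
    have e1 : C * F * (8 * r) ^ 3 = 512 * C * (F * r ^ 3) := by ring
    have e2 : (512 * C + 8) * F * r ^ 3 = 512 * C * (F * r ^ 3) + 8 * (F * r ^ 3) := by ring
    rw [e1]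
    rw [e2] at hFr
    linarith
  have key := h T 0 E F univ u p le_rfl hE hF hL (8 * r) (by linarith) h4r
    (by rw [e]; exact hrT) (by rw [mul_zero, zero_mul]; norm_num) hF4
    (by rw [e]; simpa only [Measure.restrict_univ] using hfin) S hSing
    (fun x _ => subset_univ _)
    (fun x hx y hy hxy => by
      have := hsep x hx y hy hxy
      linarith)
  rw [e] at key
  simp only [Measure.restrict_univ] at key
  refine le_trans (ENNReal.ofReal_le_ofReal ?_) (key.trans ?_)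
  · have : (0 : ℝ) ≤ S.card := Nat.cast_nonneg _
    nlinarith
  · apply mul_le_mul'
    · apply ENNReal.ofReal_le_ofReal
      linarith
    · refine setLIntegral_mono' measurableSet_Ioo fun τ hτ => ?_
      exact mul_le_mul_left (wt_le hr hτ.2) _

end Pool.Agent.TH305.LW
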